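import Pool.Agent.TH362.FF.Defs
import Pool.Agent.TH497.PW.IntFlow

/-!
# Integer flows from flows modulo five (job 4770, written by helper656)
-/

set_option autoImplicit false

namespace Pool.Agent.TH362.FF

open Finset Pool.Agent.TH362.TF

variable {V E : Type} [Fintype V] [DecidableEq V] [Fintype E] [DecidableEq E]

theorem int_flow (s t : E → V) (h : NZ5 s t univ) :
    ∃ f : E → ℤ, (∀ e, 1 ≤ |f e| ∧ |f e| ≤ 4) ∧
      ∀ v, ∑ e ∈ univ.filter (fun e => s e = v), f e =
        ∑ e ∈ univ.filter (fun e => t e = v), f e := by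
  obtain ⟨φ, h1, h2⟩ := h
  obtain ⟨F, hF, hF0⟩ := Pool.Agent.TH497.PW.int_flow s t ⟨φ, fun e => h1 e (mem_univ e), by
    intro v
    rw [← h2 v, bd]
    refine Finset.sum_congr rfl fun e _ => ?_
    by_cases ha : s e = v <;> by_cases hb : t e = v <;>
      simp [Pool.Agent.TH497.PW.ic, ha, hb]⟩
  refine ⟨F, hF, fun v => ?_⟩
  have h3 := hF0 v
  simp only [mul_sub, mul_ite, mul_one, mul_zero, Finset.sum_sub_distrib] at h3
  rw [Finset.sum_filter, Finset.sum_filter]
  linarith

end Pool.Agent.TH362.FF
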