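import Pool.Agent.TH362.FF.Defs
import Mathlib.Algebra.BigOperators.Ring.Finset
import Mathlib.Algebra.BigOperators.Fin
import Mathlib.Data.Fin.VecNotation
import Mathlib.Tactic.FinCases
import Mathlib.Tactic.NormNum

/-!
Circuits of length three, four, five: combinations of the functions `chi g` that vanish at all
extendable vectors vanish.
-/

set_option autoImplicit false

namespace Pool.Agent.TH362.FF

open Finset Pool.Agent.TH362.TF

namespace Lin345

/-- circuits with at most four vertices: everything can be extended -/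
theorem ext_small {n : ℕ} (hn : n ≤ 4) (x : Fin n → ZMod 5) : Ext5 x := by
  by_contra hc
  have hs : Function.Surjective (fun k : Fin n => ∑ i ∈ univ.filter (fun i => i ≤ k), x i) := by
    intro z
    by_contra hz
    apply hc
    refine ⟨-z, fun k hk => hz ⟨k, ?_⟩⟩
    show ∑ i ∈ univ.filter (fun i => i ≤ k), x i = z
    exact (neg_add_eq_zero.mp hk).symm
  have := Fintype.card_le_of_surjective _ hs
  rw [ZMod.card, Fintype.card_fin] at this
  omega

/-- a block with one element -/
theorem chi_single (g : Fin 5 → Fin 5) (x : Fin 5 → ZMod 5) (hx : ∀ i, x i ≠ 0) (i : Fin 5)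
    (hi : ∀ k, k ≠ i → g k ≠ g i) : chi g x = 0 := by
  unfold chi
  rw [if_neg]
  intro h
  have h1 := h (g i)
  have h2 : univ.filter (fun k => g k = g i) = {i} := by
    ext k
    simp only [mem_filter, mem_univ, true_and, mem_singleton]
    constructor
    · intro hk
      by_contra hne
      exact hi k hne hk
    · rintro rfl; rfl
  rw [h2, sum_singleton] at h1
  exact hx i h1

/-- one block -/
theorem chi_const (g : Fin 5 → Fin 5) (x : Fin 5 → ZMod 5) (hs : ∑ i, x i = 0)
    (hg : ∀ i, g i = g 0) : chi g x = 1 := by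
  unfold chi
  rw [if_pos]
  intro j
  by_cases hj : g 0 = j
  · have h2 : univ.filter (fun k => g k = j) = univ := by
      ext k
      simp [hg k, hj]
    rw [h2, hs]
  · have h2 : univ.filter (fun k => g k = j) = ∅ := by
      ext k
      simp [hg k, hj]
    rw [h2, sum_empty]

/-- a block with two elements and a block with three elements -/
theorem chi_pair (g : Fin 5 → Fin 5) (x : Fin 5 → ZMod 5) (hs : ∑ i, x i = 0) (u v : Fin 5)
    (huv : u ≠ v) (h1 : g u = g v) (h2 : ∀ k, k ≠ u → k ≠ v → g k ≠ g u)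
    (h3 : ∀ k l, k ≠ u → k ≠ v → l ≠ u → l ≠ v → g k = g l) :
    chi g x = if x u + x v = 0 then 1 else 0 := by
  have e1 : univ.filter (fun k => g k = g u) = {u, v} := by
    ext k
    simp only [mem_filter, mem_univ, true_and, mem_insert, mem_singleton]
    constructor
    · intro hk
      by_contra hne
      push Not at hne
      exact h2 k hne.1 hne.2 hk
    · rintro (rfl | rfl)
      · rfl
      · exact h1.symm
  have e2 : ∑ k ∈ univ.filter (fun k => g k = g u), x k = x u + x v := by
    rw [e1, sum_pair huv]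
  have e3 : ∑ k ∈ univ.filter (fun k => ¬ g k = g u), x k = -(x u + x v) := by
    have := sum_filter_add_sum_filter_not univ (fun k => g k = g u) x
    rw [e2, hs] at this
    exact (neg_eq_of_add_eq_zero_right this).symm
  unfold chi
  by_cases h : x u + x v = 0
  · rw [if_pos h, if_pos]
    intro j
    by_cases hj : j = g u
    · rw [hj, e2, h]
    · by_cases hex : ∃ k, g k = j
      · obtain ⟨k, hk⟩ := hex
        have hku : k ≠ u := by rintro rfl; exact hj hk.symm
        have hkv : k ≠ v := by rintro rfl; exact hj (hk.symm.trans h1.symm)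
        have e4 : univ.filter (fun l => g l = j) = univ.filter (fun l => ¬ g l = g u) := by
          ext l
          simp only [mem_filter, mem_univ, true_and]
          constructor
          · intro hl hl'
            exact hj (hl.symm.trans hl')
          · intro hl
            rw [← hk]
            apply h3 l k _ _ hku hkv
            · rintro rfl; exact hl rfl
            · rintro rfl; exact hl h1.symm
        rw [e4, e3, h, neg_zero]
      · have e4 : univ.filter (fun l => g l = j) = ∅ := by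
          ext l
          simp only [mem_filter, mem_univ, true_and, notMem_empty, iff_false]
          exact fun hl => hex ⟨l, hl⟩
        rw [e4, sum_empty]
  · rw [if_neg h, if_neg]
    intro hall
    exact h (e2.symm.trans (hall (g u)))

/-- the eleven functions -/
def ee (x : Fin 5 → ZMod 5) : Fin 11 → ℤ :=
  ![1, if x 0 + x 1 = 0 then 1 else 0, if x 0 + x 2 = 0 then 1 else 0,
    if x 0 + x 3 = 0 then 1 else 0, if x 0 + x 4 = 0 then 1 else 0,
    if x 1 + x 2 = 0 then 1 else 0, if x 1 + x 3 = 0 then 1 else 0,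
    if x 1 + x 4 = 0 then 1 else 0, if x 2 + x 3 = 0 then 1 else 0,
    if x 2 + x 4 = 0 then 1 else 0, if x 3 + x 4 = 0 then 1 else 0]

theorem cls0 (a b c d e : Fin 5) :
    ((b ≠ a ∧ c ≠ a ∧ d ≠ a ∧ e ≠ a) ∨ (a ≠ b ∧ c ≠ b ∧ d ≠ b ∧ e ≠ b) ∨
      (a ≠ c ∧ b ≠ c ∧ d ≠ c ∧ e ≠ c) ∨ (a ≠ d ∧ b ≠ d ∧ c ≠ d ∧ e ≠ d) ∨
      (a ≠ e ∧ b ≠ e ∧ c ≠ e ∧ d ≠ e)) ∨
    (b = a ∧ c = a ∧ d = a ∧ e = a) ∨
    (a = b ∧ c ≠ a ∧ c = d ∧ c = e) ∨ (a = c ∧ b ≠ a ∧ b = d ∧ b = e) ∨
    (a = d ∧ b ≠ a ∧ b = c ∧ b = e) ∨ (a = e ∧ b ≠ a ∧ b = c ∧ b = d) ∨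
    (b = c ∧ a ≠ b ∧ a = d ∧ a = e) ∨ (b = d ∧ a ≠ b ∧ a = c ∧ a = e) ∨
    (b = e ∧ a ≠ b ∧ a = c ∧ a = d) ∨ (c = d ∧ a ≠ c ∧ a = b ∧ a = e) ∨
    (c = e ∧ a ≠ c ∧ a = b ∧ a = d) ∨ (d = e ∧ a ≠ d ∧ a = b ∧ a = c) := by
  by_cases h1 : a = b <;> by_cases h2 : a = c <;> by_cases h3 : a = d <;> by_cases h4 : a = e <;>
    by_cases h5 : b = c <;> by_cases h6 : b = d <;> by_cases h7 : b = e <;>
    by_cases h8 : c = d <;> by_cases h9 : c = e <;> by_cases h10 : d = e <;> grind

theorem chi_pair' (g : Fin 5 → Fin 5) (x : Fin 5 → ZMod 5) (hs : ∑ i, x i = 0)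
    (u v p q r : Fin 5) (huv : u ≠ v) (hall : ∀ k, k = u ∨ k = v ∨ k = p ∨ k = q ∨ k = r)
    (h : g u = g v ∧ g p ≠ g u ∧ g p = g q ∧ g p = g r) :
    chi g x = if x u + x v = 0 then 1 else 0 := by
  obtain ⟨h1, h2, h3, h4⟩ := h
  have key : ∀ k, k ≠ u → k ≠ v → g k = g p := by
    intro k hu hv
    rcases hall k with rfl | rfl | rfl | rfl | rfl
    · exact absurd rfl hu
    · exact absurd rfl hv
    · rfl
    · exact h3.symm
    · exact h4.symm
  refine chi_pair g x hs u v huv h1 (fun k hu hv => ?_) (fun k l hu hv hu' hv' => ?_)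
  · rw [key k hu hv]; exact h2
  · rw [key k hu hv, key l hu' hv']

theorem chi_ee (g : Fin 5 → Fin 5) : ∃ a : Fin 11 → ℤ, ∀ x : Fin 5 → ZMod 5, Adm x →
    chi g x = ∑ k, a k * ee x k := by
  have hz : (∃ i, ∀ k, k ≠ i → g k ≠ g i) → ∃ a : Fin 11 → ℤ, ∀ x : Fin 5 → ZMod 5, Adm x →
      chi g x = ∑ k, a k * ee x k := by
    rintro ⟨i, hi⟩
    exact ⟨0, fun x hx => by rw [chi_single g x hx.1 i hi]; simp⟩
  have hq : ∀ (q : Fin 11), (∀ x : Fin 5 → ZMod 5, Adm x → chi g x = ee x q) →
      ∃ a : Fin 11 → ℤ, ∀ x : Fin 5 → ZMod 5, Adm x → chi g x = ∑ k, a k * ee x k := by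
    intro q h
    exact ⟨Pi.single q 1, fun x hx => by rw [h x hx]; simp [Pi.single_apply]⟩
  have hall : ∀ {P : Fin 5 → Prop}, P 0 → P 1 → P 2 → P 3 → P 4 → ∀ k, P k := by
    intro P h0 h1 h2 h3 h4 k
    fin_cases k
    exacts [h0, h1, h2, h3, h4]
  rcases cls0 (g 0) (g 1) (g 2) (g 3) (g 4) with (h | h | h | h | h) | h | h | h | h | h | h | h |
    h | h | h | h
  · exact hz ⟨0, hall (fun h' => absurd rfl h') (fun _ => h.1) (fun _ => h.2.1) (fun _ => h.2.2.1)
      (fun _ => h.2.2.2)⟩
  · exact hz ⟨1, hall (fun _ => h.1) (fun h' => absurd rfl h') (fun _ => h.2.1) (fun _ => h.2.2.1)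
      (fun _ => h.2.2.2)⟩
  · exact hz ⟨2, hall (fun _ => h.1) (fun _ => h.2.1) (fun h' => absurd rfl h') (fun _ => h.2.2.1)
      (fun _ => h.2.2.2)⟩
  · exact hz ⟨3, hall (fun _ => h.1) (fun _ => h.2.1) (fun _ => h.2.2.1) (fun h' => absurd rfl h')
      (fun _ => h.2.2.2)⟩
  · exact hz ⟨4, hall (fun _ => h.1) (fun _ => h.2.1) (fun _ => h.2.2.1) (fun _ => h.2.2.2)
      (fun h' => absurd rfl h')⟩
  · exact hq 0 fun x hx => chi_const g x hx.2 (hall rfl h.1 h.2.1 h.2.2.1 h.2.2.2)
  · exact hq 1 fun x hx => chi_pair' g x hx.2 0 1 2 3 4 (by decide) (by decide) h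
  · exact hq 2 fun x hx => chi_pair' g x hx.2 0 2 1 3 4 (by decide) (by decide) h
  · exact hq 3 fun x hx => chi_pair' g x hx.2 0 3 1 2 4 (by decide) (by decide) h
  · exact hq 4 fun x hx => chi_pair' g x hx.2 0 4 1 2 3 (by decide) (by decide) h
  · exact hq 5 fun x hx => chi_pair' g x hx.2 1 2 0 3 4 (by decide) (by decide) h
  · exact hq 6 fun x hx => chi_pair' g x hx.2 1 3 0 2 4 (by decide) (by decide) h
  · exact hq 7 fun x hx => chi_pair' g x hx.2 1 4 0 2 3 (by decide) (by decide) h
  · exact hq 8 fun x hx => chi_pair' g x hx.2 2 3 0 1 4 (by decide) (by decide) h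
  · exact hq 9 fun x hx => chi_pair' g x hx.2 2 4 0 1 3 (by decide) (by decide) h
  · exact hq 10 fun x hx => chi_pair' g x hx.2 3 4 0 1 2 (by decide) (by decide) h

theorem ev (C : Fin 11 → ℤ) (x : Fin 5 → ZMod 5) : ∑ k, C k * ee x k =
    C 0 + (if x 0 + x 1 = 0 then C 1 else 0) + (if x 0 + x 2 = 0 then C 2 else 0) +
    (if x 0 + x 3 = 0 then C 3 else 0) + (if x 0 + x 4 = 0 then C 4 else 0) +
    (if x 1 + x 2 = 0 then C 5 else 0) + (if x 1 + x 3 = 0 then C 6 else 0) +
    (if x 1 + x 4 = 0 then C 7 else 0) + (if x 2 + x 3 = 0 then C 8 else 0) +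
    (if x 2 + x 4 = 0 then C 9 else 0) + (if x 3 + x 4 = 0 then C 10 else 0) := by
  have h0 : ee x 0 = 1 := rfl
  have h1 : ee x 1 = if x 0 + x 1 = 0 then 1 else 0 := rfl
  have h2 : ee x 2 = if x 0 + x 2 = 0 then 1 else 0 := rfl
  have h3 : ee x 3 = if x 0 + x 3 = 0 then 1 else 0 := rfl
  have h4 : ee x 4 = if x 0 + x 4 = 0 then 1 else 0 := rfl
  have h5 : ee x 5 = if x 1 + x 2 = 0 then 1 else 0 := rfl
  have h6 : ee x 6 = if x 1 + x 3 = 0 then 1 else 0 := rfl
  have h7 : ee x 7 = if x 1 + x 4 = 0 then 1 else 0 := rfl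
  have h8 : ee x 8 = if x 2 + x 3 = 0 then 1 else 0 := rfl
  have h9 : ee x 9 = if x 2 + x 4 = 0 then 1 else 0 := rfl
  have h10 : ee x 10 = if x 3 + x 4 = 0 then 1 else 0 := rfl
  have hsum : ∑ k, C k * ee x k = C 0 * ee x 0 + C 1 * ee x 1 + C 2 * ee x 2 + C 3 * ee x 3 +
      C 4 * ee x 4 + C 5 * ee x 5 + C 6 * ee x 6 + C 7 * ee x 7 + C 8 * ee x 8 + C 9 * ee x 9 +
      C 10 * ee x 10 := by
    rw [Fin.sum_univ_castSucc, Fin.sum_univ_castSucc, Fin.sum_univ_castSucc, Fin.sum_univ_eight]
    rfl
  rw [hsum, h0, h1, h2, h3, h4, h5, h6, h7, h8, h9, h10]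
  simp only [mul_ite, mul_one, mul_zero]

instance (x : Fin 5 → ZMod 5) : Decidable (Adm x) := by unfold Adm; infer_instance
instance (x : Fin 5 → ZMod 5) : Decidable (Ext5 x) := by unfold Ext5; infer_instance

theorem coef_zero (C : Fin 11 → ℤ)
    (h : ∀ x : Fin 5 → ZMod 5, Adm x → Ext5 x → ∑ k, C k * ee x k = 0) : ∀ k, C k = 0 := by
  have i0 := h ![1, 1, 2, 2, 4] (by decide) (by decide)
  rw [ev, if_neg (by decide), if_neg (by decide), if_neg (by decide), if_pos (by decide), if_neg (by decide), if_neg (by decide), if_pos (by decide), if_neg (by decide), if_neg (by decide), if_neg (by decide)] at i0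
  have i1 := h ![1, 1, 2, 3, 3] (by decide) (by decide)
  rw [ev, if_neg (by decide), if_neg (by decide), if_neg (by decide), if_neg (by decide), if_neg (by decide), if_neg (by decide), if_neg (by decide), if_pos (by decide), if_pos (by decide), if_neg (by decide)] at i1
  have i2 := h ![1, 1, 3, 2, 3] (by decide) (by decide)
  rw [ev, if_neg (by decide), if_neg (by decide), if_neg (by decide), if_neg (by decide), if_neg (by decide), if_neg (by decide), if_neg (by decide), if_pos (by decide), if_neg (by decide), if_pos (by decide)] at i2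
  have i3 := h ![1, 1, 3, 3, 2] (by decide) (by decide)
  rw [ev, if_neg (by decide), if_neg (by decide), if_neg (by decide), if_neg (by decide), if_neg (by decide), if_neg (by decide), if_neg (by decide), if_neg (by decide), if_pos (by decide), if_pos (by decide)] at i3
  have i4 := h ![1, 1, 4, 2, 2] (by decide) (by decide)
  rw [ev, if_neg (by decide), if_pos (by decide), if_neg (by decide), if_neg (by decide), if_pos (by decide), if_neg (by decide), if_neg (by decide), if_neg (by decide), if_neg (by decide), if_neg (by decide)] at i4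
  have i5 := h ![1, 2, 1, 2, 4] (by decide) (by decide)
  rw [ev, if_neg (by decide), if_neg (by decide), if_neg (by decide), if_pos (by decide), if_neg (by decide), if_neg (by decide), if_neg (by decide), if_neg (by decide), if_pos (by decide), if_neg (by decide)] at i5
  have i6 := h ![1, 2, 1, 4, 2] (by decide) (by decide)
  rw [ev, if_neg (by decide), if_neg (by decide), if_pos (by decide), if_neg (by decide), if_neg (by decide), if_neg (by decide), if_neg (by decide), if_pos (by decide), if_neg (by decide), if_neg (by decide)] at i6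
  have i7 := h ![1, 2, 3, 1, 3] (by decide) (by decide)
  rw [ev, if_neg (by decide), if_neg (by decide), if_neg (by decide), if_neg (by decide), if_pos (by decide), if_neg (by decide), if_pos (by decide), if_neg (by decide), if_neg (by decide), if_neg (by decide)] at i7
  have i8 := h ![1, 2, 3, 3, 1] (by decide) (by decide)
  rw [ev, if_neg (by decide), if_neg (by decide), if_neg (by decide), if_neg (by decide), if_pos (by decide), if_pos (by decide), if_neg (by decide), if_neg (by decide), if_neg (by decide), if_neg (by decide)] at i8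
  have i9 := h ![1, 4, 1, 2, 2] (by decide) (by decide)
  rw [ev, if_pos (by decide), if_neg (by decide), if_neg (by decide), if_neg (by decide), if_pos (by decide), if_neg (by decide), if_neg (by decide), if_neg (by decide), if_neg (by decide), if_neg (by decide)] at i9
  have i10 := h ![1, 1, 1, 3, 4] (by decide) (by decide)
  rw [ev, if_neg (by decide), if_neg (by decide), if_neg (by decide), if_pos (by decide), if_neg (by decide), if_neg (by decide), if_pos (by decide), if_neg (by decide), if_pos (by decide), if_neg (by decide)] at i10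
  have j0 : C 0 = 0 := by omega
  intro k
  fin_cases k
  · exact j0
  · show C 1 = 0
    omega
  · show C 2 = 0
    omega
  · show C 3 = 0
    omega
  · show C 4 = 0
    omega
  · show C 5 = 0
    omega
  · show C 6 = 0
    omega
  · show C 7 = 0
    omega
  · show C 8 = 0
    omega
  · show C 9 = 0
    omega
  · show C 10 = 0
    omega

end Lin345

theorem lin3 : Lin 3 := fun _ h x hx => h x hx (Lin345.ext_small (by norm_num) x)

theorem lin4 : Lin 4 := fun _ h x hx => h x hx (Lin345.ext_small (by norm_num) x)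

theorem lin5 : Lin 5 := by
  intro c h
  choose a ha using Lin345.chi_ee
  have e : ∀ x : Fin 5 → ZMod 5, Adm x →
      ∑ g, c g * chi g x = ∑ k, (∑ g, c g * a g k) * Lin345.ee x k := by
    intro x hx
    have h1 : ∀ g, c g * chi g x = ∑ k, c g * a g k * Lin345.ee x k := by
      intro g
      rw [ha g x hx, Finset.mul_sum]
      exact Finset.sum_congr rfl fun k _ => (mul_assoc _ _ _).symm
    rw [Finset.sum_congr rfl fun g _ => h1 g, Finset.sum_comm]
    exact Finset.sum_congr rfl fun k _ => (Finset.sum_mul _ _ _).symm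
  have hC := Lin345.coef_zero (fun k => ∑ g, c g * a g k) fun x hx hx' => by
    rw [← e x hx]
    exact h x hx hx'
  intro x hx
  rw [e x hx]
  exact Finset.sum_eq_zero fun k _ => by rw [hC k, zero_mul]

end Pool.Agent.TH362.FF
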