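import Pool.Agent.TH362.FF.Ck2
import Mathlib.Algebra.BigOperators.Fin
import Mathlib.Data.ZMod.Basic

/-!
Soundness of the test that all vectors are extendable or images of known vectors.
-/

set_option autoImplicit false

namespace Pool.Agent.TH362.FF.Ck

open Finset

namespace Ck4

theorem eqL_eq : ∀ a b : List ℕ, eqL a b = true → a = b
  | [], [], _ => rfl
  | a :: l, b :: l', h => by
    simp only [eqL] at h
    cases hb : Nat.beq a b with
    | false => simp [hb] at h
    | true =>
      rw [hb] at h
      simp only [cond_true] at h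
      rw [Nat.eq_of_beq_eq_true hb, eqL_eq l l' h]
  | [], _ :: _, h => by simp [eqL] at h
  | _ :: _, [], h => by simp [eqL] at h

theorem mem_of (l : List ℕ) : ∀ known : List (List ℕ), mem l known = true → l ∈ known
  | [], h => by simp [mem] at h
  | a :: as, h => by
    simp only [mem] at h
    cases hb : eqL l a with
    | true => rw [eqL_eq l a hb]; exact List.mem_cons_self
    | false =>
      rw [hb] at h
      simp only [cond_false] at h
      exact List.mem_cons_of_mem _ (mem_of l as h)

theorem suml_eq (l : List ℕ) : suml l = l.sum := by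
  induction l with
  | nil => rfl
  | cons d l ih => rw [suml, ih, List.sum_cons]

theorem nz_of (l : List ℕ) (h : ∀ d ∈ l, 1 ≤ d ∧ d ≤ 4) : nz l = true := by
  induction l with
  | nil => rfl
  | cons d l ih =>
    have h1 := h d List.mem_cons_self
    have h2 : Nat.ble 1 d = true := by rw [Nat.ble_eq]; exact h1.1
    have h3 : Nat.ble d 4 = true := by rw [Nat.ble_eq]; exact h1.2
    rw [nz, h2, h3]
    exact ih fun e he => h e (List.mem_cons_of_mem _ he)

theorem adm_of {n : ℕ} {l : List ℕ} (h : ∀ d ∈ l, 1 ≤ d ∧ d ≤ 4) (hl : l.length = n)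
    (hs : l.sum % 5 = 0) : adm n l = true := by
  have h2 : Nat.beq l.length n = true := by rw [Nat.beq_eq]; exact hl
  have h3 : Nat.beq (suml l % 5) 0 = true := by rw [Nat.beq_eq, suml_eq]; exact hs
  rw [adm, nz_of l h, h2, h3]
  rfl

theorem srch_sound {n : ℕ} (known : List (List ℕ)) (hk : ∀ l ∈ known, Sp (vec n l)) (k : ℕ) :
    ∀ l : List ℕ, l.length = n → srch known k l = true → Sp (vec n l) := by
  induction k with
  | zero => intro l _ h; simp [srch] at h
  | succ k ih =>
    intro l hl h
    have hr : l.reverse.length = n := by rw [List.length_reverse, hl]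
    by_cases h1 : mem l known = true
    · exact hk _ (mem_of _ _ h1)
    by_cases h2 : mem (scl 2 l) known = true
    · exact sp_scl 2 (by norm_num) (by norm_num) (hk _ (mem_of _ _ h2))
    by_cases h3 : mem (scl 3 l) known = true
    · exact sp_scl 3 (by norm_num) (by norm_num) (hk _ (mem_of _ _ h3))
    by_cases h4 : mem (scl 4 l) known = true
    · exact sp_scl 4 (by norm_num) (by norm_num) (hk _ (mem_of _ _ h4))
    by_cases h5 : mem l.reverse known = true
    · exact sp_reverse hl (hk _ (mem_of _ _ h5))
    by_cases h6 : mem (scl 2 l.reverse) known = true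
    · exact sp_reverse hl (sp_scl 2 (by norm_num) (by norm_num) (hk _ (mem_of _ _ h6)))
    by_cases h7 : mem (scl 3 l.reverse) known = true
    · exact sp_reverse hl (sp_scl 3 (by norm_num) (by norm_num) (hk _ (mem_of _ _ h7)))
    by_cases h8 : mem (scl 4 l.reverse) known = true
    · exact sp_reverse hl (sp_scl 4 (by norm_num) (by norm_num) (hk _ (mem_of _ _ h8)))
    rw [Bool.not_eq_true] at h1 h2 h3 h4 h5 h6 h7 h8
    rw [srch, h1, h2, h3, h4, h5, h6, h7, h8] at h
    have h' : srch known k (rot1 l) = true := h
    have hl' : (rot1 l).length = n := by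
      cases l with
      | nil => exact hl
      | cons d l => rw [rot1, List.length_append, List.length_singleton]; exact hl
    exact sp_rotk hl 1 (ih (rot1 l) hl' h')

theorem cov_all {n : ℕ} (known : List (List ℕ)) (m : ℕ) : ∀ (l : List ℕ) (s : ℕ),
    cov n known m l s = true → ∀ pre : List ℕ, pre.length = m →
    (∀ d ∈ pre, 1 ≤ d ∧ d ≤ 4) → (s + pre.sum) % 5 = 0 →
    ext (pre ++ l) = true ∨ srch known n (pre ++ l) = true := by
  induction m with
  | zero =>
    intro l s h pre hp _ hs
    rw [List.length_eq_zero_iff] at hp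
    subst hp
    rw [List.sum_nil, Nat.add_zero] at hs
    have h1 : Nat.beq (s % 5) 0 = true := by rw [Nat.beq_eq]; exact hs
    rw [cov, h1, cond_true] at h
    cases he : ext l with
    | true => exact Or.inl he
    | false =>
      rw [he, cond_false] at h
      exact Or.inr h
  | succ m ih =>
    intro l s h pre hp hd hs
    obtain ⟨pre', d, rfl⟩ : ∃ pre' d, pre = pre' ++ [d] := by
      rcases List.eq_nil_or_concat pre with h0 | ⟨L, b, h0⟩
      · rw [h0] at hp
        simp at hp
      · exact ⟨L, b, by rw [h0, List.concat_eq_append]⟩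
    have hp' : pre'.length = m := by
      rw [List.length_append, List.length_singleton] at hp
      omega
    have hd' : ∀ e ∈ pre', 1 ≤ e ∧ e ≤ 4 := fun e he => hd e (List.mem_append_left _ he)
    have hdd := hd d (List.mem_append_right _ (List.mem_singleton_self d))
    have hs' : (s + d + pre'.sum) % 5 = 0 := by
      rw [List.sum_append, List.sum_singleton] at hs
      rw [← hs]
      congr 1
      omega
    have key : cov n known m (d :: l) (s + d) = true := by
      rw [cov] at h
      cases h1 : cov n known m (1 :: l) (s + 1) with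
      | false => rw [h1, cond_false] at h; exact absurd h (by decide)
      | true =>
        rw [h1, cond_true] at h
        cases h2 : cov n known m (2 :: l) (s + 2) with
        | false => rw [h2, cond_false] at h; exact absurd h (by decide)
        | true =>
          rw [h2, cond_true] at h
          cases h3 : cov n known m (3 :: l) (s + 3) with
          | false => rw [h3, cond_false] at h; exact absurd h (by decide)
          | true =>
            rw [h3, cond_true] at h
            obtain ⟨a1, a2⟩ := hdd
            interval_cases d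
            · exact h1
            · exact h2
            · exact h3
            · exact h
    have := ih (d :: l) (s + d) key pre' hp' hd' hs'
    rwa [List.append_assoc, List.singleton_append]

theorem scl_eq (c : ℕ) (l : List ℕ) : scl c l = l.map (fun d => d * c % 5) := by
  induction l with
  | nil => rfl
  | cons d l ih => rw [scl, ih, List.map_cons]

theorem sum_map_mod (c : ℕ) (l : List ℕ) :
    (l.map (fun d => d * c % 5)).sum % 5 = (l.sum * c) % 5 := by
  induction l with
  | nil => simp
  | cons d l ih =>
    rw [List.map_cons, List.sum_cons, List.sum_cons, Nat.add_mod, ih, Nat.mod_mod, add_mul,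
      ← Nat.add_mod]

theorem exists_inv {d : ℕ} (h1 : 1 ≤ d) (h4 : d ≤ 4) :
    ∃ c, 1 ≤ c ∧ c ≤ 4 ∧ d * c % 5 = 1 := by
  interval_cases d
  · exact ⟨1, by decide⟩
  · exact ⟨3, by decide⟩
  · exact ⟨2, by decide⟩
  · exact ⟨4, by decide⟩

theorem mul_mod_mem {d c : ℕ} (h1 : 1 ≤ d) (h4 : d ≤ 4) (g1 : 1 ≤ c) (g4 : c ≤ 4) :
    1 ≤ d * c % 5 ∧ d * c % 5 ≤ 4 := by
  interval_cases d <;> interval_cases c <;> decide

end Ck4

open Ck4

theorem cov_sound (n : ℕ) (hn : 1 ≤ n) (known : List (List ℕ))
    (hk : ∀ l ∈ known, Sp (vec n l)) (h : cov n known (n - 1) [1] 1 = true) : Lin n := by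
  -- all lists ending with 1
  have key : ∀ pre : List ℕ, pre.length = n - 1 → (∀ d ∈ pre, 1 ≤ d ∧ d ≤ 4) →
      (1 + pre.sum) % 5 = 0 → Sp (vec n (pre ++ [1])) := by
    intro pre hp hd hs
    have hlen : (pre ++ [1]).length = n := by
      rw [List.length_append, List.length_singleton, hp]
      omega
    rcases cov_all known (n - 1) [1] 1 h pre hp hd hs with h1 | h1
    · refine sp_ext (adm_of ?_ hlen ?_) h1
      · intro d hd'
        rw [List.mem_append, List.mem_singleton] at hd'
        rcases hd' with hd' | rfl
        · exact hd d hd'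
        · decide
      · rw [List.sum_append, List.sum_singleton, Nat.add_comm]
        exact hs
    · exact srch_sound known hk n (pre ++ [1]) hlen h1
  intro c hc x hx
  suffices hsp : Sp x from hsp c hc
  obtain ⟨l, hl⟩ : ∃ l : List ℕ, l = List.ofFn (fun i => (x i).val) := ⟨_, rfl⟩
  have hlen : l.length = n := by rw [hl, List.length_ofFn]
  have hvec : vec n l = x := by
    funext i
    unfold vec
    have hi : i.val < l.length := by rw [hlen]; exact i.2
    have e1 : l.getD i.val 0 = (x i).val := by
      simp [List.getD, hl]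
    rw [e1]
    exact ZMod.natCast_zmod_val (x i)
  have hent : ∀ d ∈ l, 1 ≤ d ∧ d ≤ 4 := by
    intro d hd
    rw [hl, List.mem_ofFn] at hd
    obtain ⟨i, rfl⟩ := hd
    have h1 : (x i).val < 5 := ZMod.val_lt (x i)
    have h2 : (x i).val ≠ 0 := fun h0 => hx.1 i ((ZMod.val_eq_zero (x i)).1 h0)
    omega
  have hsum : l.sum % 5 = 0 := by
    have h1 : ((l.sum : ℕ) : ZMod 5) = 0 := by
      rw [hl, List.sum_ofFn, Nat.cast_sum]
      rw [← hx.2]
      exact Finset.sum_congr rfl fun i _ => ZMod.natCast_zmod_val (x i)
    exact Nat.mod_eq_zero_of_dvd ((ZMod.natCast_eq_zero_iff _ _).1 h1)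
  obtain ⟨L, d, hLd⟩ : ∃ L d, l = L ++ [d] := by
    rcases List.eq_nil_or_concat l with h0 | ⟨L, b, h0⟩
    · rw [h0] at hlen
      simp only [List.length_nil] at hlen
      omega
    · exact ⟨L, b, by rw [h0, List.concat_eq_append]⟩
  have hd := hent d (by rw [hLd]; exact List.mem_append_right _ (List.mem_singleton_self d))
  obtain ⟨c', c1, c4, hdc⟩ := exists_inv hd.1 hd.2
  have hscl : scl c' l = L.map (fun d => d * c' % 5) ++ [1] := by
    rw [scl_eq, hLd, List.map_append, List.map_singleton, hdc]
  rw [← hvec]
  refine sp_scl c' c1 c4 ?_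
  rw [hscl]
  refine key _ ?_ ?_ ?_
  · rw [List.length_map]
    rw [hLd, List.length_append, List.length_singleton] at hlen
    omega
  · intro e he
    rw [List.mem_map] at he
    obtain ⟨f, hf, rfl⟩ := he
    have := hent f (by rw [hLd]; exact List.mem_append_left _ hf)
    exact mul_mod_mem this.1 this.2 c1 c4
  · have h1 := sum_map_mod c' l
    rw [hLd, List.map_append, List.map_singleton, hdc, List.sum_append, List.sum_singleton,
      ← hLd, Nat.mul_mod, hsum] at h1
    rw [Nat.add_comm, h1]
    simp

end Pool.Agent.TH362.FF.Ck
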