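import Pool.Agent.TH362.FF.Ck

/-! Certificates for circuits of length 6. -/

set_option autoImplicit false

namespace Pool.Agent.TH362.FF.Ck

/-- Positive terms for the vector 111133. -/
def p6_0 : List (ℕ × ℕ × ℕ) :=
  [(1,222121,0), (1,243231,0), (1,214341,0)]

/-- Negative terms for the vector 111133. -/
def n6_0 : List (ℕ × ℕ × ℕ) :=
  [(1,342321,0), (1,314241,0)]

/-- Positive terms for the vector 112434. -/
def p6_1 : List (ℕ × ℕ × ℕ) :=
  [(1,331111,100), (1,133111,105), (2,424311,0)]

/-- Negative terms for the vector 112434. -/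
def n6_1 : List (ℕ × ℕ × ℕ) :=
  [(1,311311,0), (1,113311,104)]

/-- Positive terms for the vector 111124. -/
def p6_2 : List (ℕ × ℕ × ℕ) :=
  [(3,331111,100), (3,411211,0), (2,312211,0), (1,443211,0), (2,311221,0), (1,332421,204),
  (2,433131,0), (1,441231,0)]

/-- Negative terms for the vector 111124. -/
def n6_2 : List (ℕ × ℕ × ℕ) :=
  [(1,232111,0), (1,313111,0), (2,311311,0), (1,441411,0), (1,231121,0), (1,122221,301),
  (1,311131,0), (1,143331,0)]

/-- Positive terms for the vector 112132. -/
def p6_3 : List (ℕ × ℕ × ℕ) :=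
  [(1,331111,100), (6,322111,0), (7,142111,105), (2,132211,0), (1,131311,0), (6,122311,0),
  (3,334311,0), (3,141121,0), (2,222121,0), (3,122221,301), (4,311131,0), (3,111331,103),
  (2,413331,0), (3,323331,0)]

/-- Negative terms for the vector 112132. -/
def n6_3 : List (ℕ × ℕ × ℕ) :=
  [(7,311311,0), (8,343311,0), (2,132121,0), (3,114121,0), (2,442221,0), (3,332331,0)]

/-- Positive terms for the vector 121213. -/
def p6_4 : List (ℕ × ℕ × ℕ) :=
  [(1,421111,100), (2,223111,0), (1,411211,0), (2,213211,114), (2,221131,0), (2,211231,103),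
  (1,233331,211), (2,134331,0), (2,414141,0), (2,133341,0)]

/-- Negative terms for the vector 121213. -/
def n6_4 : List (ℕ × ℕ × ℕ) :=
  [(1,114121,0), (1,234321,0), (1,113131,0), (1,424131,0), (1,414231,0), (1,112141,0), (1,423141,0),
  (1,413241,0), (1,232341,0)]

/-- Positive terms for the vector 112443. -/
def p6_5 : List (ℕ × ℕ × ℕ) :=
  [(1,124111,113), (2,444111,0), (2,343311,0), (2,334311,0), (2,144411,0), (2,443121,410),
  (2,434121,0), (2,333321,202), (1,243321,0), (2,234321,0), (1,142431,0), (1,444431,410),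
  (2,233241,0)]

/-- Negative terms for the vector 112443. -/
def n6_5 : List (ℕ × ℕ × ℕ) :=
  [(1,121411,0), (1,234411,0), (1,411121,0), (2,433221,0), (2,342321,0), (1,324321,0), (1,144321,0),
  (2,433131,0), (1,234231,0), (2,411441,0)]

theorem chain6_0_6 : chain 6 []
    [(331111, 1, p6_0, n6_0), (434211, 2, p6_1, n6_1), (421111, 6, p6_2, n6_2), (231211, 21, p6_3, n6_3), (312121, 8, p6_4, n6_4), (344211, 8, p6_5, n6_5)] = true := by
  decide +kernel

end Pool.Agent.TH362.FF.Ck
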