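import Pool.Agent.TH362.FF.Ck

/-! The vectors of the certificates cover all classes. -/

set_option autoImplicit false

namespace Pool.Agent.TH362.FF.Ck

/-- Vectors for circuits of length six. -/
def k6 : List (List ℕ) :=
    [[1, 1, 2, 4, 4, 3], [1, 2, 1, 2, 1, 3], [1, 1, 2, 1, 3, 2], [1, 1, 1, 1, 2, 4], [1, 1, 2, 4, 3, 4],
    [1, 1, 1, 1, 3, 3]]

theorem cov6 : cov 6 k6 5 [1] 1 = true := by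
  decide +kernel

/-- Vectors for circuits of length seven. -/
def k7 : List (List ℕ) :=
    [[1, 1, 1, 2, 4, 3, 3], [1, 1, 2, 3, 1, 4, 3], [1, 1, 2, 1, 3, 3, 4], [1, 1, 2, 4, 1, 2, 4], [1, 2,
    1, 3, 1, 4, 3], [1, 1, 2, 3, 1, 3, 4], [1, 1, 2, 2, 4, 3, 2], [1, 1, 1, 2, 4, 4, 2], [1, 1, 1, 1, 3,
    4, 4], [1, 1, 2, 1, 4, 4, 2], [1, 1, 2, 4, 2, 1, 4], [1, 1, 2, 1, 3, 4, 3], [1, 1, 2, 4, 3, 1, 3],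
    [1, 1, 1, 3, 3, 2, 4], [1, 1, 1, 1, 4, 3, 4], [1, 1, 2, 4, 1, 4, 2], [1, 1, 1, 2, 4, 2, 4], [1, 1,
    1, 1, 2, 2, 2], [1, 1, 2, 2, 3, 4, 2], [1, 1, 2, 1, 1, 2, 2], [1, 2, 1, 2, 4, 2, 3], [1, 1, 1, 4, 2,
    2, 4], [1, 1, 1, 1, 2, 1, 3], [1, 1, 2, 3, 2, 4, 2], [1, 1, 1, 1, 1, 2, 3], [1, 1, 4, 2, 1, 2, 4],
    [1, 1, 4, 3, 4, 3, 4], [1, 1, 1, 1, 1, 1, 4], [1, 1, 2, 1, 2, 1, 2]]

theorem cov7 : cov 7 k7 6 [1] 1 = true := by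
  decide +kernel

end Pool.Agent.TH362.FF.Ck
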