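import Pool.Agent.TH362.FF.Ck3
import Pool.Agent.TH362.FF.Ck4
import Pool.Agent.TH362.FF.D6
import Pool.Agent.TH362.FF.D7a
import Pool.Agent.TH362.FF.D7b
import Pool.Agent.TH362.FF.D7c
import Pool.Agent.TH362.FF.D7d
import Pool.Agent.TH362.FF.DC

/-!
Circuits of length six and seven.
-/

set_option autoImplicit false

namespace Pool.Agent.TH362.FF

open Ck

theorem lin6 : Lin 6 := by
  have h := chain_sound 6 [] (by simp) _ chain6_0_6
  simp only [List.forall_mem_cons, List.not_mem_nil, IsEmpty.forall_iff, implies_true,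
    and_true] at h
  refine cov_sound 6 (by norm_num) k6 ?_ cov6
  simp only [k6, List.forall_mem_cons, List.not_mem_nil, IsEmpty.forall_iff, implies_true,
    and_true]
  obtain ⟨h0, h1, h2, h3, h4, h5⟩ := h
  exact ⟨h5, h4, h3, h2, h1, h0⟩

theorem lin7 : Lin 7 := by
  have h := chain_sound 7 [] (by simp) _ chain7_0_6
  simp only [List.forall_mem_cons, List.not_mem_nil, IsEmpty.forall_iff, implies_true,
    and_true] at h
  obtain ⟨h0, h1, h2, h3, h4, h5⟩ := h
  have h := chain_sound 7 _ (by
    simp only [List.forall_mem_cons, List.not_mem_nil, IsEmpty.forall_iff, implies_true,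
      and_true]
    exact ⟨h5, h4, h3, h2, h1, h0⟩) _ chain7_6_17
  simp only [List.forall_mem_cons, List.not_mem_nil, IsEmpty.forall_iff, implies_true,
    and_true] at h
  obtain ⟨h6, h7, h8, h9, h10, h11, h12, h13, h14, h15, h16⟩ := h
  have h := chain_sound 7 _ (by
    simp only [List.forall_mem_cons, List.not_mem_nil, IsEmpty.forall_iff, implies_true,
      and_true]
    exact ⟨h16, h15, h14, h13, h12, h11, h10, h9, h8, h7, h6, h5, h4, h3, h2, h1, h0⟩) _ chain7_17_24
  simp only [List.forall_mem_cons, List.not_mem_nil, IsEmpty.forall_iff, implies_true,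
    and_true] at h
  obtain ⟨h17, h18, h19, h20, h21, h22, h23⟩ := h
  have h := chain_sound 7 _ (by
    simp only [List.forall_mem_cons, List.not_mem_nil, IsEmpty.forall_iff, implies_true,
      and_true]
    exact ⟨h23, h22, h21, h20, h19, h18, h17, h16, h15, h14, h13, h12, h11, h10, h9, h8, h7, h6, h5,
      h4, h3, h2, h1, h0⟩) _ chain7_24_29
  simp only [List.forall_mem_cons, List.not_mem_nil, IsEmpty.forall_iff, implies_true,
    and_true] at h
  obtain ⟨h24, h25, h26, h27, h28⟩ := h
  refine cov_sound 7 (by norm_num) k7 ?_ cov7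
  simp only [k7, List.forall_mem_cons, List.not_mem_nil, IsEmpty.forall_iff, implies_true,
    and_true]
  exact ⟨h28, h27, h26, h25, h24, h23, h22, h21, h20, h19, h18, h17, h16, h15, h14, h13, h12, h11,
    h10, h9, h8, h7, h6, h5, h4, h3, h2, h1, h0⟩

end Pool.Agent.TH362.FF
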