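import Pool.Agent.TH362.FF.Fam
import Pool.Agent.TH362.FF.Int
import Pool.Agent.TH362.FF.Lin345
import Pool.Agent.TH362.FF.Lin67

/-! Graphs without 32 disjoint vertex sets with three boundary edges. -/

set_option autoImplicit false

namespace Pool.Agent.TH362.FF

open Finset Pool.Agent.TH362.TF

variable {V E : Type} [Fintype V] [DecidableEq V] [Fintype E] [DecidableEq E]

theorem lin_le : ∀ n, 3 ≤ n → n ≤ 7 → Lin n := by
  intro n h3 h7
  interval_cases n
  · exact lin3
  · exact lin4
  · exact lin5
  · exact lin6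
  · exact lin7

/-- Bridgeless graphs without 32 pairwise disjoint vertex sets with pairwise different boundaries
of size three. -/
theorem nz32 (s t : E → V) (S : Finset E) (h1 : N1 s t S) (h3 : ¬ Fam s t S 32) : NZ5 s t S := by
  refine famN 7 34 31 lin_le ?_ ?_ s t S h1 h3
  · intro k h1 h2
    obtain ⟨m, hm⟩ := h2
    omega
  · intro a b h1 h2 h3
    obtain ⟨k, hk⟩ := h3
    omega

/-- The same statement with finite sets of vertices, and for integer flows. -/
theorem five32 (src dst : E → V)
    (hb : ∀ Y : Finset V, (univ.filter (fun e => ¬ (src e ∈ Y ↔ dst e ∈ Y))).card ≠ 1)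
    (hX : ∀ X : Fin 32 → Finset V, (∀ i j, i ≠ j → Disjoint (X i) (X j)) →
      (∀ i j, i ≠ j → univ.filter (fun e => ¬ (src e ∈ X i ↔ dst e ∈ X i)) ≠
        univ.filter (fun e => ¬ (src e ∈ X j ↔ dst e ∈ X j))) →
      ∃ i, (univ.filter (fun e => ¬ (src e ∈ X i ↔ dst e ∈ X i))).card ≠ 3) :
    ∃ f : E → ℤ, (∀ e, 1 ≤ |f e| ∧ |f e| ≤ 4) ∧
      ∀ v, ∑ e ∈ univ.filter (fun e => src e = v), f e =
        ∑ e ∈ univ.filter (fun e => dst e = v), f e := by
  have hc : ∀ x : V → Bool, cut src dst univ x =
      univ.filter (fun e => ¬ (src e ∈ univ.filter (fun v => x v = true) ↔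
        dst e ∈ univ.filter (fun v => x v = true))) := by
    intro x
    unfold cut
    refine Finset.filter_congr fun e _ => ?_
    simp only [Finset.mem_filter, Finset.mem_univ, true_and]
    cases x (src e) <;> cases x (dst e) <;> simp
  refine int_flow src dst (nz32 src dst univ (fun x => ?_) ?_)
  · rw [hc]
    exact hb _
  · rintro ⟨X, h1, h2, h3⟩
    obtain ⟨i, hi⟩ := hX (fun i => univ.filter (fun v => X i v = true))
      (fun i j hij => Finset.disjoint_left.2 fun v hv hv' =>
        h1 i j hij v ⟨(Finset.mem_filter.1 hv).2, (Finset.mem_filter.1 hv').2⟩)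
      (fun i j hij => by rw [← hc, ← hc]; exact h2 i j hij)
    apply hi
    rw [← hc]
    exact h3 i

end Pool.Agent.TH362.FF
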