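import Pool.Agent.TH362.FF.Net
import Mathlib.Algebra.BigOperators.Ring.Finset

/-!
Circuits through vertices of degree three do not occur in minimal counterexamples to the statement
on flows with values in the group of order five.
-/

set_option autoImplicit false

namespace Pool.Agent.TH362.FF

open Finset Pool.Agent.TH362.TF

namespace Circf

set_option linter.unusedSectionVars false

section
variable {V E : Type} [DecidableEq V] [DecidableEq E]

theorem sgn {s t : E → V} {p q : V} {e : E} (he : Ends s t p q e) :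
    ∃ σ : ZMod 5, σ * σ = 1 ∧ ∀ F : V → ZMod 5, (F (s e) - F (t e)) * σ = F p - F q := by
  rcases he with ⟨h1, h2⟩ | ⟨h1, h2⟩
  · exact ⟨1, one_mul 1, fun F => by rw [h1, h2, mul_one]⟩
  · exact ⟨-1, by rw [neg_mul_neg, one_mul], fun F => by rw [h1, h2]; ring⟩

/-- The indicator function of `w`. -/
def ind (w z : V) : ZMod 5 := if z = w then 1 else 0

theorem bd_eq (s t : E → V) (S : Finset E) (φ : E → ZMod 5) (w : V) :
    bd s t S φ w = ∑ e ∈ S, (ind w (s e) - ind w (t e)) * φ e := by
  unfold bd ind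
  refine Finset.sum_congr rfl fun e _ => ?_
  rw [sub_mul, ite_mul, ite_mul, one_mul, zero_mul]

theorem sum_single {n : ℕ} (S : Finset E) (a : E → ZMod 5) (c : Fin n → E) (hcS : ∀ k, c k ∈ S)
    (g : Fin n → ZMod 5) :
    ∑ e ∈ S, a e * ∑ k, (if c k = e then g k else 0) = ∑ k, a (c k) * g k := by
  simp only [Finset.mul_sum]
  rw [Finset.sum_comm]
  refine Finset.sum_congr rfl fun k _ => ?_
  rw [Finset.sum_eq_single (c k)]
  · rw [if_pos rfl]
  · intro e _ hne
    rw [if_neg (Ne.symm hne), mul_zero]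
  · intro hh
    exact absurd (hcS k) hh

theorem succ_ne {n : ℕ} [NeZero n] (hn : 3 ≤ n) (i : Fin n) : i + 1 ≠ i := by
  intro h
  have h1 : (1 : Fin n) = 0 := by
    have h2 : i + 1 = i + 0 := by rw [h, add_zero]
    exact add_left_cancel h2
  have h3 := congrArg Fin.val h1
  rw [Fin.val_one', Nat.mod_eq_of_lt (by omega)] at h3
  exact absurd h3 (by simp)

theorem inc {s t : E → V} {S : Finset E} {n : ℕ} [NeZero n] (hn : 3 ≤ n)
    {v : Fin n → V} {c d : Fin n → E} [Fintype V] [Fintype E] (hc : Circ s t S n v c d) (e : E)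
    (he : e ∈ S) (h1 : ∀ i, c i ≠ e) (h2 : ∀ i, d i ≠ e) (i : Fin n) : s e ≠ v i ∧ t e ≠ v i := by
  by_contra hcon
  have hone : ∀ e' : E, (s e' = v i ∨ t e' = v i) →
      1 ≤ ((if s e' = v i then 1 else 0) + (if t e' = v i then 1 else 0) : ℕ) := by
    intro e' h'
    rcases h' with h' | h'
    · rw [if_pos h']; omega
    · rw [if_pos h']; omega
  obtain ⟨j, hj⟩ : ∃ j : Fin n, j + 1 = i := ⟨i - 1, sub_add_cancel i 1⟩
  have hji : j ≠ i := by
    intro h
    rw [h] at hj
    exact succ_ne hn i hj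
  have hsub : ({c i, c j, d i, e} : Finset E) ⊆ S := by
    intro e' h'
    simp only [Finset.mem_insert, Finset.mem_singleton] at h'
    rcases h' with rfl | rfl | rfl | rfl
    exacts [hc.cS i, hc.cS j, hc.dS i, he]
  have hcard : ({c i, c j, d i, e} : Finset E).card = 4 := by
    rw [Finset.card_insert_of_notMem, Finset.card_insert_of_notMem, Finset.card_insert_of_notMem,
      Finset.card_singleton]
    · rw [Finset.mem_singleton]
      exact h2 i
    · simp only [Finset.mem_insert, Finset.mem_singleton, not_or]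
      exact ⟨hc.cd j i, h1 j⟩
    · simp only [Finset.mem_insert, Finset.mem_singleton, not_or]
      exact ⟨fun h => hji (hc.cinj h).symm, hc.cd i i, h1 i⟩
  have hle : ({c i, c j, d i, e} : Finset E).card ≤ deg s t S (v i) := by
    unfold deg
    refine le_trans ?_ (Finset.sum_le_sum_of_subset hsub)
    rw [Finset.card_eq_sum_ones]
    refine Finset.sum_le_sum fun e' h' => hone e' ?_
    simp only [Finset.mem_insert, Finset.mem_singleton] at h'
    rcases h' with rfl | rfl | rfl | rfl
    · rcases hc.ce i with ⟨a, _⟩ | ⟨_, a⟩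
      exacts [Or.inl a, Or.inr a]
    · have h3 := hc.ce j
      rw [hj] at h3
      rcases h3 with ⟨_, a⟩ | ⟨a, _⟩
      exacts [Or.inr a, Or.inl a]
    · obtain ⟨u, hu, _⟩ := hc.de i
      rcases hu with ⟨a, _⟩ | ⟨_, a⟩
      exacts [Or.inl a, Or.inr a]
    · by_contra h4
      rw [not_or] at h4
      exact hcon h4
  rw [hcard, hc.deg i] at hle
  omega

end

theorem filt (n : ℕ) [NeZero n] (y : Fin n → ZMod 5) (hy : ∑ i, y i = 0) (k : Fin n) :
    ∑ i ∈ univ.filter (fun i => i ≤ k + 1), y i =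
      ∑ i ∈ univ.filter (fun i => i ≤ k), y i + y (k + 1) := by
  obtain ⟨m, rfl⟩ : ∃ m, n = m + 1 := ⟨n - 1, by have := NeZero.ne n; omega⟩
  rcases eq_or_ne k (Fin.last m) with rfl | hk
  · rw [Fin.last_add_one]
    have h1 : univ.filter (fun i : Fin (m + 1) => i ≤ 0) = {0} := by
      ext i
      simp
    have h2 : univ.filter (fun i : Fin (m + 1) => i ≤ Fin.last m) = univ := by
      ext i
      simp [Fin.le_last]
    rw [h1, h2, hy, zero_add, Finset.sum_singleton]
  · have hlt : k < Fin.last m := lt_of_le_of_ne (Fin.le_last k) hk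
    have hval : (k + 1).val = k.val + 1 := Fin.val_add_one_of_lt hlt
    have h1 : univ.filter (fun i : Fin (m + 1) => i ≤ k + 1) =
        insert (k + 1) (univ.filter (fun i : Fin (m + 1) => i ≤ k)) := by
      ext i
      simp only [Finset.mem_filter, Finset.mem_univ, true_and, Finset.mem_insert]
      rw [Fin.le_def, Fin.le_def, Fin.ext_iff, hval]
      omega
    rw [h1, Finset.sum_insert, add_comm]
    simp only [Finset.mem_filter, Finset.mem_univ, true_and]
    rw [Fin.le_def, hval]
    omega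

end Circf

open Circf

variable {V E : Type} [Fintype V] [DecidableEq V] [Fintype E] [DecidableEq E]

theorem MinR.circ {s t : E → V} {S : Finset E} (h : MinR s t S) (n : ℕ) [NeZero n] (hn : 3 ≤ n)
    (lin : Lin n) (v : Fin n → V) (c d : Fin n → E) (hc : Circ s t S n v c d) : False := by
  choose u hu huv using hc.de
  choose σ hσ1 hσ2 using fun i => sgn (hu i)
  choose τ hτ1 hτ2 using fun i => sgn (hc.ce i)
  obtain ⟨f, hf⟩ : ∃ f : V → V, f = fun w => if w ∈ univ.image v then v 0 else w := ⟨_, rfl⟩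
  have hfv : ∀ i, f (v i) = v 0 := by
    intro i
    rw [hf]
    simp
  have hfo : ∀ w, (∀ i, v i ≠ w) → f w = w := by
    intro w hw
    rw [hf]
    simp [hw]
  obtain ⟨S', hS'⟩ : ∃ S' : Finset E, S' = S \ univ.image c := ⟨_, rfl⟩
  have hS'm : ∀ e, e ∈ S' ↔ e ∈ S ∧ ∀ i, c i ≠ e := by
    intro e
    rw [hS', Finset.mem_sdiff]
    simp
  have hdS' : ∀ i, d i ∈ S' := fun i => (hS'm _).2 ⟨hc.dS i, fun j => hc.cd j i⟩
  obtain ⟨φ, hφ0, hφ⟩ := h.ih f S' (fun e he => ((hS'm e).1 he).1) (by
    intro e he he'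
    rw [hS'm] at he'
    have h1 : ∃ i, c i = e := by
      by_contra h2
      exact he' ⟨he, fun i hi => h2 ⟨i, hi⟩⟩
    obtain ⟨k, rfl⟩ := h1
    rcases hc.ce k with ⟨a, b⟩ | ⟨a, b⟩ <;> rw [a, b, hfv, hfv]) (by
    apply Finset.card_lt_card
    refine ⟨fun e he => ((hS'm e).1 he).1, fun hh => ?_⟩
    exact ((hS'm _).1 (hh (hc.cS 0))).2 0 rfl)
  obtain ⟨SH, hSH⟩ : ∃ SH : Finset E, SH = S' \ univ.image d := ⟨_, rfl⟩
  have hSHm : ∀ e, e ∈ SH ↔ e ∈ S ∧ (∀ i, c i ≠ e) ∧ ∀ i, d i ≠ e := by
    intro e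
    rw [hSH, Finset.mem_sdiff, hS'm, and_assoc]
    simp
  have hinc : ∀ e ∈ SH, ∀ i, s e ≠ v i ∧ t e ≠ v i := fun e he =>
    inc hn hc e ((hSHm e).1 he).1 ((hSHm e).1 he).2.1 ((hSHm e).1 he).2.2
  have hsplit : ∀ g : E → ZMod 5, ∑ e ∈ S', g e = ∑ e ∈ SH, g e + ∑ i, g (d i) := by
    intro g
    have h1 : univ.image d ⊆ S' := by
      intro e he
      obtain ⟨i, -, rfl⟩ := Finset.mem_image.1 he
      exact hdS' i
    rw [← Finset.sum_sdiff h1, ← hSH, Finset.sum_image (fun i _ j _ hij => hc.dinj hij)]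
  -- the values leaving the circuit
  obtain ⟨x, hx⟩ : ∃ x : Fin n → ZMod 5, ∀ i, x i = σ i * φ (d i) := ⟨_, fun _ => rfl⟩
  have hquot : ∀ w, ∑ e ∈ SH, (ind w (f (s e)) - ind w (f (t e))) * φ e +
      ∑ i, (ind w (f (v i)) - ind w (f (u i))) * x i = 0 := by
    intro w
    have h1 := hφ w
    rw [bd_eq, hsplit] at h1
    rw [← h1]
    congr 1
    refine Finset.sum_congr rfl fun i _ => ?_
    have h2 := hσ2 i (fun z => ind w (f z))
    rw [← h2, hx, mul_assoc, ← mul_assoc (σ i) (σ i), hσ1, one_mul]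
  have hAdm : Adm x := by
    constructor
    · intro i hi
      apply hφ0 (d i) (hdS' i)
      have h1 : σ i * x i = φ (d i) := by rw [hx, ← mul_assoc, hσ1, one_mul]
      rw [← h1, hi, mul_zero]
    · have h1 := hquot (v 0)
      have h2 : ∑ e ∈ SH, (ind (v 0) (f (s e)) - ind (v 0) (f (t e))) * φ e = 0 := by
        refine Finset.sum_eq_zero fun e he => ?_
        have h3 := hinc e he
        rw [hfo (s e) (fun i => (h3 i).1.symm), hfo (t e) (fun i => (h3 i).2.symm)]
        unfold ind
        rw [if_neg (h3 0).1, if_neg (h3 0).2, sub_zero, zero_mul]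
      rw [h2, zero_add] at h1
      rw [← h1]
      refine Finset.sum_congr rfl fun i _ => ?_
      rw [hfv, hfo (u i) (fun j => (huv i j).symm)]
      unfold ind
      rw [if_pos rfl, if_neg (huv i 0), sub_zero, one_mul]
  obtain ⟨cc, hcc⟩ := net s t SH u
  have hfilt : ∀ (w : V) (y : Fin n → ZMod 5),
      ∑ i ∈ univ.filter (fun i => u i = w), y i = ∑ i, ind w (u i) * y i := by
    intro w y
    rw [Finset.sum_filter]
    refine Finset.sum_congr rfl fun i _ => ?_
    unfold ind
    rw [ite_mul, one_mul, zero_mul]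
  have hpos : cnt s t SH (fun w => ∑ i ∈ univ.filter (fun i => u i = w), x i) ≠ 0 := by
    unfold cnt
    apply Finset.card_ne_zero_of_mem (a := fun e => if e ∈ SH then φ e else 0)
    simp only [Finset.mem_filter, Finset.mem_univ, true_and]
    refine ⟨fun e he => ?_, fun e he => if_neg he, fun w => ?_⟩
    · rw [if_pos he]
      exact hφ0 e (by rw [hSH] at he; exact (Finset.mem_sdiff.1 he).1)
    · rw [hfilt, bd_eq]
      have h0 : ∑ e ∈ SH, (ind w (s e) - ind w (t e)) * (if e ∈ SH then φ e else 0) =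
          ∑ e ∈ SH, (ind w (s e) - ind w (t e)) * φ e :=
        Finset.sum_congr rfl fun e he => by rw [if_pos he]
      rw [h0]
      by_cases hw : ∃ i, v i = w
      · obtain ⟨i, rfl⟩ := hw
        rw [Finset.sum_eq_zero, Finset.sum_eq_zero]
        · intro j _
          unfold ind
          rw [if_neg (huv j i), zero_mul]
        · intro e he
          unfold ind
          rw [if_neg (hinc e he i).1, if_neg (hinc e he i).2, sub_zero, zero_mul]
      · have hw' : ∀ i, v i ≠ w := fun i hi => hw ⟨i, hi⟩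
        have h1 : ∀ z, ind w (f z) = ind w z := by
          intro z
          by_cases hz : ∃ i, v i = z
          · obtain ⟨i, rfl⟩ := hz
            unfold ind
            rw [hfv, if_neg (hw' 0), if_neg (hw' i)]
          · rw [hfo z fun i hi => hz ⟨i, hi⟩]
        have h2 := hquot w
        simp only [h1] at h2
        have h3 : ∑ i, (ind w (v i) - ind w (u i)) * x i = - ∑ i, ind w (u i) * x i := by
          rw [← Finset.sum_neg_distrib]
          refine Finset.sum_congr rfl fun i _ => ?_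
          have h4 : ind w (v i) = 0 := by
            unfold ind
            rw [if_neg (hw' i)]
          rw [h4]
          ring
        rw [h3] at h2
        exact add_neg_eq_zero.1 h2
  have hex : ∃ y : Fin n → ZMod 5, Adm y ∧ Ext5 y ∧
      cnt s t SH (fun w => ∑ i ∈ univ.filter (fun i => u i = w), y i) ≠ 0 := by
    by_contra hcon
    have h1 := lin cc (fun y hy1 hy2 => by
      rw [← hcc y]
      have h2 : cnt s t SH (fun w => ∑ i ∈ univ.filter (fun i => u i = w), y i) = 0 := by
        by_contra h3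
        exact hcon ⟨y, hy1, hy2, h3⟩
      rw [h2]
      rfl) x hAdm
    rw [← hcc x] at h1
    exact hpos (by exact_mod_cast h1)
  obtain ⟨y, ⟨hy0, hys⟩, ⟨z, hz⟩, hcnt⟩ := hex
  obtain ⟨ψ, hψ⟩ := Finset.card_pos.1 (Nat.pos_of_ne_zero hcnt)
  simp only [Finset.mem_filter, Finset.mem_univ, true_and] at hψ
  obtain ⟨hψ0, hψ1, hψ2⟩ := hψ
  obtain ⟨q, hq⟩ : ∃ q : Fin n → ZMod 5,
      ∀ k, q k = -(z + ∑ i ∈ univ.filter (fun i => i ≤ k), y i) := ⟨_, fun _ => rfl⟩
  have hqs : ∀ k, q (k + 1) - q k + y (k + 1) = 0 := by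
    intro k
    rw [hq, hq, filt n y hys k]
    ring
  apply h.nz
  refine ⟨fun e => ∑ k, (if c k = e then τ k * q k else 0) +
    ∑ i, (if d i = e then σ i * y i else 0) + ψ e, fun e he => ?_, fun w => ?_⟩
  · by_cases h1 : ∃ k, c k = e
    · obtain ⟨k, rfl⟩ := h1
      have e1 : ∑ j, (if c j = c k then τ j * q j else 0) = τ k * q k := by
        rw [Finset.sum_eq_single k]
        · rw [if_pos rfl]
        · intro j _ hj
          rw [if_neg fun hh => hj (hc.cinj hh)]
        · intro hh
          exact absurd (Finset.mem_univ k) hh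
      have e2 : ∑ i, (if d i = c k then σ i * y i else 0) = 0 :=
        Finset.sum_eq_zero fun i _ => if_neg (hc.cd k i).symm
      have e3 : ψ (c k) = 0 := hψ1 _ fun hh => ((hSHm _).1 hh).2.1 k rfl
      simp only [e1, e2, e3, add_zero]
      intro hh
      apply hz k
      have h2 : τ k * (τ k * q k) = 0 := by rw [hh, mul_zero]
      rw [← mul_assoc, hτ1, one_mul, hq] at h2
      exact neg_eq_zero.1 h2
    · have h1' : ∀ k, c k ≠ e := fun k hk => h1 ⟨k, hk⟩
      have e1 : ∑ k, (if c k = e then τ k * q k else 0) = 0 :=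
        Finset.sum_eq_zero fun k _ => if_neg (h1' k)
      by_cases h2 : ∃ i, d i = e
      · obtain ⟨i, rfl⟩ := h2
        have e2 : ∑ j, (if d j = d i then σ j * y j else 0) = σ i * y i := by
          rw [Finset.sum_eq_single i]
          · rw [if_pos rfl]
          · intro j _ hj
            rw [if_neg fun hh => hj (hc.dinj hh)]
          · intro hh
            exact absurd (Finset.mem_univ i) hh
        have e3 : ψ (d i) = 0 := hψ1 _ fun hh => ((hSHm _).1 hh).2.2 i rfl
        simp only [e1, e2, e3, add_zero, zero_add]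
        intro hh
        apply hy0 i
        have h2 : σ i * (σ i * y i) = 0 := by rw [hh, mul_zero]
        rwa [← mul_assoc, hσ1, one_mul] at h2
      · have h2' : ∀ i, d i ≠ e := fun i hi => h2 ⟨i, hi⟩
        have e2 : ∑ i, (if d i = e then σ i * y i else 0) = 0 :=
          Finset.sum_eq_zero fun i _ => if_neg (h2' i)
        simp only [e1, e2, zero_add]
        exact hψ0 e ((hSHm e).2 ⟨he, h1', h2'⟩)
  · rw [bd_eq]
    simp only [mul_add, Finset.sum_add_distrib]
    rw [sum_single S _ c hc.cS, sum_single S _ d hc.dS]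
    have e1 : ∑ k, (ind w (s (c k)) - ind w (t (c k))) * (τ k * q k) =
        ∑ k, (ind w (v k) - ind w (v (k + 1))) * q k :=
      Finset.sum_congr rfl fun k _ => by rw [← mul_assoc, hτ2 k (fun z => ind w z)]
    have e2 : ∑ i, (ind w (s (d i)) - ind w (t (d i))) * (σ i * y i) =
        ∑ i, (ind w (v i) - ind w (u i)) * y i :=
      Finset.sum_congr rfl fun k _ => by rw [← mul_assoc, hσ2 k (fun z => ind w z)]
    have e3 : ∑ e ∈ S, (ind w (s e) - ind w (t e)) * ψ e = ∑ i, ind w (u i) * y i := by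
      rw [← hfilt, ← hψ2 w, bd_eq]
      symm
      apply Finset.sum_subset (fun e he => ((hSHm e).1 he).1)
      intro e _ he
      rw [hψ1 e he, mul_zero]
    have e4 : ∑ k, ind w (v k) * q k = ∑ k, ind w (v (k + 1)) * q (k + 1) :=
      (Equiv.sum_comp (Equiv.addRight (1 : Fin n)) (fun k => ind w (v k) * q k)).symm
    have e5 : ∑ k, ind w (v k) * y k = ∑ k, ind w (v (k + 1)) * y (k + 1) :=
      (Equiv.sum_comp (Equiv.addRight (1 : Fin n)) (fun k => ind w (v k) * y k)).symm
    rw [e1, e2, e3]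
    simp only [sub_mul, Finset.sum_sub_distrib]
    rw [e4, e5]
    have e6 : ∑ k, ind w (v (k + 1)) * q (k + 1) - ∑ k, ind w (v (k + 1)) * q k +
        ∑ k, ind w (v (k + 1)) * y (k + 1) = 0 := by
      rw [← Finset.sum_sub_distrib, ← Finset.sum_add_distrib]
      refine Finset.sum_eq_zero fun k _ => ?_
      rw [← mul_sub, ← mul_add, hqs, mul_zero]
    rw [← e6]
    ring

end Pool.Agent.TH362.FF
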