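import Pool.Agent.TH362.FF.Defs

/-!
A checker for certificates of the statements `Lin n`. Vectors are lists of digits.
-/

set_option autoImplicit false

namespace Pool.Agent.TH362.FF.Ck

open Finset

/-- The vector with the entries `l`. -/
def vec (n : ℕ) (l : List ℕ) : Fin n → ZMod 5 := fun i => ((l.getD i.val 0 : ℕ) : ZMod 5)

/-- The statement of `Lin n` for one vector. -/
def Sp {n : ℕ} (x : Fin n → ZMod 5) : Prop :=
  ∀ c : (Fin n → Fin n) → ℤ,
    (∀ y : Fin n → ZMod 5, Adm y → Ext5 y → ∑ g, c g * chi g y = 0) → ∑ g, c g * chi g x = 0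

/-- Bit `m` of `a`. -/
def tb (a m : ℕ) : Bool := Nat.beq (Nat.land (Nat.shiftRight a m) 1) 1

/-- `r i` is the set of the subsets with sum `i`, coded by bits; the next entry is coded by the
bit `p` of the subsets. -/
def zt : List ℕ → ℕ → ℕ → ℕ → ℕ → ℕ → ℕ → ℕ
  | [], _, r0, _, _, _, _ => r0
  | d :: l, p, r0, r1, r2, r3, r4 =>
    bif Nat.beq d 1 then
      zt l (2 * p) (Nat.lor r0 (Nat.shiftLeft r4 p)) (Nat.lor r1 (Nat.shiftLeft r0 p))
        (Nat.lor r2 (Nat.shiftLeft r1 p)) (Nat.lor r3 (Nat.shiftLeft r2 p))
        (Nat.lor r4 (Nat.shiftLeft r3 p))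
    else bif Nat.beq d 2 then
      zt l (2 * p) (Nat.lor r0 (Nat.shiftLeft r3 p)) (Nat.lor r1 (Nat.shiftLeft r4 p))
        (Nat.lor r2 (Nat.shiftLeft r0 p)) (Nat.lor r3 (Nat.shiftLeft r1 p))
        (Nat.lor r4 (Nat.shiftLeft r2 p))
    else bif Nat.beq d 3 then
      zt l (2 * p) (Nat.lor r0 (Nat.shiftLeft r2 p)) (Nat.lor r1 (Nat.shiftLeft r3 p))
        (Nat.lor r2 (Nat.shiftLeft r4 p)) (Nat.lor r3 (Nat.shiftLeft r0 p))
        (Nat.lor r4 (Nat.shiftLeft r1 p))
    else
      zt l (2 * p) (Nat.lor r0 (Nat.shiftLeft r1 p)) (Nat.lor r1 (Nat.shiftLeft r2 p))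
        (Nat.lor r2 (Nat.shiftLeft r3 p)) (Nat.lor r3 (Nat.shiftLeft r4 p))
        (Nat.lor r4 (Nat.shiftLeft r0 p))

/-- The set of the subsets of the indices with sum zero. -/
def zs (l : List ℕ) : ℕ := zt l 1 1 0 0 0 0

/-- All blocks have sum zero. -/
def allz (bs : List ℕ) (z : ℕ) : Bool :=
  match bs with
  | [] => true
  | b :: bs => bif tb z b then allz bs z else false

/-- Sum of the coefficients of the vectors for which all blocks have sum zero. -/
def sm (bs : List ℕ) : List (ℕ × ℕ) → ℕ
  | [] => 0
  | (a, z) :: l => bif allz bs z then a + sm bs l else sm bs l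

/-- Some block has one element. -/
def sing : List ℕ → Bool
  | [] => false
  | b :: bs => bif Nat.beq (Nat.land b (b - 1)) 0 then true else sing bs

/-- The identity for one partition. -/
def leaf (P N : List (ℕ × ℕ)) (bs : List ℕ) : Bool :=
  bif sing bs then true else Nat.beq (sm bs P) (sm bs N)

/-- Add the element with bit `p` to one of the blocks, or as a new block. -/
def insb (p : ℕ) (k : List ℕ → Bool) : List ℕ → List ℕ → Bool
  | pre, [] => k (p :: pre)
  | pre, b :: rest => bif k ((b + p) :: (pre ++ rest)) then insb p k (b :: pre) rest else false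

/-- Run through all partitions. -/
def walk (k : List ℕ → Bool) : ℕ → ℕ → List ℕ → Bool
  | 0, _, bs => k bs
  | m + 1, p, bs => insb p (walk k m (2 * p)) [] bs

/-- The digits of a number, the last one first. -/
def digs : ℕ → ℕ → List ℕ
  | 0, _ => []
  | n + 1, x => (x % 10) :: digs n (x / 10)

/-- Equality of lists. -/
def eqL : List ℕ → List ℕ → Bool
  | [], [] => true
  | a :: l, b :: l' => bif Nat.beq a b then eqL l l' else false
  | _, _ => false

/-- Membership in a list of lists. -/
def mem (l : List ℕ) : List (List ℕ) → Bool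
  | [] => false
  | a :: as => bif eqL l a then true else mem l as

/-- Rotation by one. -/
def rot1 : List ℕ → List ℕ
  | [] => []
  | d :: l => l ++ [d]

/-- Rotation by `k`. -/
def rotk : ℕ → List ℕ → List ℕ
  | 0, l => l
  | k + 1, l => rotk k (rot1 l)

/-- Multiplication by `c`. -/
def scl (c : ℕ) : List ℕ → List ℕ
  | [] => []
  | d :: l => (d * c % 5) :: scl c l

/-- Entries from 1 to 4. -/
def nz : List ℕ → Bool
  | [] => true
  | d :: l => bif Nat.ble 1 d && Nat.ble d 4 then nz l else false

/-- Sum of the entries. -/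
def suml : List ℕ → ℕ
  | [] => 0
  | d :: l => d + suml l

/-- Length `n`, entries from 1 to 4, sum divisible by 5. -/
def adm (n : ℕ) (l : List ℕ) : Bool :=
  nz l && Nat.beq l.length n && Nat.beq (suml l % 5) 0

/-- The values starting from `y` are different from zero. -/
def pas : ℕ → List ℕ → Bool
  | _, [] => true
  | y, d :: l => bif Nat.beq ((y + d) % 5) 0 then false else pas ((y + d) % 5) l

/-- The vector is extendable. -/
def ext (l : List ℕ) : Bool :=
  pas 0 l || pas 1 l || pas 2 l || pas 3 l || pas 4 l

/-- A term of a certificate: the vector is extendable, or it can be moved to a known vector by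
the rotation by `h % 10`, a reflection if `h / 10 % 10 = 1` and the multiplication by `h / 100`. -/
def okT (n : ℕ) (known : List (List ℕ)) (l : List ℕ) (h : ℕ) : Bool :=
  adm n l && bif Nat.beq h 0 then ext l else
    (Nat.ble 1 (h / 100) && Nat.ble (h / 100) 4 &&
      mem (scl (h / 100) (rotk (h % 10) (bif Nat.beq (h / 10 % 10) 1 then l.reverse else l))) known)

/-- Decode the terms `(a, x, h)`. -/
def dec (n : ℕ) : List (ℕ × ℕ × ℕ) → List (ℕ × ℕ)
  | [] => []
  | (a, x, _) :: l => (a, zs (digs n x)) :: dec n l

/-- All terms are allowed. -/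
def okA (n : ℕ) (known : List (List ℕ)) : List (ℕ × ℕ × ℕ) → Bool
  | [] => true
  | (_, x, h) :: l => bif okT n known (digs n x) h then okA n known l else false

/-- The certificate `D * x + N = P` for the vector `x`. -/
def step (n : ℕ) (known : List (List ℕ)) (x D : ℕ) (P N : List (ℕ × ℕ × ℕ)) : Bool :=
  adm n (digs n x) && Nat.ble 1 D && okA n known P && okA n known N &&
    walk (leaf (dec n P) ((D, zs (digs n x)) :: dec n N)) n 1 []

/-- A list of certificates. -/
def chain (n : ℕ) : List (List ℕ) → List (ℕ × ℕ × List (ℕ × ℕ × ℕ) × List (ℕ × ℕ × ℕ)) → Bool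
  | _, [] => true
  | known, (x, D, P, N) :: l => bif step n known x D P N then chain n (digs n x :: known) l
    else false

/-- Some image of `l` is known. -/
def srch (known : List (List ℕ)) : ℕ → List ℕ → Bool
  | 0, _ => false
  | k + 1, l =>
    bif mem l known || mem (scl 2 l) known || mem (scl 3 l) known || mem (scl 4 l) known ||
      mem l.reverse known || mem (scl 2 l.reverse) known || mem (scl 3 l.reverse) known ||
      mem (scl 4 l.reverse) known then true else srch known k (rot1 l)

/-- All vectors are extendable or images of known vectors. -/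
def cov (n : ℕ) (known : List (List ℕ)) : ℕ → List ℕ → ℕ → Bool
  | 0, l, s => bif Nat.beq (s % 5) 0 then (bif ext l then true else srch known n l) else true
  | m + 1, l, s => bif cov n known m (1 :: l) (s + 1) then
      bif cov n known m (2 :: l) (s + 2) then
        bif cov n known m (3 :: l) (s + 3) then cov n known m (4 :: l) (s + 4) else false
      else false
    else false

end Pool.Agent.TH362.FF.Ck
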