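import Pool.Agent.TH362.FF.Ck
import Mathlib.Algebra.BigOperators.Fin
import Mathlib.Data.Nat.Bitwise
import Mathlib.Tactic.IntervalCases
import Mathlib.Tactic.Linarith
import Mathlib.Tactic.Ring
import Mathlib.Data.ZMod.Basic

/-!
Soundness of the walk through all partitions (job 4926 of helper362, written by helper574).
-/

set_option autoImplicit false

namespace Pool.Agent.TH362.FF.Ck

namespace Ck1

open Finset

/-! ### Sums over the bits -/

/-- The sum of the entries with index less than `k` over the bits of `m`. -/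
def S (l : List ℕ) (k m : ℕ) : ℕ := ∑ i ∈ range k, if m.testBit i = true then l.getD i 0 else 0

theorem S_zero (l : List ℕ) (m : ℕ) : S l 0 m = 0 := by simp [S]

theorem S_succ (l : List ℕ) (k m : ℕ) :
    S l (k + 1) m = S l k m + if m.testBit k = true then l.getD k 0 else 0 := by
  unfold S
  rw [sum_range_succ]

theorem S_add (l : List ℕ) (k m : ℕ) : S l k (2 ^ k + m) = S l k m := by
  unfold S
  refine sum_congr rfl fun i hi => ?_
  rw [Nat.testBit_two_pow_add_gt (mem_range.1 hi)]

theorem S_bot (l : List ℕ) (k : ℕ) : S l k 0 = 0 := by simp [S]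

theorem stp (L : List ℕ) (k i i' d ri ri' : ℕ) (hd : L.getD k 0 = d)
    (hi' : i' < 5) (hs : (i' + d) % 5 = i)
    (h : ∀ m : ℕ, ri.testBit m = true ↔ m < 2 ^ k ∧ S L k m % 5 = i)
    (h' : ∀ m : ℕ, ri'.testBit m = true ↔ m < 2 ^ k ∧ S L k m % 5 = i') (m : ℕ) :
    (Nat.lor ri (Nat.shiftLeft ri' (2 ^ k))).testBit m = true ↔
      m < 2 ^ (k + 1) ∧ S L (k + 1) m % 5 = i := by
  change (ri ||| (ri' <<< 2 ^ k)).testBit m = true ↔ _
  rw [Nat.testBit_or, Nat.testBit_shiftLeft, S_succ, Bool.or_eq_true, Bool.and_eq_true,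
    decide_eq_true_eq, h m, pow_succ]
  rcases lt_or_ge m (2 ^ k) with hm | hm
  · have hb : m.testBit k = false := Nat.testBit_lt_two_pow hm
    rw [hb]
    constructor
    · rintro (h1 | h1)
      · exact ⟨by omega, by simpa using h1.2⟩
      · omega
    · rintro ⟨_, h2⟩
      left
      exact ⟨hm, by simpa using h2⟩
  · obtain ⟨m', rfl⟩ := Nat.exists_eq_add_of_le hm
    rw [Nat.add_sub_cancel_left, h' m', S_add]
    rcases lt_or_ge m' (2 ^ k) with hm' | hm'
    · have hb : (2 ^ k + m').testBit k = true := by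
        rw [Nat.testBit_two_pow_add_eq, Nat.testBit_lt_two_pow hm']
        rfl
      rw [hb, if_pos rfl, hd]
      constructor
      · rintro (h1 | h1)
        · omega
        · exact ⟨by omega, by omega⟩
      · rintro ⟨_, h2⟩
        right
        exact ⟨by omega, hm', by omega⟩
    · constructor
      · rintro (h1 | h1) <;> omega
      · rintro ⟨h1, _⟩
        omega

theorem nz_cons {d : ℕ} {l : List ℕ} (h : nz (d :: l) = true) : 1 ≤ d ∧ d ≤ 4 ∧ nz l = true := by
  unfold nz at h
  cases h1 : (Nat.ble 1 d && Nat.ble d 4) with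
  | false =>
    rw [h1] at h
    exact absurd h Bool.false_ne_true
  | true =>
    rw [h1] at h
    rw [Bool.and_eq_true] at h1
    exact ⟨Nat.le_of_ble_eq_true h1.1, Nat.le_of_ble_eq_true h1.2, h⟩

theorem zt_spec (L : List ℕ) : ∀ (rest : List ℕ) (k r0 r1 r2 r3 r4 : ℕ), nz rest = true →
    L.length = k + rest.length → (∀ j, L.getD (k + j) 0 = rest.getD j 0) →
    (∀ m : ℕ, r0.testBit m = true ↔ m < 2 ^ k ∧ S L k m % 5 = 0) →
    (∀ m : ℕ, r1.testBit m = true ↔ m < 2 ^ k ∧ S L k m % 5 = 1) →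
    (∀ m : ℕ, r2.testBit m = true ↔ m < 2 ^ k ∧ S L k m % 5 = 2) →
    (∀ m : ℕ, r3.testBit m = true ↔ m < 2 ^ k ∧ S L k m % 5 = 3) →
    (∀ m : ℕ, r4.testBit m = true ↔ m < 2 ^ k ∧ S L k m % 5 = 4) →
    ∀ m : ℕ, (zt rest (2 ^ k) r0 r1 r2 r3 r4).testBit m = true ↔
      m < 2 ^ L.length ∧ S L L.length m % 5 = 0 := by
  intro rest
  induction rest with
  | nil =>
    intro k r0 r1 r2 r3 r4 _ hlen _ h0 _ _ _ _ m
    rw [List.length_nil, add_zero] at hlen
    rw [hlen]
    exact h0 m
  | cons d l ih =>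
    intro k r0 r1 r2 r3 r4 hnz hlen hget h0 h1 h2 h3 h4 m
    obtain ⟨hd1, hd4, hnz'⟩ := nz_cons hnz
    have hd : L.getD k 0 = d := by
      have := hget 0
      rwa [add_zero, List.getD_cons_zero] at this
    have hlen' : L.length = (k + 1) + l.length := by
      rw [hlen, List.length_cons]
      omega
    have hget' : ∀ j, L.getD (k + 1 + j) 0 = l.getD j 0 := by
      intro j
      have := hget (j + 1)
      rw [List.getD_cons_succ] at this
      rw [← this]
      congr 1
      omega
    have hp : 2 * 2 ^ k = 2 ^ (k + 1) := by rw [pow_succ, mul_comm]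
    interval_cases d
    · change (zt l (2 * 2 ^ k) (Nat.lor r0 (Nat.shiftLeft r4 (2 ^ k)))
        (Nat.lor r1 (Nat.shiftLeft r0 (2 ^ k))) (Nat.lor r2 (Nat.shiftLeft r1 (2 ^ k)))
        (Nat.lor r3 (Nat.shiftLeft r2 (2 ^ k))) (Nat.lor r4 (Nat.shiftLeft r3 (2 ^ k)))).testBit m
          = true ↔ _
      rw [hp]
      exact ih (k + 1) _ _ _ _ _ hnz' hlen' hget'
        (stp L k 0 4 1 r0 r4 hd (by norm_num) (by norm_num) h0 h4)
        (stp L k 1 0 1 r1 r0 hd (by norm_num) (by norm_num) h1 h0)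
        (stp L k 2 1 1 r2 r1 hd (by norm_num) (by norm_num) h2 h1)
        (stp L k 3 2 1 r3 r2 hd (by norm_num) (by norm_num) h3 h2)
        (stp L k 4 3 1 r4 r3 hd (by norm_num) (by norm_num) h4 h3) m
    · change (zt l (2 * 2 ^ k) (Nat.lor r0 (Nat.shiftLeft r3 (2 ^ k)))
        (Nat.lor r1 (Nat.shiftLeft r4 (2 ^ k))) (Nat.lor r2 (Nat.shiftLeft r0 (2 ^ k)))
        (Nat.lor r3 (Nat.shiftLeft r1 (2 ^ k))) (Nat.lor r4 (Nat.shiftLeft r2 (2 ^ k)))).testBit m
          = true ↔ _
      rw [hp]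
      exact ih (k + 1) _ _ _ _ _ hnz' hlen' hget'
        (stp L k 0 3 2 r0 r3 hd (by norm_num) (by norm_num) h0 h3)
        (stp L k 1 4 2 r1 r4 hd (by norm_num) (by norm_num) h1 h4)
        (stp L k 2 0 2 r2 r0 hd (by norm_num) (by norm_num) h2 h0)
        (stp L k 3 1 2 r3 r1 hd (by norm_num) (by norm_num) h3 h1)
        (stp L k 4 2 2 r4 r2 hd (by norm_num) (by norm_num) h4 h2) m
    · change (zt l (2 * 2 ^ k) (Nat.lor r0 (Nat.shiftLeft r2 (2 ^ k)))
        (Nat.lor r1 (Nat.shiftLeft r3 (2 ^ k))) (Nat.lor r2 (Nat.shiftLeft r4 (2 ^ k)))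
        (Nat.lor r3 (Nat.shiftLeft r0 (2 ^ k))) (Nat.lor r4 (Nat.shiftLeft r1 (2 ^ k)))).testBit m
          = true ↔ _
      rw [hp]
      exact ih (k + 1) _ _ _ _ _ hnz' hlen' hget'
        (stp L k 0 2 3 r0 r2 hd (by norm_num) (by norm_num) h0 h2)
        (stp L k 1 3 3 r1 r3 hd (by norm_num) (by norm_num) h1 h3)
        (stp L k 2 4 3 r2 r4 hd (by norm_num) (by norm_num) h2 h4)
        (stp L k 3 0 3 r3 r0 hd (by norm_num) (by norm_num) h3 h0)
        (stp L k 4 1 3 r4 r1 hd (by norm_num) (by norm_num) h4 h1) m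
    · change (zt l (2 * 2 ^ k) (Nat.lor r0 (Nat.shiftLeft r1 (2 ^ k)))
        (Nat.lor r1 (Nat.shiftLeft r2 (2 ^ k))) (Nat.lor r2 (Nat.shiftLeft r3 (2 ^ k)))
        (Nat.lor r3 (Nat.shiftLeft r4 (2 ^ k))) (Nat.lor r4 (Nat.shiftLeft r0 (2 ^ k)))).testBit m
          = true ↔ _
      rw [hp]
      exact ih (k + 1) _ _ _ _ _ hnz' hlen' hget'
        (stp L k 0 1 4 r0 r1 hd (by norm_num) (by norm_num) h0 h1)
        (stp L k 1 2 4 r1 r2 hd (by norm_num) (by norm_num) h1 h2)
        (stp L k 2 3 4 r2 r3 hd (by norm_num) (by norm_num) h2 h3)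
        (stp L k 3 4 4 r3 r4 hd (by norm_num) (by norm_num) h3 h4)
        (stp L k 4 0 4 r4 r0 hd (by norm_num) (by norm_num) h4 h0) m

theorem zs_spec (l : List ℕ) (h : nz l = true) (m : ℕ) :
    (zs l).testBit m = true ↔ m < 2 ^ l.length ∧ S l l.length m % 5 = 0 := by
  unfold zs
  refine zt_spec l l 0 1 0 0 0 0 h (by simp) (by simp) ?_ ?_ ?_ ?_ ?_ m
  · intro m
    rw [S_zero]
    have h1 : (1 : ℕ) = 2 ^ 0 := rfl
    rw [h1, Nat.testBit_two_pow, decide_eq_true_eq]
    constructor
    · rintro rfl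
      exact ⟨by norm_num, rfl⟩
    · rintro ⟨h2, _⟩
      rw [pow_zero] at h2
      omega
  all_goals
    intro m
    rw [S_zero, Nat.zero_testBit]
    simp

theorem tb_eq (a m : ℕ) : tb a m = a.testBit m := by
  unfold tb
  have h1 : Nat.land (Nat.shiftRight a m) 1 = a / 2 ^ m % 2 := by
    change (a >>> m) &&& 1 = _
    rw [Nat.and_one_is_mod, Nat.shiftRight_eq_div_pow]
  rw [h1, Nat.testBit_eq_decide_div_mod_eq]
  by_cases h : a / 2 ^ m % 2 = 1
  · rw [h]
    rfl
  · have h2 : Nat.beq (a / 2 ^ m % 2) 1 = false := by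
      cases h3 : Nat.beq (a / 2 ^ m % 2) 1 with
      | false => rfl
      | true => exact absurd (Nat.eq_of_beq_eq_true h3) h
    rw [h2, decide_eq_false h]

/-! ### The codes of the blocks -/

/-- The code of the set of the `i < k` with `G i = j`. -/
def code (G : ℕ → ℕ) (k j : ℕ) : ℕ := ∑ i ∈ range k, if G i = j then 2 ^ i else 0

theorem code_zero (G : ℕ → ℕ) (j : ℕ) : code G 0 j = 0 := by simp [code]

theorem code_succ (G : ℕ → ℕ) (k j : ℕ) :
    code G (k + 1) j = code G k j + if G k = j then 2 ^ k else 0 := by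
  unfold code
  rw [sum_range_succ]

theorem code_lt (G : ℕ → ℕ) (k j : ℕ) : code G k j < 2 ^ k := by
  induction k with
  | zero => rw [code_zero]; norm_num
  | succ k ih =>
    rw [code_succ, pow_succ]
    split_ifs <;> omega

theorem code_bit (G : ℕ → ℕ) (k j i : ℕ) : (code G k j).testBit i = decide (i < k ∧ G i = j) := by
  induction k with
  | zero => rw [code_zero, Nat.zero_testBit]; simp
  | succ k ih =>
    rcases lt_trichotomy i k with h | h | h
    · rw [code_succ]
      have h1 : decide (i < k + 1 ∧ G i = j) = decide (i < k ∧ G i = j) := by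
        congr 1
        exact propext ⟨fun h2 => ⟨h, h2.2⟩, fun h2 => ⟨by omega, h2.2⟩⟩
      rw [h1, ← ih]
      split_ifs
      · rw [add_comm, Nat.testBit_two_pow_add_gt h]
      · rw [add_zero]
    · subst h
      rw [code_succ]
      have h0 : (code G i j).testBit i = false := Nat.testBit_lt_two_pow (code_lt G i j)
      split_ifs with h2
      · rw [add_comm, Nat.testBit_two_pow_add_eq, h0]
        simp [h2]
      · rw [add_zero, h0]
        simp [h2]
    · have h1 : (code G (k + 1) j).testBit i = false := by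
        refine Nat.testBit_lt_two_pow (lt_of_lt_of_le (code_lt G (k + 1) j) ?_)
        exact Nat.pow_le_pow_right (by norm_num) (by omega)
      rw [h1]
      symm
      rw [decide_eq_false_iff_not]
      rintro ⟨h2, _⟩
      omega

/-- Nonzero codes determine the value. -/
theorem code_inj {G : ℕ → ℕ} {k j j' : ℕ} (h : code G k j = code G k j') (h0 : code G k j ≠ 0) :
    j = j' := by
  obtain ⟨i, hi⟩ : ∃ i, (code G k j).testBit i = true := by
    by_contra hcon
    push Not at hcon
    apply h0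
    refine Nat.eq_of_testBit_eq fun i => ?_
    rw [Nat.zero_testBit]
    exact Bool.eq_false_iff.2 (hcon i)
  have hi' := hi
  rw [h] at hi'
  rw [code_bit, decide_eq_true_eq] at hi hi'
  exact hi.2.symm.trans hi'.2

/-- The list of the codes of the nonempty blocks. -/
structure Inv (G : ℕ → ℕ) (k : ℕ) (bs : List ℕ) : Prop where
  nd : bs.Nodup
  mem : ∀ b ∈ bs, b ≠ 0 ∧ ∃ j, b = code G k j
  all : ∀ j, code G k j ≠ 0 → code G k j ∈ bs

theorem insb_sound (p : ℕ) (K : List ℕ → Bool) : ∀ (rest pre : List ℕ),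
    insb p K pre rest = true →
    (∀ b ∈ rest, ∃ L', K ((b + p) :: L') = true ∧ (b :: L').Perm (pre ++ rest)) ∧
      ∃ L', K (p :: L') = true ∧ L'.Perm (pre ++ rest) := by
  intro rest
  induction rest with
  | nil =>
    intro pre h
    refine ⟨fun _ hb => absurd hb List.not_mem_nil, pre, h, ?_⟩
    rw [List.append_nil]
  | cons c rest ih =>
    intro pre h
    unfold insb at h
    cases h1 : K ((c + p) :: (pre ++ rest)) with
    | false =>
      rw [h1] at h
      exact absurd h Bool.false_ne_true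
    | true =>
      rw [h1] at h
      obtain ⟨h2, L', h3, h4⟩ := ih (c :: pre) h
      have hperm : ((c :: pre) ++ rest).Perm (pre ++ c :: rest) := List.perm_middle.symm
      refine ⟨fun b hb => ?_, L', h3, h4.trans hperm⟩
      rcases List.mem_cons.1 hb with rfl | hb
      · exact ⟨pre ++ rest, h1, List.perm_middle.symm⟩
      · obtain ⟨L'', h5, h6⟩ := h2 b hb
        exact ⟨L'', h5, h6.trans hperm⟩

/-- One step of the walk. -/
theorem inv_step (G : ℕ → ℕ) (k : ℕ) (bs : List ℕ) (K : List ℕ → Bool) (hI : Inv G k bs)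
    (h : insb (2 ^ k) K [] bs = true) : ∃ bs', K bs' = true ∧ Inv G (k + 1) bs' := by
  obtain ⟨h1, L0, h2, h3⟩ := insb_sound _ _ _ _ h
  rw [List.nil_append] at h3
  have hlt : ∀ b ∈ bs, b < 2 ^ k := by
    intro b hb
    obtain ⟨_, j, rfl⟩ := hI.mem b hb
    exact code_lt G k j
  have hsame : ∀ j, j ≠ G k → code G (k + 1) j = code G k j := by
    intro j hj
    rw [code_succ, if_neg (Ne.symm hj), add_zero]
  have hnew : code G (k + 1) (G k) = code G k (G k) + 2 ^ k := by
    rw [code_succ, if_pos rfl]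
  have h2k : 0 < 2 ^ k := by positivity
  by_cases hc : code G k (G k) = 0
  · -- a new block
    refine ⟨2 ^ k :: L0, h2, ⟨?_, ?_, ?_⟩⟩
    · rw [List.nodup_cons]
      refine ⟨fun hmem => ?_, h3.nodup_iff.2 hI.nd⟩
      exact absurd (hlt _ (h3.mem_iff.1 hmem)) (lt_irrefl _)
    · intro b hb
      rcases List.mem_cons.1 hb with rfl | hb
      · exact ⟨by positivity, G k, by rw [hnew, hc, zero_add]⟩
      · obtain ⟨hb0, j, hj⟩ := hI.mem b (h3.mem_iff.1 hb)
        refine ⟨hb0, j, ?_⟩
        have hjk : j ≠ G k := by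
          rintro rfl
          exact hb0 (hj.trans hc)
        rw [hsame j hjk]
        exact hj
    · intro j hj
      by_cases hjk : j = G k
      · subst hjk
        rw [hnew, hc, zero_add]
        exact List.mem_cons_self
      · rw [hsame j hjk] at hj ⊢
        exact List.mem_cons_of_mem _ (h3.mem_iff.2 (hI.all j hj))
  · -- an old block
    obtain ⟨L', h4, h5⟩ := h1 _ (hI.all _ hc)
    rw [List.nil_append] at h5
    have hnd : (code G k (G k) :: L').Nodup := h5.nodup_iff.2 hI.nd
    rw [List.nodup_cons] at hnd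
    refine ⟨(code G k (G k) + 2 ^ k) :: L', h4, ⟨?_, ?_, ?_⟩⟩
    · rw [List.nodup_cons]
      refine ⟨fun hmem => ?_, hnd.2⟩
      have := hlt _ (h5.mem_iff.1 (List.mem_cons_of_mem _ hmem))
      omega
    · intro b hb
      rcases List.mem_cons.1 hb with rfl | hb
      · exact ⟨by omega, G k, hnew.symm⟩
      · obtain ⟨hb0, j, hj⟩ := hI.mem b (h5.mem_iff.1 (List.mem_cons_of_mem _ hb))
        refine ⟨hb0, j, ?_⟩
        have hjk : j ≠ G k := by
          rintro rfl
          rw [hj] at hb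
          exact hnd.1 hb
        rw [hsame j hjk]
        exact hj
    · intro j hj
      by_cases hjk : j = G k
      · subst hjk
        rw [hnew]
        exact List.mem_cons_self
      · rw [hsame j hjk] at hj ⊢
        have h6 := h5.mem_iff.2 (hI.all j hj)
        rcases List.mem_cons.1 h6 with h7 | h7
        · exact absurd (code_inj h7 hj) hjk
        · exact List.mem_cons_of_mem _ h7

theorem walk_inv (G : ℕ → ℕ) (K : List ℕ → Bool) : ∀ (m k : ℕ) (bs : List ℕ), Inv G k bs →
    walk K m (2 ^ k) bs = true → ∃ bs', K bs' = true ∧ Inv G (k + m) bs' := by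
  intro m
  induction m with
  | zero =>
    intro k bs hI h
    exact ⟨bs, h, hI⟩
  | succ m ih =>
    intro k bs hI h
    unfold walk at h
    obtain ⟨bs', h1, h2⟩ := inv_step G k bs _ hI h
    have hp : 2 * 2 ^ k = 2 ^ (k + 1) := by rw [pow_succ, mul_comm]
    rw [hp] at h1
    obtain ⟨bs'', h3, h4⟩ := ih (k + 1) bs' h2 h1
    refine ⟨bs'', h3, ?_⟩
    have e : k + (m + 1) = k + 1 + m := by omega
    rw [e]
    exact h4

theorem inv_zero (G : ℕ → ℕ) : Inv G 0 [] :=
  ⟨List.nodup_nil, fun _ hb => absurd hb List.not_mem_nil, fun j hj => absurd (code_zero G j) hj⟩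

/-! ### The indicator functions -/

theorem allz_iff (bs : List ℕ) (z : ℕ) : allz bs z = true ↔ ∀ b ∈ bs, z.testBit b = true := by
  induction bs with
  | nil =>
    constructor
    · intro _ _ hb
      exact absurd hb List.not_mem_nil
    · intro _
      rfl
  | cons b bs ih =>
    unfold allz
    rw [tb_eq]
    cases h : z.testBit b with
    | false =>
      constructor
      · intro h1
        exact absurd h1 Bool.false_ne_true
      · intro h1
        have := h1 b List.mem_cons_self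
        rw [h] at this
        exact absurd this Bool.false_ne_true
    | true =>
      change allz bs z = true ↔ _
      rw [ih]
      constructor
      · intro h1 c hc
        rcases List.mem_cons.1 hc with rfl | hc
        · exact h
        · exact h1 c hc
      · intro h1 c hc
        exact h1 c (List.mem_cons_of_mem _ hc)

theorem adm_nz {n : ℕ} {l : List ℕ} (h : adm n l = true) : nz l = true ∧ l.length = n := by
  unfold adm at h
  rw [Bool.and_eq_true, Bool.and_eq_true] at h
  exact ⟨h.1.1, Nat.eq_of_beq_eq_true h.1.2⟩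

/-- The extension of `g` to the natural numbers. -/
def GG {n : ℕ} (g : Fin n → Fin n) (i : ℕ) : ℕ := if h : i < n then (g ⟨i, h⟩).val else n

theorem S_code {n : ℕ} (g : Fin n → Fin n) (l : List ℕ) (j : Fin n) :
    ((S l n (code (GG g) n j.val) : ℕ) : ZMod 5) =
      ∑ i ∈ univ.filter (fun i => g i = j), vec n l i := by
  unfold S
  rw [Finset.sum_range, sum_filter]
  push_cast
  refine sum_congr rfl fun i _ => ?_
  rw [code_bit]
  have h1 : GG g i.val = (g i).val := by
    unfold GG
    rw [dif_pos i.isLt]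
  unfold vec
  by_cases h : g i = j
  · rw [if_pos h, if_pos]
    rw [decide_eq_true_eq]
    exact ⟨i.isLt, by rw [h1, h]⟩
  · rw [if_neg h, if_neg]
    rw [decide_eq_true_eq]
    rintro ⟨_, h2⟩
    rw [h1] at h2
    exact h (Fin.ext h2)

theorem code_big {n : ℕ} (g : Fin n → Fin n) (j : ℕ) (h : code (GG g) n j ≠ 0) : j < n := by
  by_contra hj
  apply h
  unfold code
  refine sum_eq_zero fun i hi => ?_
  rw [if_neg]
  unfold GG
  rw [dif_pos (mem_range.1 hi)]
  have := (g ⟨i, mem_range.1 hi⟩).isLt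
  omega

theorem chi_eq {n : ℕ} (g : Fin n → Fin n) (bs : List ℕ) (hI : Inv (GG g) n bs) (l : List ℕ)
    (hl : adm n l = true) : chi g (vec n l) = if allz bs (zs l) = true then 1 else 0 := by
  obtain ⟨hnz, hlen⟩ := adm_nz hl
  have hz := zs_spec l hnz
  rw [hlen] at hz
  have hmod : ∀ j : Fin n, (∑ i ∈ univ.filter (fun i => g i = j), vec n l i = 0 ↔
      S l n (code (GG g) n j.val) % 5 = 0) := by
    intro j
    rw [← S_code, ZMod.natCast_eq_zero_iff]
    exact Nat.dvd_iff_mod_eq_zero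
  unfold chi
  have hiff : (∀ j, ∑ i ∈ univ.filter (fun i => g i = j), vec n l i = 0) ↔
      allz bs (zs l) = true := by
    rw [allz_iff]
    constructor
    · intro h b hb
      obtain ⟨hb0, j, hj⟩ := hI.mem b hb
      have hjn : j < n := code_big g j (by rw [← hj]; exact hb0)
      rw [hz b, hj]
      exact ⟨code_lt _ _ _, (hmod ⟨j, hjn⟩).1 (h ⟨j, hjn⟩)⟩
    · intro h j
      rw [hmod j]
      by_cases h0 : code (GG g) n j.val = 0
      · rw [h0, S_bot]
      · exact ((hz _).1 (h _ (hI.all _ h0))).2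
  by_cases h : allz bs (zs l) = true
  · rw [if_pos h, if_pos (hiff.2 h)]
  · rw [if_neg h, if_neg (fun h1 => h (hiff.1 h1))]

theorem sm_eq (n : ℕ) (bs : List ℕ) (u : List ℕ → ℤ) (P : List (ℕ × ℕ × ℕ))
    (hu : ∀ t ∈ P, u (digs n t.2.1) = if allz bs (zs (digs n t.2.1)) = true then 1 else 0) :
    ((sm bs (dec n P) : ℕ) : ℤ) = (P.map (fun t => (t.1 : ℤ) * u (digs n t.2.1))).sum := by
  induction P with
  | nil => rfl
  | cons t P ih =>
    obtain ⟨a, x, h⟩ := t
    have ih' := ih fun t ht => hu t (List.mem_cons_of_mem _ ht)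
    have h1 := hu (a, x, h) List.mem_cons_self
    change u (digs n x) = _ at h1
    rw [List.map_cons, List.sum_cons, ← ih']
    change ((sm bs ((a, zs (digs n x)) :: dec n P) : ℕ) : ℤ) = (a : ℤ) * u (digs n x) + _
    have h3 : sm bs ((a, zs (digs n x)) :: dec n P) =
        bif allz bs (zs (digs n x)) then a + sm bs (dec n P) else sm bs (dec n P) := rfl
    rw [h1, h3]
    change _ = (a : ℤ) * (if allz bs (zs (digs n x)) = true then 1 else 0) + _
    cases h2 : allz bs (zs (digs n x)) with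
    | false => simp
    | true => simp

theorem sing_mem (bs : List ℕ) (h : sing bs = true) : ∃ b ∈ bs, b &&& (b - 1) = 0 := by
  induction bs with
  | nil => exact absurd h Bool.false_ne_true
  | cons b bs ih =>
    unfold sing at h
    cases h1 : Nat.beq (Nat.land b (b - 1)) 0 with
    | true => exact ⟨b, List.mem_cons_self, Nat.eq_of_beq_eq_true h1⟩
    | false =>
      rw [h1] at h
      obtain ⟨c, hc, h2⟩ := ih h
      exact ⟨c, List.mem_cons_of_mem _ hc, h2⟩

theorem pow_of_land {b : ℕ} (h0 : b ≠ 0) (h : b &&& (b - 1) = 0) : ∃ i, b = 2 ^ i := by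
  refine ⟨b.log2, ?_⟩
  have h1 : 2 ^ b.log2 ≤ b := Nat.log2_self_le h0
  have h2 : b < 2 ^ (b.log2 + 1) := Nat.lt_log2_self
  by_contra hne
  have bit : ∀ c, 2 ^ b.log2 ≤ c → c < 2 ^ (b.log2 + 1) → c.testBit b.log2 = true := by
    intro c hc1 hc2
    obtain ⟨c', rfl⟩ := Nat.exists_eq_add_of_le hc1
    rw [Nat.testBit_two_pow_add_eq, Nat.testBit_lt_two_pow]
    · rfl
    · rw [pow_succ] at hc2
      omega
  have h3 : (b &&& (b - 1)).testBit b.log2 = true := by
    rw [Nat.testBit_and, bit b h1 h2, bit (b - 1) (by omega) (by omega)]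
    rfl
  rw [h, Nat.zero_testBit] at h3
  exact absurd h3 Bool.false_ne_true

theorem S_pow (l : List ℕ) (n i : ℕ) (hi : i < n) : S l n (2 ^ i) = l.getD i 0 := by
  unfold S
  rw [sum_eq_single i]
  · rw [Nat.testBit_two_pow, if_pos (by simp)]
  · intro j _ hj
    rw [Nat.testBit_two_pow, if_neg]
    rw [decide_eq_true_eq]
    exact fun h => hj h.symm
  · intro h
    exact absurd (mem_range.2 hi) h

theorem nz_getD : ∀ (l : List ℕ), nz l = true → ∀ i, i < l.length →
    1 ≤ l.getD i 0 ∧ l.getD i 0 ≤ 4 := by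
  intro l
  induction l with
  | nil =>
    intro _ i hi
    exact absurd hi (Nat.not_lt_zero i)
  | cons d l ih =>
    intro h i hi
    obtain ⟨h1, h2, h3⟩ := nz_cons h
    cases i with
    | zero => exact ⟨h1, h2⟩
    | succ i =>
      rw [List.getD_cons_succ]
      exact ih h3 i (by rw [List.length_cons] at hi; omega)

/-- A block with one element is not zero. -/
theorem allz_sing {n : ℕ} (g : Fin n → Fin n) (bs : List ℕ) (hI : Inv (GG g) n bs)
    (hs : sing bs = true) (l : List ℕ) (hl : adm n l = true) : ¬ allz bs (zs l) = true := by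
  obtain ⟨hnz, hlen⟩ := adm_nz hl
  obtain ⟨b, hb, hb1⟩ := sing_mem bs hs
  obtain ⟨hb0, j, hj⟩ := hI.mem b hb
  obtain ⟨i, hi⟩ := pow_of_land hb0 hb1
  have hin : i < n := by
    have h1 : (2 : ℕ) ^ i < 2 ^ n := by
      rw [← hi, hj]
      exact code_lt _ _ _
    exact (Nat.pow_lt_pow_iff_right (by norm_num)).1 h1
  intro h
  rw [allz_iff] at h
  have h1 := (zs_spec l hnz b).1 (h b hb)
  rw [hlen, hi, S_pow l n i hin] at h1
  have h2 := nz_getD l hnz i (by rw [hlen]; exact hin)
  omega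

end Ck1

open Finset

theorem walk_sound (n : ℕ) (P N : List (ℕ × ℕ × ℕ)) (x D : ℕ)
    (hP : ∀ t ∈ P, adm n (digs n t.2.1) = true) (hN : ∀ t ∈ N, adm n (digs n t.2.1) = true)
    (hx : adm n (digs n x) = true)
    (h : walk (leaf (dec n P) ((D, zs (digs n x)) :: dec n N)) n 1 [] = true)
    (g : Fin n → Fin n) :
    (P.map (fun t => (t.1 : ℤ) * chi g (vec n (digs n t.2.1)))).sum =
      (D : ℤ) * chi g (vec n (digs n x)) +
        (N.map (fun t => (t.1 : ℤ) * chi g (vec n (digs n t.2.1)))).sum := by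
  obtain ⟨bs, h1, hI⟩ := Ck1.walk_inv (Ck1.GG g) _ n 0 [] (Ck1.inv_zero _) h
  rw [zero_add] at hI
  have hc := Ck1.chi_eq g bs hI
  have e1 := Ck1.sm_eq n bs (fun l => chi g (vec n l)) P (fun t ht => hc _ (hP t ht))
  have e2 := Ck1.sm_eq n bs (fun l => chi g (vec n l)) ((D, x, 0) :: N) (by
    intro t ht
    rcases List.mem_cons.1 ht with rfl | ht
    · exact hc _ hx
    · exact hc _ (hN t ht))
  rw [List.map_cons, List.sum_cons] at e2
  change ((sm bs (dec n P) : ℕ) : ℤ) =
    (P.map (fun t => (t.1 : ℤ) * chi g (vec n (digs n t.2.1)))).sum at e1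
  change ((sm bs ((D, zs (digs n x)) :: dec n N) : ℕ) : ℤ) = (D : ℤ) * chi g (vec n (digs n x)) +
    (N.map (fun t => (t.1 : ℤ) * chi g (vec n (digs n t.2.1)))).sum at e2
  rw [← e1, ← e2]
  unfold leaf at h1
  cases hs : sing bs with
  | false =>
    rw [hs] at h1
    exact congrArg _ (Nat.eq_of_beq_eq_true h1)
  | true =>
    -- all terms vanish
    rw [e1, e2, hc _ hx, if_neg (Ck1.allz_sing g bs hI hs _ hx), mul_zero, zero_add]
    have hz : ∀ Q : List (ℕ × ℕ × ℕ), (∀ t ∈ Q, adm n (digs n t.2.1) = true) →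
        (Q.map (fun t => (t.1 : ℤ) * chi g (vec n (digs n t.2.1)))).sum = 0 := by
      intro Q hQ
      refine List.sum_eq_zero fun y hy => ?_
      obtain ⟨t, ht, rfl⟩ := List.mem_map.1 hy
      rw [hc _ (hQ t ht), if_neg (Ck1.allz_sing g bs hI hs _ (hQ t ht)), mul_zero]
    rw [hz P hP, hz N hN]

end Pool.Agent.TH362.FF.Ck
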