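import Pool.Agent.TH362.FF.Ck
import Mathlib.Algebra.BigOperators.Fin
import Mathlib.Algebra.BigOperators.Ring.Finset
import Mathlib.Data.List.GetD
import Mathlib.Data.ZMod.Basic
import Mathlib.Algebra.Field.ZMod
import Mathlib.Tactic.Ring
import Mathlib.Tactic.LinearCombination
import Mathlib.Tactic.FinCases
import Mathlib.Tactic.IntervalCases
import Mathlib.Logic.Equiv.Fin.Rotate

/-!
Closure of the span under rotations, reflections and multiplications.
-/

set_option autoImplicit false

namespace Pool.Agent.TH362.FF.Ck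

open Finset

namespace Ck2

/-! Lists -/

theorem beq_false_ne {a b : ℕ} (h : Nat.beq a b = false) : a ≠ b := by
  intro e
  subst e
  rw [Nat.beq_refl] at h
  exact absurd h (by decide)

theorem nz_spec : ∀ {l : List ℕ}, nz l = true → ∀ i, i < l.length →
    1 ≤ l.getD i 0 ∧ l.getD i 0 ≤ 4
  | [], _, i, hi => absurd hi (by simp)
  | d :: l, h, i, hi => by
    rw [nz] at h
    cases hb : (Nat.ble 1 d && Nat.ble d 4) with
    | false => rw [hb] at h; exact absurd h (by simp)
    | true =>
      rw [hb] at h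
      rw [Bool.and_eq_true] at hb
      cases i with
      | zero =>
        rw [List.getD_cons_zero]
        exact ⟨Nat.le_of_ble_eq_true hb.1, Nat.le_of_ble_eq_true hb.2⟩
      | succ i =>
        rw [List.getD_cons_succ]
        exact nz_spec (l := l) h i (by simpa using hi)

theorem sum_getD : ∀ (l : List ℕ), ∑ i ∈ range l.length, ((l.getD i 0 : ℕ) : ZMod 5) =
    ((suml l : ℕ) : ZMod 5)
  | [] => by simp [suml]
  | d :: l => by
    rw [List.length_cons, sum_range_succ', List.getD_cons_zero, suml, Nat.cast_add,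
      ← sum_getD l, add_comm]
    rfl

theorem pas_spec : ∀ {l : List ℕ} {y : ℕ}, pas y l = true → ∀ k, k < l.length →
    (y : ZMod 5) + ∑ i ∈ range (k + 1), ((l.getD i 0 : ℕ) : ZMod 5) ≠ 0
  | [], _, _, k, hk => absurd hk (by simp)
  | d :: l, y, h, k, hk => by
    rw [pas] at h
    cases hb : Nat.beq ((y + d) % 5) 0 with
    | true => rw [hb] at h; exact absurd h (by simp)
    | false =>
      rw [hb] at h
      have h1 := beq_false_ne hb
      cases k with
      | zero =>
        rw [sum_range_succ, sum_range_zero, zero_add, List.getD_cons_zero, ← Nat.cast_add]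
        intro h2
        apply h1
        have := (ZMod.natCast_eq_zero_iff _ _).1 h2
        omega
      | succ k =>
        have h2 := pas_spec (l := l) (y := (y + d) % 5) h k (by simpa using hk)
        intro h3
        apply h2
        rw [sum_range_succ'] at h3
        simp only [List.getD_cons_succ, List.getD_cons_zero] at h3
        rw [ZMod.natCast_mod, Nat.cast_add, ← h3]
        ring

theorem sum_le {n : ℕ} (f : ℕ → ZMod 5) (k : Fin n) :
    ∑ i ∈ univ.filter (fun i : Fin n => i ≤ k), f i.val = ∑ i ∈ range (k.val + 1), f i := by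
  refine Finset.sum_nbij (fun i => i.val) ?_ ?_ ?_ ?_
  · intro i hi
    rw [mem_filter] at hi
    have := Fin.le_def.1 hi.2
    exact mem_range.2 (by omega)
  · intro i _ j _ h
    exact Fin.ext h
  · intro m hm
    rw [mem_coe, mem_range] at hm
    refine ⟨⟨m, by omega⟩, ?_, rfl⟩
    rw [mem_coe, mem_filter]
    exact ⟨mem_univ _, Fin.le_def.2 (by show m ≤ k.val; omega)⟩
  · intro i _
    rfl

theorem adm_spec {n : ℕ} {l : List ℕ} (h : adm n l = true) : Adm (vec n l) ∧ l.length = n := by
  rw [adm, Bool.and_eq_true, Bool.and_eq_true] at h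
  obtain ⟨⟨h1, h2⟩, h3⟩ := h
  have hl : l.length = n := Nat.eq_of_beq_eq_true h2
  have hs : suml l % 5 = 0 := Nat.eq_of_beq_eq_true h3
  refine ⟨⟨fun i => ?_, ?_⟩, hl⟩
  · have h4 := nz_spec h1 i.val (by rw [hl]; exact i.isLt)
    unfold vec
    intro h5
    have h6 := (ZMod.natCast_eq_zero_iff _ _).1 h5
    omega
  · unfold vec
    rw [Fin.sum_univ_eq_sum_range (fun i => ((l.getD i 0 : ℕ) : ZMod 5)) n, ← hl, sum_getD]
    exact (ZMod.natCast_eq_zero_iff _ _).2 (Nat.dvd_of_mod_eq_zero hs)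

theorem ext_pas {l : List ℕ} (h : ext l = true) : ∃ y : ℕ, pas y l = true := by
  unfold ext at h
  simp only [Bool.or_eq_true] at h
  rcases h with (((h | h) | h) | h) | h
  exacts [⟨0, h⟩, ⟨1, h⟩, ⟨2, h⟩, ⟨3, h⟩, ⟨4, h⟩]

theorem ext_spec {n : ℕ} {l : List ℕ} (hl : l.length = n) (h : ext l = true) :
    Ext5 (vec n l) := by
  obtain ⟨y, hy⟩ := ext_pas h
  refine ⟨(y : ZMod 5), fun k => ?_⟩
  have h1 := pas_spec hy k.val (by rw [hl]; exact k.isLt)
  rw [← sum_le (fun i => ((l.getD i 0 : ℕ) : ZMod 5)) k] at h1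
  exact h1

/-! Permutations -/

theorem chi_perm {n : ℕ} (σ : Equiv.Perm (Fin n)) (g : Fin n → Fin n) (x : Fin n → ZMod 5) :
    chi (g ∘ σ) (x ∘ σ) = chi g x := by
  unfold chi
  have h : ∀ j, ∑ i ∈ univ.filter (fun i => (g ∘ σ) i = j), (x ∘ σ) i =
      ∑ i ∈ univ.filter (fun i => g i = j), x i := by
    intro j
    rw [sum_filter, sum_filter]
    exact Equiv.sum_comp σ (fun i => if g i = j then x i else 0)
  simp only [h]

theorem adm_perm {n : ℕ} (σ : Equiv.Perm (Fin n)) {x : Fin n → ZMod 5} (h : Adm x) :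
    Adm (x ∘ σ) := by
  refine ⟨fun i => h.1 _, ?_⟩
  have := Equiv.sum_comp σ x
  exact this.trans h.2

theorem sum_perm {n : ℕ} (σ : Equiv.Perm (Fin n)) (c : (Fin n → Fin n) → ℤ)
    (x : Fin n → ZMod 5) :
    ∑ g, c (g ∘ σ.symm) * chi g (x ∘ σ) = ∑ g, c g * chi g x := by
  refine Fintype.sum_equiv (Equiv.arrowCongr σ (Equiv.refl (Fin n))) _ _ (fun g => ?_)
  have h1 : (Equiv.arrowCongr σ (Equiv.refl (Fin n))) g = g ∘ σ.symm := rfl
  rw [h1]
  congr 1
  rw [← chi_perm σ (g ∘ σ.symm) x]
  congr 1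
  funext i
  simp

theorem sp_perm {n : ℕ} (σ : Equiv.Perm (Fin n))
    (hσ : ∀ y : Fin n → ZMod 5, Adm y → Ext5 y → Ext5 (y ∘ σ.symm))
    {x : Fin n → ZMod 5} (h : Sp (x ∘ σ)) : Sp x := by
  intro c hc
  rw [← sum_perm σ c x]
  refine h (fun g => c (g ∘ σ.symm)) (fun y hy he => ?_)
  have h1 := hc (y ∘ σ.symm) (adm_perm σ.symm hy) (hσ y hy he)
  rw [← sum_perm σ c] at h1
  have h2 : (y ∘ σ.symm) ∘ σ = y := by
    funext i
    simp
  rw [h2] at h1
  exact h1

/-! Extendable vectors -/

theorem sum_zero {m : ℕ} (x : Fin (m + 1) → ZMod 5) :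
    ∑ i ∈ univ.filter (fun i => i ≤ (0 : Fin (m + 1))), x i = x 0 := by
  have : univ.filter (fun i => i ≤ (0 : Fin (m + 1))) = {0} := by
    ext i
    simp
  rw [this, sum_singleton]

theorem sum_succ {m : ℕ} (x : Fin (m + 1) → ZMod 5) (k : Fin m) :
    ∑ i ∈ univ.filter (fun i => i ≤ k.succ), x i =
      ∑ i ∈ univ.filter (fun i => i ≤ k.castSucc), x i + x k.succ := by
  have h : univ.filter (fun i => i ≤ k.succ) =
      insert k.succ (univ.filter (fun i => i ≤ k.castSucc)) := by
    ext i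
    simp only [mem_filter, mem_univ, true_and, mem_insert]
    rw [Fin.le_def, Fin.le_def, Fin.ext_iff, Fin.val_succ, Fin.val_castSucc]
    omega
  rw [h, sum_insert, add_comm]
  simp only [mem_filter, mem_univ, true_and]
  rw [Fin.le_def, Fin.val_succ, Fin.val_castSucc]
  omega

theorem sum_last {m : ℕ} (x : Fin (m + 1) → ZMod 5) :
    ∑ i ∈ univ.filter (fun i => i ≤ Fin.last m), x i = ∑ i, x i := by
  congr 1
  ext i
  simp [Fin.le_last]

theorem ext_iff {m : ℕ} {x : Fin (m + 1) → ZMod 5} (hx : ∑ i, x i = 0) :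
    Ext5 x ↔ ∃ z : Fin (m + 1) → ZMod 5, (∀ k, z k ≠ 0) ∧ ∀ k, z (k + 1) = z k + x (k + 1) := by
  constructor
  · rintro ⟨y, hy⟩
    refine ⟨fun k => y + ∑ i ∈ univ.filter (fun i => i ≤ k), x i, hy, fun k => ?_⟩
    induction k using Fin.lastCases with
    | last =>
      rw [Fin.last_add_one]
      show y + ∑ i ∈ univ.filter (fun i => i ≤ (0 : Fin (m + 1))), x i =
        y + ∑ i ∈ univ.filter (fun i => i ≤ Fin.last m), x i + x 0
      rw [sum_zero, sum_last, hx, add_zero]
    | cast k =>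
      rw [Fin.coeSucc_eq_succ]
      show y + ∑ i ∈ univ.filter (fun i => i ≤ k.succ), x i =
        y + ∑ i ∈ univ.filter (fun i => i ≤ k.castSucc), x i + x k.succ
      rw [sum_succ]
      ring
  · rintro ⟨z, hz, h⟩
    refine ⟨z 0 - x 0, fun k => ?_⟩
    have key : z 0 - x 0 + ∑ i ∈ univ.filter (fun i => i ≤ k), x i = z k := by
      induction k using Fin.induction with
      | zero => rw [sum_zero]; ring
      | succ k ih =>
        rw [sum_succ, ← Fin.coeSucc_eq_succ, h, Fin.coeSucc_eq_succ, ← ih]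
        ring
    rw [key]
    exact hz k

theorem ext_rot {m : ℕ} {x : Fin (m + 1) → ZMod 5} (ha : Adm x) (h : Ext5 x) :
    Ext5 (x ∘ (finRotate (m + 1)).symm) := by
  have ha' := adm_perm (finRotate (m + 1)).symm ha
  rw [ext_iff ha.2] at h
  rw [ext_iff ha'.2]
  obtain ⟨z, hz, hs⟩ := h
  refine ⟨fun k => z (k - 1), fun k => hz _, fun k => ?_⟩
  have h1 : ∀ k : Fin (m + 1), (finRotate (m + 1)).symm k = k - 1 := by
    intro k
    rw [Equiv.symm_apply_eq, finRotate_apply, sub_add_cancel]
  show z (k + 1 - 1) = z (k - 1) + x ((finRotate (m + 1)).symm (k + 1))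
  rw [h1, add_sub_cancel_right]
  have := hs (k - 1)
  rw [sub_add_cancel] at this
  exact this

theorem rev_add_one {m : ℕ} (k : Fin (m + 1)) : Fin.rev (k + 1) = Fin.rev k - 1 := by
  have h : ∀ k : Fin (m + 1), Fin.rev k = Fin.last m - k := fun k => by
    rw [Fin.last_sub]
  rw [h, h, sub_add_eq_sub_sub]

theorem ext_rev {m : ℕ} {x : Fin (m + 1) → ZMod 5} (ha : Adm x) (h : Ext5 x) :
    Ext5 (x ∘ Fin.rev) := by
  have ha' : Adm (x ∘ Fin.rev) := adm_perm Fin.revPerm ha
  rw [ext_iff ha.2] at h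
  rw [ext_iff ha'.2]
  obtain ⟨z, hz, hs⟩ := h
  refine ⟨fun k => -z (Fin.rev k - 1), fun k => neg_ne_zero.2 (hz _), fun k => ?_⟩
  show -z (Fin.rev (k + 1) - 1) = -z (Fin.rev k - 1) + x (Fin.rev (k + 1))
  rw [rev_add_one]
  have := hs (Fin.rev k - 1 - 1)
  rw [sub_add_cancel] at this
  rw [this]
  ring

/-! The operations on lists -/

theorem rot1_length : ∀ l : List ℕ, (rot1 l).length = l.length
  | [] => rfl
  | d :: l => by rw [rot1, List.length_append]; rfl

theorem vec_rot1 {m : ℕ} {l : List ℕ} (hl : l.length = m + 1) :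
    vec (m + 1) (rot1 l) = vec (m + 1) l ∘ finRotate (m + 1) := by
  cases l with
  | nil => simp at hl
  | cons d l =>
    have hl' : l.length = m := by simpa using hl
    funext i
    rw [Function.comp_apply, finRotate_apply]
    unfold vec
    congr 1
    rw [rot1]
    induction i using Fin.lastCases with
    | last =>
      rw [Fin.last_add_one, Fin.val_last, List.getD_append_right _ _ _ _ hl'.le, hl', Nat.sub_self]
      rfl
    | cast i =>
      rw [Fin.coeSucc_eq_succ, Fin.val_succ, Fin.val_castSucc, List.getD_cons_succ,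
        List.getD_append _ _ _ _ (by rw [hl']; exact i.isLt)]

theorem vec_reverse {n : ℕ} {l : List ℕ} (hl : l.length = n) :
    vec n l.reverse = vec n l ∘ Fin.rev := by
  funext i
  unfold vec
  rw [Function.comp_apply]
  congr 1
  have hi : i.val < l.length := by rw [hl]; exact i.isLt
  have hr : (Fin.rev i).val < l.length := by rw [hl]; exact (Fin.rev i).isLt
  rw [List.getD_eq_getElem _ _ (by rw [List.length_reverse]; exact hi),
    List.getD_eq_getElem _ _ hr, List.getElem_reverse]
  congr 1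
  rw [Fin.val_rev, hl]
  omega

theorem scl_getD (c : ℕ) : ∀ (l : List ℕ) (i : ℕ), (scl c l).getD i 0 = l.getD i 0 * c % 5
  | [], i => by simp [scl]
  | d :: l, i => by
    rw [scl]
    cases i with
    | zero => rw [List.getD_cons_zero, List.getD_cons_zero]
    | succ i => rw [List.getD_cons_succ, List.getD_cons_succ, scl_getD c l i]

theorem sp_rot1 {n : ℕ} {l : List ℕ} (hl : l.length = n) (h : Sp (vec n (rot1 l))) :
    Sp (vec n l) := by
  cases n with
  | zero => rwa [Subsingleton.elim (vec 0 l) (vec 0 (rot1 l))]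
  | succ m =>
    rw [vec_rot1 hl] at h
    exact sp_perm _ (fun y hy he => ext_rot hy he) h

end Ck2

open Ck2

theorem sp_ext {n : ℕ} {l : List ℕ} (ha : adm n l = true) (he : ext l = true) :
    Sp (vec n l) := fun _ hc =>
  hc _ (adm_spec ha).1 (ext_spec (adm_spec ha).2 he)

theorem sp_rotk {n : ℕ} {l : List ℕ} (hl : l.length = n) (k : ℕ) (h : Sp (vec n (rotk k l))) :
    Sp (vec n l) := by
  induction k generalizing l with
  | zero => exact h
  | succ k ih => exact sp_rot1 hl (ih (by rw [rot1_length, hl]) h)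

theorem sp_reverse {n : ℕ} {l : List ℕ} (hl : l.length = n) (h : Sp (vec n l.reverse)) :
    Sp (vec n l) := by
  cases n with
  | zero => rwa [Subsingleton.elim (vec 0 l) (vec 0 l.reverse)]
  | succ m =>
    rw [vec_reverse hl] at h
    exact sp_perm Fin.revPerm (fun y hy he => ext_rev hy he) h

theorem sp_scl {n : ℕ} {l : List ℕ} (c : ℕ) (h1 : 1 ≤ c) (h4 : c ≤ 4)
    (h : Sp (vec n (scl c l))) : Sp (vec n l) := by
  have : Fact (Nat.Prime 5) := ⟨Nat.prime_five⟩
  have hc : (c : ZMod 5) ≠ 0 := by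
    intro h5
    have := (ZMod.natCast_eq_zero_iff _ _).1 h5
    omega
  have hv : ∀ i, vec n (scl c l) i = vec n l i * (c : ZMod 5) := by
    intro i
    unfold vec
    rw [scl_getD, ZMod.natCast_mod, Nat.cast_mul]
  have hchi : ∀ g, chi g (vec n (scl c l)) = chi g (vec n l) := by
    intro g
    unfold chi
    have : ∀ j, (∑ i ∈ univ.filter (fun i => g i = j), vec n (scl c l) i = 0) ↔
        (∑ i ∈ univ.filter (fun i => g i = j), vec n l i = 0) := by
      intro j
      simp only [hv]
      rw [← sum_mul, mul_eq_zero, or_iff_left hc]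
    simp only [this]
  intro c0 hc0
  have := h c0 hc0
  simp only [hchi] at this
  exact this

end Pool.Agent.TH362.FF.Ck
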