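import Pool.Agent.TH362.FF.Ck1
import Pool.Agent.TH362.FF.Ck2
import Mathlib.Algebra.BigOperators.Ring.Finset

/-!
Soundness of the chains of certificates.
-/

set_option autoImplicit false

namespace Pool.Agent.TH362.FF.Ck

open Finset

namespace Ck3

theorem eqL_eq : ∀ {l l' : List ℕ}, eqL l l' = true → l = l'
  | [], [], _ => rfl
  | [], _ :: _, h => by simp [eqL] at h
  | _ :: _, [], h => by simp [eqL] at h
  | a :: l, b :: l', h => by
    rw [eqL] at h
    cases hab : Nat.beq a b with
    | false => rw [hab] at h; simp at h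
    | true =>
      rw [hab] at h
      rw [Nat.eq_of_beq_eq_true hab, eqL_eq (l := l) (l' := l') h]

theorem mem_mem {l : List ℕ} : ∀ {K : List (List ℕ)}, mem l K = true → l ∈ K
  | [], h => by simp [mem] at h
  | a :: as, h => by
    rw [mem] at h
    cases ha : eqL l a with
    | true => rw [eqL_eq ha]; exact List.mem_cons_self
    | false =>
      rw [ha] at h
      exact List.mem_cons_of_mem _ (mem_mem (K := as) h)

theorem adm_length {n : ℕ} {l : List ℕ} (h : adm n l = true) : l.length = n := by
  rw [adm, Bool.and_eq_true, Bool.and_eq_true] at h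
  exact Nat.eq_of_beq_eq_true h.1.2

theorem okT_adm {n : ℕ} {K : List (List ℕ)} {l : List ℕ} {h : ℕ} (ho : okT n K l h = true) :
    adm n l = true := by
  rw [okT, Bool.and_eq_true] at ho
  exact ho.1

theorem okT_sp {n : ℕ} {K : List (List ℕ)} (hk : ∀ l ∈ K, Sp (vec n l)) {l : List ℕ} {h : ℕ}
    (ho : okT n K l h = true) : Sp (vec n l) := by
  have ha := okT_adm ho
  rw [okT, Bool.and_eq_true] at ho
  have h2 := ho.2
  cases h0 : Nat.beq h 0 with
  | true =>
    rw [h0] at h2
    exact sp_ext ha h2
  | false =>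
    rw [h0] at h2
    simp only [cond_false, Bool.and_eq_true] at h2
    obtain ⟨⟨h1, h4⟩, hm⟩ := h2
    have h1' := Nat.le_of_ble_eq_true h1
    have h4' := Nat.le_of_ble_eq_true h4
    have hs := sp_scl _ h1' h4' (hk _ (mem_mem hm))
    have hl := adm_length ha
    cases hr : Nat.beq (h / 10 % 10) 1 with
    | true =>
      rw [hr] at hs
      simp only [cond_true] at hs
      exact sp_reverse hl (sp_rotk (by rw [List.length_reverse]; exact hl) _ hs)
    | false =>
      rw [hr] at hs
      simp only [cond_false] at hs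
      exact sp_rotk hl _ hs

theorem okA_mem {n : ℕ} {K : List (List ℕ)} : ∀ {P : List (ℕ × ℕ × ℕ)}, okA n K P = true →
    ∀ t ∈ P, okT n K (digs n t.2.1) t.2.2 = true
  | [], _, t, ht => by simp at ht
  | (a, x, h) :: P, ho, t, ht => by
    rw [okA] at ho
    cases h1 : okT n K (digs n x) h with
    | false => rw [h1] at ho; simp at ho
    | true =>
      rw [h1] at ho
      rcases List.mem_cons.1 ht with rfl | ht
      · exact h1
      · exact okA_mem (P := P) ho t ht

/-- a combination of spanned vectors -/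
theorem sum_zero {n : ℕ} (c : (Fin n → Fin n) → ℤ)
    (hc : ∀ y : Fin n → ZMod 5, Adm y → Ext5 y → ∑ g, c g * chi g y = 0) :
    ∀ (P : List (ℕ × ℕ × ℕ)), (∀ t ∈ P, Sp (vec n (digs n t.2.1))) →
      ∑ g, c g * (P.map (fun t => (t.1 : ℤ) * chi g (vec n (digs n t.2.1)))).sum = 0
  | [], _ => by simp
  | t :: P, h => by
    have ih := sum_zero c hc P (fun t' ht' => h t' (List.mem_cons_of_mem _ ht'))
    have h1 := h t List.mem_cons_self c hc
    simp only [List.map_cons, List.sum_cons, mul_add, Finset.sum_add_distrib]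
    rw [ih, add_zero]
    calc ∑ g, c g * ((t.1 : ℤ) * chi g (vec n (digs n t.2.1)))
        = ∑ g, (t.1 : ℤ) * (c g * chi g (vec n (digs n t.2.1))) :=
          Finset.sum_congr rfl (fun g _ => by ring)
      _ = (t.1 : ℤ) * ∑ g, c g * chi g (vec n (digs n t.2.1)) := by rw [Finset.mul_sum]
      _ = 0 := by rw [h1, mul_zero]

theorem step_sp {n : ℕ} {K : List (List ℕ)} (hk : ∀ l ∈ K, Sp (vec n l)) {x D : ℕ}
    {P N : List (ℕ × ℕ × ℕ)} (h : step n K x D P N = true) : Sp (vec n (digs n x)) := by
  rw [step, Bool.and_eq_true, Bool.and_eq_true, Bool.and_eq_true, Bool.and_eq_true] at h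
  obtain ⟨⟨⟨⟨hx, hD⟩, hP⟩, hN⟩, hw⟩ := h
  intro c hc
  have hP' := okA_mem hP
  have hN' := okA_mem hN
  have hsP := sum_zero c hc P (fun t ht => okT_sp hk (hP' t ht))
  have hsN := sum_zero c hc N (fun t ht => okT_sp hk (hN' t ht))
  have hg := fun g => walk_sound n P N x D (fun t ht => okT_adm (hP' t ht))
    (fun t ht => okT_adm (hN' t ht)) hx hw g
  have hD' : (D : ℤ) ≠ 0 := by
    have := Nat.le_of_ble_eq_true hD
    exact_mod_cast (by omega : D ≠ 0)
  have h1 : ∑ g, c g * ((D : ℤ) * chi g (vec n (digs n x))) = 0 := by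
    have h2 : ∑ g, c g * ((D : ℤ) * chi g (vec n (digs n x))) =
        ∑ g, c g * (P.map (fun t => (t.1 : ℤ) * chi g (vec n (digs n t.2.1)))).sum -
        ∑ g, c g * (N.map (fun t => (t.1 : ℤ) * chi g (vec n (digs n t.2.1)))).sum := by
      rw [← Finset.sum_sub_distrib]
      refine Finset.sum_congr rfl (fun g _ => ?_)
      rw [hg g]
      ring
    rw [h2, hsP, hsN, sub_zero]
  have h3 : (D : ℤ) * ∑ g, c g * chi g (vec n (digs n x)) = 0 := by
    rw [← h1, Finset.mul_sum]
    exact Finset.sum_congr rfl (fun g _ => by ring)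
  exact (mul_eq_zero.1 h3).resolve_left hD'

end Ck3

theorem chain_sound (n : ℕ) (known : List (List ℕ)) (hk : ∀ l ∈ known, Sp (vec n l))
    (st : List (ℕ × ℕ × List (ℕ × ℕ × ℕ) × List (ℕ × ℕ × ℕ)))
    (h : chain n known st = true) : ∀ s ∈ st, Sp (vec n (digs n s.1)) := by
  induction st generalizing known with
  | nil => intro s hs; simp at hs
  | cons s₀ st ih =>
    obtain ⟨x, D, P, N⟩ := s₀
    rw [chain] at h
    cases h1 : step n known x D P N with
    | false => rw [h1] at h; simp at h
    | true =>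
      rw [h1] at h
      have hx := Ck3.step_sp hk h1
      intro s hs
      rcases List.mem_cons.1 hs with rfl | hs
      · exact hx
      · refine ih (digs n x :: known) ?_ h s hs
        intro l hl
        rcases List.mem_cons.1 hl with rfl | hl
        · exact hx
        · exact hk l hl

end Pool.Agent.TH362.FF.Ck
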