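import Pool.Agent.TH362.FF.Tra
import Mathlib.Algebra.BigOperators.Ring.Finset
import Mathlib.Tactic.LinearCombination

/-!
Reductions of a minimal counterexample to the statement on flows with values in the group of order
five: there are no loops, no cuts with at most three edges and an edge on both sides, no vertices
of degree one or two, no cuts of size two, and no parallel edges.
-/

set_option autoImplicit false
set_option linter.unusedSectionVars false

namespace Pool.Agent.TH362.FF

open Finset Pool.Agent.TH362.TF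

namespace Cut

section
variable {V E : Type} [Fintype V] [DecidableEq V] [Fintype E] [DecidableEq E]

omit [Fintype V] [Fintype E] [DecidableEq E] in
/-- the contribution of the edge `e` at the vertex `v` -/
def dm (s t : E → V) (φ : E → ZMod 5) (v : V) (e : E) : ZMod 5 :=
  (if s e = v then φ e else 0) - (if t e = v then φ e else 0)

omit [Fintype V] [Fintype E] [DecidableEq E] in
lemma bd_eq (s t : E → V) (S : Finset E) (φ : E → ZMod 5) (v : V) :
    bd s t S φ v = ∑ e ∈ S, dm s t φ v e := rfl

omit [Fintype V] [DecidableEq V] [Fintype E] [DecidableEq E] in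
lemma cut_not (s t : E → V) (S : Finset E) (x : V → Bool) :
    cut s t S (fun v => !x v) = cut s t S x := by
  unfold cut
  apply filter_congr
  intro e _
  have : ∀ a b : Bool, (!a) ≠ (!b) ↔ a ≠ b := by decide
  exact this _ _

omit [Fintype E] [DecidableEq E] in
lemma flow_cut {s t : E → V} {S : Finset E} {φ : E → ZMod 5} (x : V → Bool)
    (h : ∀ v, x v = true → bd s t S φ v = 0) :
    ∑ e ∈ cut s t S x, (if x (s e) = true then φ e else -φ e) = 0 := by
  have h1 : ∑ v ∈ univ.filter (fun v => x v = true),
      ∑ e ∈ S, ((if s e = v then φ e else 0) - (if t e = v then φ e else 0)) = 0 :=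
    Finset.sum_eq_zero fun v hv => h v (by simpa using hv)
  rw [Finset.sum_comm] at h1
  refine Eq.trans ?_ h1
  unfold cut
  rw [Finset.sum_filter]
  refine Finset.sum_congr rfl fun e _ => ?_
  rw [Finset.sum_sub_distrib, Finset.sum_ite_eq, Finset.sum_ite_eq]
  simp only [Finset.mem_filter, Finset.mem_univ, true_and]
  cases x (s e) <;> cases x (t e) <;> simp

omit [Fintype E] [DecidableEq E] in
lemma flow_cut' {s t : E → V} {S : Finset E} {φ : E → ZMod 5} (x : V → Bool)
    (h : ∀ v, x v = false → bd s t S φ v = 0) :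
    ∑ e ∈ cut s t S x, (if x (s e) = true then φ e else -φ e) = 0 := by
  have h1 := flow_cut (s := s) (t := t) (S := S) (φ := φ) (fun v => !x v) (by
    intro v hv
    exact h v (by simpa using hv))
  rw [cut_not] at h1
  have h2 : ∑ e ∈ cut s t S x, (if x (s e) = true then φ e else -φ e) =
      -∑ e ∈ cut s t S x, (if (!x (s e)) = true then φ e else -φ e) := by
    rw [← Finset.sum_neg_distrib]
    refine Finset.sum_congr rfl fun e _ => ?_
    cases x (s e) <;> simp
  rw [h2, h1, neg_zero]

/-- a flow of the quotient in which the side `x = true` is one vertex -/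
lemma side {s t : E → V} {S : Finset E} (h : MinR s t S) (x : V → Bool) (e1 : E) (he1 : e1 ∈ S)
    (h1 : x (s e1) = true) (h2 : x (t e1) = true) :
    ∃ φ : E → ZMod 5, (∀ e ∈ S, ¬ (x (s e) = true ∧ x (t e) = true) → φ e ≠ 0) ∧
      (∀ v, x v = false → bd s t S φ v = 0) := by
  set S1 : Finset E := S.filter (fun e => ¬ (x (s e) = true ∧ x (t e) = true)) with hS1
  have hsub : S1 ⊆ S := filter_subset _ _
  have hlt : S1.card < S.card := by
    apply card_lt_card
    refine ⟨hsub, fun hh => ?_⟩
    have := hh he1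
    rw [hS1, mem_filter] at this
    exact this.2 ⟨h1, h2⟩
  obtain ⟨φ, hφ1, hφ2⟩ := h.ih (fun v => if x v = true then s e1 else v) S1 hsub (by
    intro e he he'
    have : x (s e) = true ∧ x (t e) = true := by
      by_contra hh
      exact he' (mem_filter.2 ⟨he, hh⟩)
    simp only [this.1, this.2, if_true]) hlt
  have hcons : ∀ v, x v = false → bd s t S φ v = 0 := by
    intro v hv
    have h3 := hφ2 v
    have key : ∀ u : V, ((if x u = true then s e1 else u) = v) ↔ u = v := by
      intro u
      by_cases hu : x u = true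
      · rw [if_pos hu]
        constructor
        · intro hh
          rw [← hh, h1] at hv
          exact absurd hv (by decide)
        · intro hh
          rw [hh, hv] at hu
          exact absurd hu (by decide)
      · rw [if_neg hu]
    rw [bd_eq] at h3 ⊢
    have h4 : ∑ e ∈ S1, dm (fun e => if x (s e) = true then s e1 else s e)
        (fun e => if x (t e) = true then s e1 else t e) φ v e = ∑ e ∈ S1, dm s t φ v e := by
      refine sum_congr rfl fun e _ => ?_
      unfold dm
      simp only [key]
    rw [← h3, h4]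
    symm
    apply sum_subset hsub
    intro e he he'
    have h5 : x (s e) = true ∧ x (t e) = true := by
      by_contra hh
      exact he' (mem_filter.2 ⟨he, hh⟩)
    unfold dm
    rw [if_neg, if_neg, sub_zero]
    · intro hh
      rw [hh, hv] at h5
      exact absurd h5.2 (by decide)
    · intro hh
      rw [hh, hv] at h5
      exact absurd h5.1 (by decide)
  exact ⟨φ, fun e he hh => hφ1 e (mem_filter.2 ⟨he, hh⟩), hcons⟩

lemma unit_aux0 : ∀ a a' : ZMod 5, a ≠ 0 → a' ≠ 0 → ∃ u : ZMod 5, u ≠ 0 ∧ u * a = a' := by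
  decide

lemma unit_aux (a b a' b' : ZMod 5) (p q : Bool) (ha : a ≠ 0)
    (h : (if p = true then a else -a) + (if q = true then b else -b) = 0)
    (h' : (if p = true then a' else -a') + (if q = true then b' else -b') = 0) (ha' : a' ≠ 0) :
    ∃ u : ZMod 5, u ≠ 0 ∧ u * a = a' ∧ u * b = b' := by
  obtain ⟨u, hu, hu1⟩ := unit_aux0 a a' ha ha'
  refine ⟨u, hu, hu1, ?_⟩
  cases p <;> cases q <;> simp only [Bool.false_eq_true, if_false, if_true] at h h'
  · linear_combination (-u) * h + h' - hu1
  · linear_combination u * h - h' + hu1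
  · linear_combination (-u) * h + h' + hu1
  · linear_combination u * h - h' - hu1

lemma mul_ne : ∀ (u a : ZMod 5), u ≠ 0 → a ≠ 0 → u * a ≠ 0 := by decide

/-- adjustment of the values on a small cut -/
lemma adjust {s t : E → V} {S : Finset E} (x : V → Bool) (hn : (cut s t S x).card ≠ 1)
    (hx : (cut s t S x).card ≤ 3) (φ ψ : E → ZMod 5)
    (h1 : ∀ e ∈ S, (x (s e) = true ∨ x (t e) = true) → φ e ≠ 0)
    (h2 : ∀ v, x v = true → bd s t S φ v = 0) (h3 : ∀ e ∈ cut s t S x, ψ e ≠ 0)
    (h4 : ∑ e ∈ cut s t S x, (if x (s e) = true then ψ e else -ψ e) = 0) :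
    ∃ φ' : E → ZMod 5, (∀ e ∈ S, (x (s e) = true ∨ x (t e) = true) → φ' e ≠ 0) ∧
      (∀ v, x v = true → bd s t S φ' v = 0) ∧ ∀ e ∈ cut s t S x, φ' e = ψ e := by
  have hcase : (cut s t S x).card = 0 ∨ (cut s t S x).card = 2 ∨ (cut s t S x).card = 3 := by
    omega
  rcases hcase with hc | hc | hc
  · rw [card_eq_zero] at hc
    refine ⟨φ, h1, h2, ?_⟩
    intro e he
    rw [hc] at he
    simp at he
  · obtain ⟨c, c', hcc, hC⟩ := card_eq_two.1 hc
    have h5 := flow_cut x h2
    rw [hC, sum_pair hcc] at h4 h5
    have hcm : c ∈ cut s t S x := by rw [hC]; simp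
    have hcm' : c' ∈ cut s t S x := by rw [hC]; simp
    have hph : ∀ e ∈ cut s t S x, φ e ≠ 0 := by
      intro e he
      rw [cut, mem_filter] at he
      apply h1 e he.1
      by_contra hh
      push Not at hh
      apply he.2
      cases ha : x (s e) <;> cases hb : x (t e) <;> simp_all
    obtain ⟨u, hu, hu1, hu2⟩ := unit_aux (φ c) (φ c') (ψ c) (ψ c') (x (s c)) (x (s c'))
      (hph c hcm) h5 h4 (h3 c hcm)
    refine ⟨fun e => u * φ e, fun e he hh => mul_ne _ _ hu (h1 e he hh), ?_, ?_⟩
    · intro v hv
      have h6 := h2 v hv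
      have h7 : bd s t S (fun e => u * φ e) v = u * bd s t S φ v := by
        unfold bd
        rw [Finset.mul_sum]
        refine sum_congr rfl fun e _ => ?_
        split_ifs <;> ring
      rw [h7, h6, mul_zero]
    · intro e he
      rw [hC, mem_insert, mem_singleton] at he
      rcases he with rfl | rfl
      · exact hu1
      · exact hu2
  · exact transfer3 s t S x hc φ ψ h1 h2 h3 h4

omit [Fintype E] [DecidableEq E] in
/-- if no edge of `S` has both ends in `x = c`, the degrees on that side add up to the cut -/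
lemma sum_deg {s t : E → V} {S : Finset E} {x : V → Bool} {c : Bool}
    (h : ∀ e ∈ S, ¬ (x (s e) = c ∧ x (t e) = c)) :
    ∑ v ∈ univ.filter (fun v => x v = c), deg s t S v = (cut s t S x).card := by
  unfold deg cut
  rw [Finset.sum_comm, Finset.card_filter]
  refine Finset.sum_congr rfl fun e he => ?_
  rw [Finset.sum_add_distrib, Finset.sum_ite_eq, Finset.sum_ite_eq]
  simp only [Finset.mem_filter, Finset.mem_univ, true_and]
  have h1 := h e he
  cases hs : x (s e) <;> cases ht : x (t e) <;> cases c <;> simp_all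

omit [Fintype E] [DecidableEq E] in
lemma deg_eq_cut {s t : E → V} {S : Finset E} (h : ∀ e ∈ S, s e ≠ t e) (v : V) :
    (cut s t S (fun u => decide (u = v))).card = deg s t S v := by
  have h1 : ∀ e ∈ S, ¬ ((fun u => decide (u = v)) (s e) = true ∧
      (fun u => decide (u = v)) (t e) = true) := by
    intro e he h2
    simp only [decide_eq_true_eq] at h2
    exact h e he (h2.1.trans h2.2.symm)
  rw [← sum_deg h1]
  have h3 : univ.filter (fun u => (fun u => decide (u = v)) u = true) = {v} := by
    ext u
    simp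
  rw [h3, Finset.sum_singleton]

end

end Cut

open Cut

variable {V E : Type} [Fintype V] [DecidableEq V] [Fintype E] [DecidableEq E]

theorem MinR.noloop {s t : E → V} {S : Finset E} (h : MinR s t S) : ∀ e ∈ S, s e ≠ t e := by
  intro e he hst
  obtain ⟨φ, hφ1, hφ2⟩ := h.ih (fun v => v) (S.erase e) (erase_subset _ _) (by
      intro e' he' hn
      have : e' = e := by
        by_contra hh
        exact hn (mem_erase.2 ⟨hh, he'⟩)
      rw [this]
      exact hst) (card_erase_lt_of_mem he)
  apply h.nz
  refine ⟨Function.update φ e 1, ?_, ?_⟩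
  · intro e' he'
    by_cases hh : e' = e
    · subst hh
      rw [Function.update_self]
      decide
    · rw [Function.update_of_ne hh]
      exact hφ1 e' (mem_erase.2 ⟨hh, he'⟩)
  · intro v
    have h3 := hφ2 v
    rw [bd_eq] at h3 ⊢
    rw [← add_sum_erase _ _ he]
    have h4 : dm s t (Function.update φ e 1) v e = 0 := by
      unfold dm
      rw [hst]
      exact sub_self _
    rw [h4, zero_add, ← h3]
    refine sum_congr rfl fun e' he' => ?_
    unfold dm
    rw [Function.update_of_ne (mem_erase.1 he').1]

theorem MinR.smallcut {s t : E → V} {S : Finset E} (h : MinR s t S) (x : V → Bool)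
    (hx : (cut s t S x).card ≤ 3) :
    (∀ e ∈ S, ¬ (x (s e) = true ∧ x (t e) = true)) ∨
      (∀ e ∈ S, ¬ (x (s e) = false ∧ x (t e) = false)) := by
  by_contra hcon
  push Not at hcon
  obtain ⟨⟨e1, he1, h11, h12⟩, ⟨e2, he2, h21, h22⟩⟩ := hcon
  obtain ⟨φ1, n1, c1⟩ := side h x e1 he1 h11 h12
  obtain ⟨φ2, n2, c2⟩ := side h (fun v => !x v) e2 he2 (by simp [h21]) (by simp [h22])
  have hcutmem : ∀ c ∈ cut s t S x, c ∈ S ∧ x (s c) ≠ x (t c) := by
    intro c hc
    rw [cut, mem_filter] at hc
    exact hc
  obtain ⟨φ', m1, m2, m3⟩ := adjust (s := s) (t := t) (S := S) x (h.n1 x) hx φ2 φ1 (by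
      intro e he hh
      apply n2 e he
      simp only [Bool.not_eq_true']
      rintro ⟨h3, h4⟩
      rcases hh with h5 | h5
      · rw [h3] at h5; exact absurd h5 (by decide)
      · rw [h4] at h5; exact absurd h5 (by decide)) (by
      intro v hv
      exact c2 v (by simp [hv])) (by
      intro c hc
      have h3 := hcutmem c hc
      exact n1 c h3.1 (fun hh => h3.2 (hh.1.trans hh.2.symm))) (flow_cut' x c1)
  apply h.nz
  refine ⟨fun e => if x (s e) = true ∨ x (t e) = true then φ' e else φ1 e, ?_, ?_⟩
  · intro e he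
    by_cases hh : x (s e) = true ∨ x (t e) = true
    · simp only [if_pos hh]
      exact m1 e he hh
    · simp only [if_neg hh]
      apply n1 e he
      intro h3
      exact hh (Or.inl h3.1)
  · intro v
    cases hv : x v
    · have h5 := c1 v hv
      rw [bd_eq] at h5 ⊢
      rw [← h5]
      refine sum_congr rfl fun e he => ?_
      have h9 : (s e = v ∨ t e = v) → (if x (s e) = true ∨ x (t e) = true then φ' e
          else φ1 e) = φ1 e := by
        intro hor
        by_cases hh : x (s e) = true ∨ x (t e) = true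
        · rw [if_pos hh]
          apply m3
          rw [cut, mem_filter]
          refine ⟨he, fun heq => ?_⟩
          have h10 : x (s e) = true ∧ x (t e) = true := by
            rcases hh with h10 | h10
            · exact ⟨h10, heq ▸ h10⟩
            · exact ⟨heq ▸ h10, h10⟩
          rcases hor with h11 | h11
          · rw [h11, hv] at h10; exact absurd h10.1 (by decide)
          · rw [h11, hv] at h10; exact absurd h10.2 (by decide)
        · rw [if_neg hh]
      unfold dm
      beta_reduce
      by_cases h6 : s e = v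
      · rw [h9 (Or.inl h6)]
      · by_cases h7 : t e = v
        · rw [h9 (Or.inr h7)]
        · simp only [if_neg h6, if_neg h7]
    · have h5 := m2 v hv
      rw [bd_eq] at h5 ⊢
      rw [← h5]
      refine sum_congr rfl fun e he => ?_
      unfold dm
      beta_reduce
      by_cases h6 : s e = v
      · rw [if_pos (show x (s e) = true ∨ x (t e) = true from Or.inl (by rw [h6]; exact hv))]
      · by_cases h7 : t e = v
        · rw [if_pos (show x (s e) = true ∨ x (t e) = true from Or.inr (by rw [h7]; exact hv))]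
        · simp only [if_neg h6, if_neg h7]

theorem Cut.deg2 {s t : E → V} {S : Finset E} (h : MinR s t S) (v : V) : deg s t S v ≠ 2 := by
  intro hd
  have hcard : (S.filter (fun e => s e = v ∨ t e = v)).card = 2 := by
    rw [← hd, card_filter]
    unfold deg
    refine sum_congr rfl fun e he => ?_
    have := h.noloop e he
    by_cases h1 : s e = v
    · by_cases h2 : t e = v
      · exact absurd (h1.trans h2.symm) this
      · simp [h1, h2]
    · by_cases h2 : t e = v
      · simp [h1, h2]
      · simp [h1, h2]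
  obtain ⟨e, f, hef, hA⟩ := card_eq_two.1 hcard
  have heA : e ∈ S ∧ (s e = v ∨ t e = v) := by
    have : e ∈ S.filter (fun e => s e = v ∨ t e = v) := by rw [hA]; simp
    exact mem_filter.1 this
  have hfA : f ∈ S ∧ (s f = v ∨ t f = v) := by
    have : f ∈ S.filter (fun e => s e = v ∨ t e = v) := by rw [hA]; simp
    exact mem_filter.1 this
  have hoth : ∀ e' ∈ S, e' ≠ e → e' ≠ f → s e' ≠ v ∧ t e' ≠ v := by
    intro e' he' h1 h2
    by_contra hh
    have : e' ∈ S.filter (fun e => s e = v ∨ t e = v) := by
      rw [mem_filter]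
      refine ⟨he', ?_⟩
      by_contra h3
      push Not at h3
      exact hh h3
    rw [hA, mem_insert, mem_singleton] at this
    rcases this with h3 | h3
    · exact h1 h3
    · exact h2 h3
  obtain ⟨a, hav, hends⟩ : ∃ a, a ≠ v ∧ ((s e = v ∧ t e = a) ∨ (s e = a ∧ t e = v)) := by
    have hl := h.noloop e heA.1
    rcases heA.2 with h1 | h1
    · exact ⟨t e, fun hh => hl (h1.trans hh.symm), Or.inl ⟨h1, rfl⟩⟩
    · exact ⟨s e, fun hh => hl (hh.trans h1.symm), Or.inr ⟨rfl, h1⟩⟩
  obtain ⟨φ, hφ1, hφ2⟩ := h.ih (fun u => if u = v then a else u) (S.erase e)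
    (erase_subset _ _) (by
      intro e' he' hn
      have : e' = e := by
        by_contra hh
        exact hn (mem_erase.2 ⟨hh, he'⟩)
      rw [this]
      rcases hends with ⟨h1, h2⟩ | ⟨h1, h2⟩
      · simp [h1, h2]
      · simp [h1, h2]) (card_erase_lt_of_mem heA.1)
  have hfe : f ∈ S.erase e := mem_erase.2 ⟨hef.symm, hfA.1⟩
  have sumv : ∑ e' ∈ S.erase e, dm s t φ v e' = dm s t φ v f := by
    rw [sum_eq_single_of_mem f hfe]
    intro e' he' hne
    have := hoth e' (mem_erase.1 he').2 (mem_erase.1 he').1 hne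
    unfold dm
    rw [if_neg this.1, if_neg this.2, sub_zero]
  have hDne : dm s t φ v f ≠ 0 := by
    have h1 := hφ1 f hfe
    have h2 := h.noloop f hfA.1
    unfold dm
    rcases hfA.2 with h3 | h3
    · rw [if_pos h3, if_neg (fun hh => h2 (h3.trans hh.symm)), sub_zero]
      exact h1
    · rw [if_neg (fun hh => h2 (hh.trans h3.symm)), if_pos h3, zero_sub]
      exact neg_ne_zero.2 h1
  obtain ⟨D, hD⟩ : ∃ D, D = dm s t φ v f := ⟨_, rfl⟩
  rw [← hD] at sumv hDne
  obtain ⟨val, hval⟩ : ∃ val : ZMod 5, val = if s e = v then -D else D := ⟨_, rfl⟩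
  have hval0 : val ≠ 0 := by
    rw [hval]
    split_ifs
    · exact neg_ne_zero.2 hDne
    · exact hDne
  have hupd : ∀ u, ∑ e' ∈ S.erase e, dm s t (Function.update φ e val) u e' =
      ∑ e' ∈ S.erase e, dm s t φ u e' := by
    intro u
    refine sum_congr rfl fun e' he' => ?_
    unfold dm
    rw [Function.update_of_ne (mem_erase.1 he').1]
  have hev : dm s t (Function.update φ e val) v e = -D := by
    unfold dm
    rw [Function.update_self, hval]
    rcases hends with ⟨h1, h2⟩ | ⟨h1, h2⟩
    · rw [h1, h2, if_pos rfl, if_neg hav, if_pos rfl, sub_zero]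
    · rw [h1, h2, if_neg hav, if_neg hav, if_pos rfl, zero_sub]
  have hea : dm s t (Function.update φ e val) a e = D := by
    unfold dm
    rw [Function.update_self, hval]
    rcases hends with ⟨h1, h2⟩ | ⟨h1, h2⟩
    · rw [h1, h2, if_neg (Ne.symm hav), if_pos rfl, if_pos rfl, zero_sub, neg_neg]
    · rw [h1, h2, if_pos rfl, if_neg (Ne.symm hav), if_neg hav, sub_zero]
  apply h.nz
  refine ⟨Function.update φ e val, ?_, ?_⟩
  · intro e' he'
    by_cases hh : e' = e
    · subst hh
      rw [Function.update_self]
      exact hval0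
    · rw [Function.update_of_ne hh]
      exact hφ1 e' (mem_erase.2 ⟨hh, he'⟩)
  · intro u
    rw [bd_eq, ← add_sum_erase _ _ heA.1, hupd]
    by_cases huv : u = v
    · subst huv
      rw [sumv, hev, neg_add_cancel]
    by_cases hua : u = a
    · subst hua
      have h3 := hφ2 u
      rw [bd_eq] at h3
      rw [hea, ← sumv, ← sum_add_distrib, ← h3]
      refine sum_congr rfl fun e' _ => ?_
      have key : ∀ (w : V) (c : ZMod 5), (if (if w = v then u else w) = u then c else 0) =
          (if w = v then c else 0) + (if w = u then c else 0) := by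
        intro w c
        by_cases hw : w = v
        · subst hw
          rw [if_pos rfl, if_pos rfl, if_pos rfl, if_neg (Ne.symm huv), add_zero]
        · rw [if_neg hw, if_neg hw, zero_add]
      unfold dm
      rw [key, key]
      ring
    · have h3 := hφ2 u
      rw [bd_eq] at h3
      have h4 : dm s t (Function.update φ e val) u e = 0 := by
        unfold dm
        rcases hends with ⟨h1, h2⟩ | ⟨h1, h2⟩
        · rw [h1, h2, if_neg (Ne.symm huv), if_neg (Ne.symm hua), sub_zero]
        · rw [h1, h2, if_neg (Ne.symm huv), if_neg (Ne.symm hua), sub_zero]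
      rw [h4, zero_add, ← h3]
      refine sum_congr rfl fun e' _ => ?_
      have key : ∀ (w : V), ((if w = v then a else w) = u) ↔ w = u := by
        intro w
        by_cases hw : w = v
        · rw [if_pos hw, hw]
          exact ⟨fun hh => absurd hh.symm hua, fun hh => absurd hh.symm huv⟩
        · rw [if_neg hw]
      unfold dm
      simp only [key]

theorem MinR.deg_ge {s t : E → V} {S : Finset E} (h : MinR s t S) (v : V) :
    deg s t S v = 0 ∨ 3 ≤ deg s t S v := by
  have h1 : deg s t S v ≠ 1 := by
    rw [← deg_eq_cut h.noloop v]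
    exact h.n1 _
  have h2 := Cut.deg2 h v
  omega

theorem Cut.side' {s t : E → V} {S : Finset E} (h : MinR s t S) (x : V → Bool)
    (hx : (cut s t S x).card ≤ 3) :
    ∃ c : Bool, ∑ v ∈ univ.filter (fun v => x v = c), deg s t S v = (cut s t S x).card := by
  rcases h.smallcut x hx with h1 | h1
  · exact ⟨true, sum_deg h1⟩
  · exact ⟨false, sum_deg h1⟩

theorem Cut.exists_deg {s t : E → V} {S : Finset E} (h : MinR s t S) (x : V → Bool)
    (hx : (cut s t S x).card ≤ 3) (hx0 : (cut s t S x).card ≠ 0) :
    ∃ v, 3 ≤ deg s t S v ∧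
      ∑ u ∈ univ.filter (fun u => x u = x v), deg s t S u = (cut s t S x).card := by
  obtain ⟨c, hc⟩ := Cut.side' h x hx
  by_contra hno
  push Not at hno
  have h0 : ∀ v ∈ univ.filter (fun v => x v = c), deg s t S v = 0 := by
    intro v hv
    have hv' : x v = c := (Finset.mem_filter.1 hv).2
    rcases h.deg_ge v with h1 | h1
    · exact h1
    · refine absurd ?_ (hno v h1)
      rw [hv']
      exact hc
  rw [Finset.sum_eq_zero h0] at hc
  exact hx0 hc.symm

theorem MinR.no2 {s t : E → V} {S : Finset E} (h : MinR s t S) (x : V → Bool) :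
    (cut s t S x).card ≠ 2 := by
  intro h2
  obtain ⟨v, hv, hsum⟩ := Cut.exists_deg h x (by omega) (by omega)
  have h1 : deg s t S v ≤ ∑ u ∈ univ.filter (fun u => x u = x v), deg s t S u :=
    Finset.single_le_sum (f := fun u => deg s t S u) (fun _ _ => Nat.zero_le _)
      (Finset.mem_filter.2 ⟨Finset.mem_univ _, rfl⟩)
  omega

theorem MinR.triv3 {s t : E → V} {S : Finset E} (h : MinR s t S) (x : V → Bool)
    (hx : (cut s t S x).card = 3) :
    ∃ v, deg s t S v = 3 ∧ ∀ u, x u = x v → u ≠ v → deg s t S u = 0 := by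
  obtain ⟨v, hv, hsum⟩ := Cut.exists_deg h x (by omega) (by omega)
  have hvm : v ∈ univ.filter (fun u => x u = x v) := Finset.mem_filter.2 ⟨Finset.mem_univ _, rfl⟩
  rw [← add_sum_erase _ _ hvm, hx] at hsum
  have h0 : ∑ u ∈ (univ.filter (fun u => x u = x v)).erase v, deg s t S u = 0 := by omega
  refine ⟨v, by omega, ?_⟩
  intro u hu huv
  rw [Finset.sum_eq_zero_iff] at h0
  exact h0 u (mem_erase.2 ⟨huv, Finset.mem_filter.2 ⟨Finset.mem_univ _, hu⟩⟩)

theorem MinR.conn {s t : E → V} {S : Finset E} (h : MinR s t S) (x : V → Bool)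
    (hx : cut s t S x = ∅) : (∀ v, x v = true → deg s t S v = 0) ∨
      (∀ v, x v = false → deg s t S v = 0) := by
  have h0 : ∀ c : Bool, ∑ v ∈ univ.filter (fun v => x v = c), deg s t S v = (cut s t S x).card →
      ∀ v, x v = c → deg s t S v = 0 := by
    intro c hc v hv
    rw [hx, card_empty, Finset.sum_eq_zero_iff] at hc
    exact hc v (Finset.mem_filter.2 ⟨Finset.mem_univ _, hv⟩)
  rcases h.smallcut x (by rw [hx]; simp) with h1 | h1
  · exact Or.inl (h0 true (sum_deg h1))
  · exact Or.inr (h0 false (sum_deg h1))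

theorem Cut.two_vals : ∀ (D : ZMod 5) (p q : Bool), ∃ a b : ZMod 5, a ≠ 0 ∧ b ≠ 0 ∧
    (if p = true then a else -a) + (if q = true then b else -b) = -D := by decide

theorem MinR.nodigon {s t : E → V} {S : Finset E} (h : MinR s t S) {u v : V} {e e' : E}
    (he : e ∈ S) (he' : e' ∈ S) (hee : e ≠ e')
    (h1 : Ends s t u v e) (h2 : Ends s t u v e') : False := by
  have huv : u ≠ v := by
    intro huv
    subst huv
    apply h.noloop e he
    rcases h1 with h3 | h3
    · rw [h3.1, h3.2]
    · rw [h3.1, h3.2]
  obtain ⟨φ, hφ1, hφ2⟩ := h.ih (fun w => if w = v then u else w) ((S.erase e).erase e')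
    ((erase_subset _ _).trans (erase_subset _ _)) (by
      intro g hg hn
      have hg' : g = e ∨ g = e' := by
        by_contra hh
        push Not at hh
        exact hn (mem_erase.2 ⟨hh.2, mem_erase.2 ⟨hh.1, hg⟩⟩)
      have key : ∀ g, Ends s t u v g →
          (if s g = v then u else s g) = (if t g = v then u else t g) := by
        intro g hg
        rcases hg with ⟨h3, h4⟩ | ⟨h3, h4⟩
        · rw [h3, h4, if_neg huv, if_pos rfl]
        · rw [h3, h4, if_neg huv, if_pos rfl]
      rcases hg' with rfl | rfl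
      · exact key _ h1
      · exact key _ h2)
    ((card_le_card (erase_subset _ _)).trans_lt (card_erase_lt_of_mem he))
  obtain ⟨D, hD⟩ : ∃ D, D = ∑ g ∈ (S.erase e).erase e', dm s t φ v g := ⟨_, rfl⟩
  obtain ⟨a, b, ha, hb, hab⟩ := Cut.two_vals D (decide (s e = v)) (decide (s e' = v))
  simp only [decide_eq_true_eq] at hab
  obtain ⟨ψ, hψ⟩ : ∃ ψ : E → ZMod 5, ψ = Function.update (Function.update φ e a) e' b :=
    ⟨_, rfl⟩
  have hψe : ψ e = a := by
    rw [hψ, Function.update_of_ne hee, Function.update_self]
  have hψe' : ψ e' = b := by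
    rw [hψ, Function.update_self]
  have hψo : ∀ g, g ≠ e → g ≠ e' → ψ g = φ g := by
    intro g hg hg'
    rw [hψ, Function.update_of_ne hg', Function.update_of_ne hg]
  have he2 : e' ∈ S.erase e := mem_erase.2 ⟨Ne.symm hee, he'⟩
  have hsplit : ∀ w, bd s t S ψ w = dm s t ψ w e + (dm s t ψ w e' +
      ∑ g ∈ (S.erase e).erase e', dm s t φ w g) := by
    intro w
    rw [bd_eq, ← add_sum_erase _ _ he, ← add_sum_erase _ _ he2]
    congr 2
    refine sum_congr rfl fun g hg => ?_
    have hg1 := (mem_erase.1 hg).1
    have hg2 := (mem_erase.1 (mem_erase.1 hg).2).1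
    unfold dm
    rw [hψo g hg2 hg1]
  have dmv : ∀ g, Ends s t u v g → dm s t ψ v g = if s g = v then ψ g else -ψ g := by
    intro g hg
    unfold dm
    rcases hg with ⟨h3, h4⟩ | ⟨h3, h4⟩
    · rw [h3, h4, if_neg huv, if_pos rfl, if_neg huv, zero_sub]
    · rw [h3, h4, if_pos rfl, if_neg huv, if_pos rfl, sub_zero]
  have dmu : ∀ g, Ends s t u v g → dm s t ψ u g = -(if s g = v then ψ g else -ψ g) := by
    intro g hg
    unfold dm
    rcases hg with ⟨h3, h4⟩ | ⟨h3, h4⟩
    · rw [h3, h4, if_pos rfl, if_neg (Ne.symm huv), if_neg huv, sub_zero, neg_neg]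
    · rw [h3, h4, if_neg (Ne.symm huv), if_pos rfl, if_pos rfl, zero_sub]
  have dmw : ∀ g w, Ends s t u v g → w ≠ u → w ≠ v → dm s t ψ w g = 0 := by
    intro g w hg hwu hwv
    unfold dm
    rcases hg with ⟨h3, h4⟩ | ⟨h3, h4⟩
    · rw [h3, h4, if_neg (Ne.symm hwu), if_neg (Ne.symm hwv), sub_zero]
    · rw [h3, h4, if_neg (Ne.symm hwv), if_neg (Ne.symm hwu), sub_zero]
  apply h.nz
  refine ⟨ψ, ?_, ?_⟩
  · intro g hg
    by_cases hg1 : g = e
    · rw [hg1, hψe]; exact ha
    · by_cases hg2 : g = e'
      · rw [hg2, hψe']; exact hb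
      · rw [hψo g hg1 hg2]
        exact hφ1 g (mem_erase.2 ⟨hg2, mem_erase.2 ⟨hg1, hg⟩⟩)
  · intro w
    rw [hsplit]
    by_cases hwv : w = v
    · subst hwv
      rw [dmv e h1, dmv e' h2, hψe, hψe', ← hD, ← add_assoc, hab, neg_add_cancel]
    by_cases hwu : w = u
    · subst hwu
      have h3 := hφ2 w
      rw [bd_eq] at h3
      have h5 : D + ∑ g ∈ (S.erase e).erase e', dm s t φ w g = 0 := by
        rw [hD, ← sum_add_distrib, ← h3]
        refine sum_congr rfl fun g _ => ?_
        have key : ∀ (z : V) (c : ZMod 5), (if (if z = v then w else z) = w then c else 0) =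
            (if z = v then c else 0) + (if z = w then c else 0) := by
          intro z c
          by_cases hz : z = v
          · subst hz
            rw [if_pos rfl, if_pos rfl, if_pos rfl, if_neg (Ne.symm hwv), add_zero]
          · rw [if_neg hz, if_neg hz, zero_add]
        unfold dm
        rw [key, key]
        ring
      rw [dmu e h1, dmu e' h2, hψe, hψe']
      have h6 : ∑ g ∈ (S.erase e).erase e', dm s t φ w g = -D := by
        rw [add_comm] at h5
        exact eq_neg_of_add_eq_zero_left h5
      rw [h6, ← hab]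
      ring
    · have h3 := hφ2 w
      rw [bd_eq] at h3
      rw [dmw e w h1 hwu hwv, dmw e' w h2 hwu hwv, zero_add, zero_add, ← h3]
      refine sum_congr rfl fun g _ => ?_
      have key : ∀ (z : V), ((if z = v then u else z) = w) ↔ z = w := by
        intro z
        by_cases hz : z = v
        · rw [if_pos hz, hz]
          exact ⟨fun hh => absurd hh.symm hwu, fun hh => absurd hh.symm hwv⟩
        · rw [if_neg hz]
      unfold dm
      simp only [key]

end Pool.Agent.TH362.FF
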