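import Pool.Agent.TH362.TF.Basic
import Pool.Agent.TH362.TF.Stm
import Pool.Agent.TH362.TP.Defs
import Mathlib.Combinatorics.SimpleGraph.Paths

/-!
Definitions for the theorem on nowhere-zero flows with values in the group of order five in graphs
with few edge cuts of size three.
-/

set_option autoImplicit false

namespace Pool.Agent.TH362.FF

open Finset Pool.Agent.TH362.TF

section
variable {V E : Type} [Fintype V] [DecidableEq V] [Fintype E] [DecidableEq E]

/-- The divergence of `φ` at the vertex `v`. -/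
def bd (s t : E → V) (S : Finset E) (φ : E → ZMod 5) (v : V) : ZMod 5 :=
  ∑ e ∈ S, ((if s e = v then φ e else 0) - (if t e = v then φ e else 0))

/-- The graph has a nowhere-zero flow with values in `ZMod 5`. -/
def NZ5 (s t : E → V) (S : Finset E) : Prop :=
  ∃ φ : E → ZMod 5, (∀ e ∈ S, φ e ≠ 0) ∧ ∀ v, bd s t S φ v = 0

/-- The number of the nowhere-zero functions on `S` with divergence `b`. -/
def cnt (s t : E → V) (S : Finset E) (b : V → ZMod 5) : ℕ :=
  ((univ : Finset (E → ZMod 5)).filter (fun φ =>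
    (∀ e ∈ S, φ e ≠ 0) ∧ (∀ e, e ∉ S → φ e = 0) ∧ ∀ v, bd s t S φ v = b v)).card

/-- A minimal counterexample with respect to quotients. -/
structure MinR (s t : E → V) (S : Finset E) : Prop where
  n1 : N1 s t S
  nz : ¬ NZ5 s t S
  ih : ∀ (f : V → V) (S' : Finset E), S' ⊆ S → (∀ e ∈ S, e ∉ S' → f (s e) = f (t e)) →
    S'.card < S.card → NZ5 (fun e => f (s e)) (fun e => f (t e)) S'

/-- A minimal counterexample among the graphs with at most `K` vertices of odd degree. -/
structure MinK (K : ℕ) (s t : E → V) (S : Finset E) : Prop where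
  n1 : N1 s t S
  odd : (odd s t S).card ≤ K
  nz : ¬ NZ5 s t S
  ih : ∀ (s' t' : E → V) (S' : Finset E), S'.card < S.card → N1 s' t' S' →
    (TF.odd s' t' S').card ≤ K → NZ5 s' t' S'

/-- The simple graph of the adjacent pairs of different vertices. -/
def gr (s t : E → V) (S : Finset E) : SimpleGraph V where
  Adj u v := u ≠ v ∧ Adj s t S u v
  symm := ⟨fun u v h => ⟨h.1.symm, by
    obtain ⟨e, he, h1 | h1⟩ := h.2
    · exact ⟨e, he, Or.inr h1⟩
    · exact ⟨e, he, Or.inl h1⟩⟩⟩
  loopless := ⟨fun v h => h.1 rfl⟩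

/-- The vertices `v i` form a circuit with the edges `c i` joining `v i` and `v (i + 1)`; they have
degree three, and the third edge `d i` at `v i` leads to a vertex outside of the circuit. -/
structure Circ (s t : E → V) (S : Finset E) (n : ℕ) [NeZero n] (v : Fin n → V)
    (c d : Fin n → E) : Prop where
  vinj : Function.Injective v
  cinj : Function.Injective c
  dinj : Function.Injective d
  cS : ∀ i, c i ∈ S
  dS : ∀ i, d i ∈ S
  cd : ∀ i j, c i ≠ d j
  ce : ∀ i, Ends s t (v i) (v (i + 1)) (c i)
  de : ∀ i, ∃ u, Ends s t (v i) u (d i) ∧ ∀ j, u ≠ v j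
  deg : ∀ i, deg s t S (v i) = 3

end

/-- The indicator function of the system of equations `∑ x i = 0` over the blocks of the partition
given by `g`. -/
def chi {n : ℕ} (g : Fin n → Fin n) (x : Fin n → ZMod 5) : ℤ :=
  if ∀ j, ∑ i ∈ univ.filter (fun i => g i = j), x i = 0 then 1 else 0

/-- Nowhere zero with sum zero. -/
def Adm {n : ℕ} (x : Fin n → ZMod 5) : Prop := (∀ i, x i ≠ 0) ∧ ∑ i, x i = 0

/-- The values `x i` entering the vertices of a circuit can be extended to the circuit. -/
def Ext5 {n : ℕ} (x : Fin n → ZMod 5) : Prop :=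
  ∃ y : ZMod 5, ∀ k, y + ∑ i ∈ univ.filter (fun i => i ≤ k), x i ≠ 0

/-- A combination of the functions `chi g` that vanishes at all extendable vectors vanishes. -/
def Lin (n : ℕ) : Prop :=
  ∀ c : (Fin n → Fin n) → ℤ,
    (∀ x : Fin n → ZMod 5, Adm x → Ext5 x → ∑ g, c g * chi g x = 0) →
    ∀ x : Fin n → ZMod 5, Adm x → ∑ g, c g * chi g x = 0

end Pool.Agent.TH362.FF
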