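import Pool.Agent.TH362.FF.Fac0
import Pool.Agent.TH362.FF.Cut

/-! The 2-factor argument. -/

set_option autoImplicit false

namespace Pool.Agent.TH362.FF
open Finset Pool.Agent.TH362.TF
variable {V E : Type} [Fintype V] [DecidableEq V] [Fintype E] [DecidableEq E]

theorem MinR.factor {s t : E → V} {S : Finset E} (h : MinR s t S)
    (hcub : ∀ v, deg s t S v = 0 ∨ deg s t S v = 3) (g N : ℕ)
    (hg : ∀ (u : V) (w : (gr s t S).Walk u u), w.IsCycle → g < w.length)
    (hodd : ∀ k, g < k → Odd k → N < 4 * k)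
    (hN : (univ.filter (fun v => deg s t S v ≠ 0)).card ≤ N) : False :=
  Fac.factor_of h h.noloop (fun x hx => h.triv3 x hx) (fun x hx => h.conn x hx)
    (fun he he' hee h1 h2 => h.nodigon he he' hee h1 h2) hcub g N hg hodd hN

end Pool.Agent.TH362.FF
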