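import Pool.Agent.TH362.FF.Defs
import Pool.Agent.H160R2.HF.Final
import Pool.Agent.H185C.Petersen
import Pool.Agent.H185C.T11
import Mathlib.Combinatorics.SimpleGraph.Acyclic

/-! The 2-factor argument, with the facts on minimal counterexamples as hypotheses. -/

set_option autoImplicit false

namespace Pool.Agent.TH362.FF
open Finset Pool.Agent.TH362.TF

namespace Fac

open Pool.Agent.H160R2.HF

section comp
variable {W : Type} [Fintype W] [DecidableEq W]

theorem exists_cycle (H : SimpleGraph W)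
    (h2 : ∀ v, ∃ u u', u ≠ u' ∧ H.Adj v u ∧ H.Adj v u') (c : H.ConnectedComponent) :
    ∃ (x : W) (w : H.Walk x x), w.IsCycle ∧ w.length ≤ c.supp.ncard := by
  classical
  have hconn : c.toSimpleGraph.Connected := c.connected_toSimpleGraph
  have hmem : ∀ (v u : W), v ∈ c → H.Adj v u → u ∈ c := by
    intro v u hv hadj
    exact c.mem_supp_of_adj_mem_supp hv hadj
  have hnac : ¬ c.toSimpleGraph.IsAcyclic := by
    intro hac
    have htree : c.toSimpleGraph.IsTree := ⟨hconn, hac⟩
    obtain ⟨v0, hv0⟩ := c.nonempty_supp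
    have hnt : Nontrivial c := by
      obtain ⟨u, u', huu, hu, hu'⟩ := h2 v0
      refine ⟨⟨⟨v0, hv0⟩, ⟨u, hmem v0 u hv0 hu⟩, ?_⟩⟩
      intro heq
      exact hu.ne (congrArg Subtype.val heq)
    obtain ⟨v, hv⟩ := htree.exists_vert_degree_one_of_nontrivial
    obtain ⟨u, u', huu, hu, hu'⟩ := h2 v.1
    rw [← SimpleGraph.card_neighborFinset_eq_degree, Finset.card_eq_one] at hv
    obtain ⟨z, hz⟩ := hv
    have m1 : (⟨u, hmem v.1 u v.2 hu⟩ : c) ∈ c.toSimpleGraph.neighborFinset v := by
      rw [SimpleGraph.mem_neighborFinset]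
      exact (c.toSimpleGraph_adj v.2 _).2 hu
    have m2 : (⟨u', hmem v.1 u' v.2 hu'⟩ : c) ∈ c.toSimpleGraph.neighborFinset v := by
      rw [SimpleGraph.mem_neighborFinset]
      exact (c.toSimpleGraph_adj v.2 _).2 hu'
    rw [hz, Finset.mem_singleton] at m1 m2
    exact huu (congrArg Subtype.val (m1.trans m2.symm))
  unfold SimpleGraph.IsAcyclic at hnac
  push Not at hnac
  obtain ⟨x, w, hw⟩ := hnac
  refine ⟨_, w.map c.toSimpleGraph_hom, ?_, ?_⟩
  · exact hw.map (fun a b hab => Subtype.ext hab)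
  · rw [SimpleGraph.Walk.length_map]
    have h3 := hw.support_nodup
    have h4 := h3.length_le_card
    rw [List.length_tail, SimpleGraph.Walk.length_support, Nat.add_sub_cancel] at h4
    refine h4.trans (le_of_eq ?_)
    rw [← Nat.card_eq_fintype_card]
    rfl

/-- at most two odd components -/
theorem odd_le_two (H : SimpleGraph W) (hW : Even (Fintype.card W)) (N : ℕ)
    (hN : Fintype.card W ≤ N)
    (hc : ∀ c : H.ConnectedComponent, Odd c.supp.ncard → N < 4 * c.supp.ncard) :
    H.oddComponents.ncard ≤ 2 := by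
  classical
  by_contra hcon
  push Not at hcon
  have hpar : ¬ Odd H.oddComponents.ncard := by
    rw [SimpleGraph.odd_ncard_oddComponents, Nat.card_eq_fintype_card]
    exact Nat.not_odd_iff_even.2 hW
  have h4 : 4 ≤ H.oddComponents.ncard := by
    rw [Nat.not_odd_iff_even] at hpar
    obtain ⟨a, ha⟩ := hpar
    omega
  have hfin : H.oddComponents.Finite := Set.toFinite _
  obtain ⟨T, hT, hT4⟩ : ∃ T ⊆ hfin.toFinset, T.card = 4 := by
    apply Finset.exists_subset_card_eq
    rwa [← Set.ncard_eq_toFinset_card _ hfin]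
  have hsum : ∑ c ∈ T, c.supp.ncard ≤ Fintype.card W := by
    have h5 : ∀ c : H.ConnectedComponent, c.supp.ncard = c.supp.toFinset.card :=
      fun c => Set.ncard_eq_toFinset_card' _
    simp only [h5]
    rw [← Finset.card_biUnion]
    · exact Finset.card_le_univ _
    · intro c _ c' _ hcc
      change Disjoint c.supp.toFinset c'.supp.toFinset
      rw [Set.disjoint_toFinset]
      exact SimpleGraph.pairwise_disjoint_supp_connectedComponent H hcc
  have h6 : ∀ c ∈ T, N + 1 ≤ 4 * c.supp.ncard := by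
    intro c hcT
    have := hT hcT
    rw [Set.Finite.mem_toFinset] at this
    exact hc c this
  have h7 := Finset.sum_le_sum h6
  rw [Finset.sum_const, hT4, ← Finset.mul_sum, smul_eq_mul] at h7
  omega

end comp

variable {V E : Type} [Fintype V] [DecidableEq V] [Fintype E] [DecidableEq E]

theorem deg_s {s t : E → V} {S : Finset E} {e : E} (he : e ∈ S) : deg s t S (s e) ≠ 0 := by
  unfold deg
  intro h0
  have h1 := (Finset.sum_eq_zero_iff.1 h0) e he
  simp at h1

theorem deg_t {s t : E → V} {S : Finset E} {e : E} (he : e ∈ S) : deg s t S (t e) ≠ 0 := by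
  unfold deg
  intro h0
  have h1 := (Finset.sum_eq_zero_iff.1 h0) e he
  simp at h1

/-- the graph without the isolated vertices -/
def G (s t : E → V) (S : Finset E) : OrGraph {v : V // deg s t S v ≠ 0} {e : E // e ∈ S} where
  t e := ⟨s e.1, deg_s e.2⟩
  h e := ⟨t e.1, deg_t e.2⟩

theorem G_deg (s t : E → V) (S : Finset E) (v : {v : V // deg s t S v ≠ 0}) :
    (G s t S).deg univ v = deg s t S v.1 := by
  unfold OrGraph.deg
  rw [Finset.card_filter, Finset.card_filter]
  have h1 : ∀ e : {e : E // e ∈ S}, (if (G s t S).t e = v then 1 else 0) =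
      (fun e : E => if s e = v.1 then 1 else 0) e.1 := by
    intro e
    have : (G s t S).t e = v ↔ s e.1 = v.1 := Subtype.ext_iff
    by_cases h : s e.1 = v.1 <;> simp [this, h]
  have h2 : ∀ e : {e : E // e ∈ S}, (if (G s t S).h e = v then 1 else 0) =
      (fun e : E => if t e = v.1 then 1 else 0) e.1 := by
    intro e
    have : (G s t S).h e = v ↔ t e.1 = v.1 := Subtype.ext_iff
    by_cases h : t e.1 = v.1 <;> simp [this, h]
  rw [Finset.sum_congr rfl (fun e _ => h1 e), Finset.sum_congr rfl (fun e _ => h2 e),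
    Finset.sum_coe_sort S (fun e : E => if s e = v.1 then 1 else 0),
    Finset.sum_coe_sort S (fun e : E => if t e = v.1 then 1 else 0)]
  unfold deg
  rw [Finset.sum_add_distrib]

/-- the side of a cut as a boolean function -/
def side (s t : E → V) (S : Finset E) (X : Finset {v : V // deg s t S v ≠ 0}) (v : V) : Bool :=
  decide (∃ h : deg s t S v ≠ 0, (⟨v, h⟩ : {v : V // deg s t S v ≠ 0}) ∈ X)

theorem side_iff {s t : E → V} {S : Finset E} {X : Finset {v : V // deg s t S v ≠ 0}} {v : V}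
    (h : deg s t S v ≠ 0) : side s t S X v = true ↔ (⟨v, h⟩ : {v : V // deg s t S v ≠ 0}) ∈ X := by
  unfold side
  rw [decide_eq_true_iff]
  exact ⟨fun ⟨_, h2⟩ => h2, fun h2 => ⟨h, h2⟩⟩

theorem mem_cut_iff {s t : E → V} {S : Finset E} {X : Finset {v : V // deg s t S v ≠ 0}}
    (e : {e : E // e ∈ S}) : e ∈ (G s t S).cut X ↔ e.1 ∈ cut s t S (side s t S X) := by
  unfold OrGraph.cut cut
  rw [Finset.mem_filter, Finset.mem_filter]
  have h1 : side s t S X (s e.1) = true ↔ (G s t S).t e ∈ X := side_iff (deg_s e.2)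
  have h2 : side s t S X (t e.1) = true ↔ (G s t S).h e ∈ X := side_iff (deg_t e.2)
  rw [← h1, ← h2]
  have h3 : e.1 ∈ S := e.2
  simp only [Finset.mem_univ, true_and, h3, ne_eq]
  cases side s t S X (s e.1) <;> cases side s t S X (t e.1) <;> simp

theorem card_cut (s t : E → V) (S : Finset E) (X : Finset {v : V // deg s t S v ≠ 0}) :
    ((G s t S).cut X).card = (cut s t S (side s t S X)).card := by
  have h1 : ((G s t S).cut X).map (Function.Embedding.subtype _) =
      cut s t S (side s t S X) := by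
    ext e
    rw [Finset.mem_map]
    constructor
    · rintro ⟨e', he', rfl⟩
      exact (mem_cut_iff e').1 he'
    · intro he
      have hS : e ∈ S := (Finset.mem_filter.1 he).1
      exact ⟨⟨e, hS⟩, (mem_cut_iff ⟨e, hS⟩).2 he, rfl⟩
  rw [← h1, Finset.card_map]

/-- a flow of the graph gives a flow with values modulo five -/
theorem nz5_of_flow {s t : E → V} {S : Finset E} (φ : {e : E // e ∈ S} → ℤ)
    (hφ : (G s t S).IsFlow φ) (h1 : ∀ e, 1 ≤ |φ e| ∧ |φ e| ≤ 4) : NZ5 s t S := by
  refine ⟨fun e => if h : e ∈ S then ((φ ⟨e, h⟩ : ℤ) : ZMod 5) else 0, ?_, ?_⟩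
  · intro e he
    simp only [he, dif_pos]
    intro h0
    rw [ZMod.intCast_zmod_eq_zero_iff_dvd] at h0
    have h2 := (h1 ⟨e, he⟩).1
    have h3 := (h1 ⟨e, he⟩).2
    rw [abs_le] at h3
    rw [le_abs] at h2
    push_cast at h0
    omega
  · intro v
    unfold bd
    by_cases hv : deg s t S v = 0
    · refine Finset.sum_eq_zero (fun e he => ?_)
      have a1 : s e ≠ v := by
        rintro rfl
        exact deg_s he hv
      have a2 : t e ≠ v := by
        rintro rfl
        exact deg_t he hv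
      rw [if_neg a1, if_neg a2, sub_zero]
    · have h2 := hφ ⟨v, hv⟩
      rw [Finset.sum_filter, Finset.sum_filter] at h2
      have h3 := congrArg (fun z : ℤ => (z : ZMod 5)) h2
      push_cast at h3
      rw [Finset.sum_sub_distrib, sub_eq_zero, ← Finset.sum_coe_sort S, ← Finset.sum_coe_sort S]
      have e1 : ∀ e : {e : E // e ∈ S}, (if s e.1 = v then
          (if h : e.1 ∈ S then ((φ ⟨e.1, h⟩ : ℤ) : ZMod 5) else 0) else 0) =
          if (G s t S).t e = ⟨v, hv⟩ then ((φ e : ℤ) : ZMod 5) else 0 := by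
        intro e
        have : (G s t S).t e = ⟨v, hv⟩ ↔ s e.1 = v := Subtype.ext_iff
        have h4 : e.1 ∈ S := e.2
        by_cases h : s e.1 = v <;> simp [this, h, h4]
      have e2 : ∀ e : {e : E // e ∈ S}, (if t e.1 = v then
          (if h : e.1 ∈ S then ((φ ⟨e.1, h⟩ : ℤ) : ZMod 5) else 0) else 0) =
          if (G s t S).h e = ⟨v, hv⟩ then ((φ e : ℤ) : ZMod 5) else 0 := by
        intro e
        have : (G s t S).h e = ⟨v, hv⟩ ↔ t e.1 = v := Subtype.ext_iff
        have h4 : e.1 ∈ S := e.2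
        by_cases h : t e.1 = v <;> simp [this, h, h4]
      rw [Finset.sum_congr rfl (fun e _ => e1 e), Finset.sum_congr rfl (fun e _ => e2 e)]
      exact h3

/-- two edges of a 2-factor at a vertex -/
theorem two_edges {s t : E → V} {S : Finset E} (hl : ∀ e ∈ S, s e ≠ t e)
    {F : Finset {e : E // e ∈ S}} (hF : (G s t S).IsTwoFactor F)
    (v : {v : V // deg s t S v ≠ 0}) :
    ∃ e e' : {e : E // e ∈ S}, e ∈ F ∧ e' ∈ F ∧ e ≠ e' ∧ (∃ u, Ends s t v.1 u e.1) ∧
      ∃ u', Ends s t v.1 u' e'.1 := by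
  have h1 := hF v
  unfold OrGraph.deg at h1
  have hdis : Disjoint (F.filter (fun e => (G s t S).t e = v)) (F.filter (fun e => (G s t S).h e = v)) := by
    rw [Finset.disjoint_filter]
    intro e _ he he'
    exact hl e.1 e.2 (congrArg Subtype.val (he.trans he'.symm))
  rw [← Finset.card_union_of_disjoint hdis] at h1
  obtain ⟨e, e', hee, hset⟩ := Finset.card_eq_two.1 h1
  have key : ∀ f : {e : E // e ∈ S}, f ∈ (F.filter (fun e => (G s t S).t e = v)) ∪
      (F.filter (fun e => (G s t S).h e = v)) → f ∈ F ∧ ∃ u, Ends s t v.1 u f.1 := by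
    intro f hf
    rw [Finset.mem_union, Finset.mem_filter, Finset.mem_filter] at hf
    rcases hf with ⟨h2, h3⟩ | ⟨h2, h3⟩
    · exact ⟨h2, t f.1, Or.inl ⟨congrArg Subtype.val h3, rfl⟩⟩
    · exact ⟨h2, s f.1, Or.inr ⟨rfl, congrArg Subtype.val h3⟩⟩
  have k1 := key e (by rw [hset]; simp)
  have k2 := key e' (by rw [hset]; simp)
  exact ⟨e, e', k1.1, k2.1, hee, k1.2, k2.2⟩

theorem adj_sub {s t : E → V} {S : Finset E} (hl : ∀ e ∈ S, s e ≠ t e)
    {F : Finset {e : E // e ∈ S}} {v : {v : V // deg s t S v ≠ 0}} {e : {e : E // e ∈ S}}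
    (he : e ∈ F) {u : V} (h : Ends s t v.1 u e.1) :
    ∃ hu : deg s t S u ≠ 0, ((G s t S).sub F).Adj v ⟨u, hu⟩ := by
  unfold OrGraph.sub
  rcases h with ⟨h1, h2⟩ | ⟨h1, h2⟩
  · have hu : deg s t S u ≠ 0 := by rw [← h2]; exact deg_t e.2
    refine ⟨hu, ?_⟩
    rw [SimpleGraph.fromRel_adj]
    refine ⟨?_, Or.inl ⟨e, he, Subtype.ext h1, Subtype.ext h2⟩⟩
    intro heq
    have h3 : v.1 = u := congrArg Subtype.val heq
    exact hl e.1 e.2 (by rw [h1, h2, h3])
  · have hu : deg s t S u ≠ 0 := by rw [← h1]; exact deg_s e.2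
    refine ⟨hu, ?_⟩
    rw [SimpleGraph.fromRel_adj]
    refine ⟨?_, Or.inr ⟨e, he, Subtype.ext h1, Subtype.ext h2⟩⟩
    intro heq
    have h3 : v.1 = u := congrArg Subtype.val heq
    exact hl e.1 e.2 (by rw [h1, h2, h3])

/-- the inclusion of the subgraph -/
def incl (s t : E → V) (S : Finset E) (F : Finset {e : E // e ∈ S}) :
    (G s t S).sub F →g gr s t S where
  toFun v := v.1
  map_rel' := by
    intro a b hab
    unfold OrGraph.sub at hab
    rw [SimpleGraph.fromRel_adj] at hab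
    obtain ⟨hne, h⟩ := hab
    refine ⟨fun h0 => hne (Subtype.ext h0), ?_⟩
    rcases h with ⟨e, _, h1, h2⟩ | ⟨e, _, h1, h2⟩
    · exact ⟨e.1, e.2, Or.inl ⟨congrArg Subtype.val h1, congrArg Subtype.val h2⟩⟩
    · exact ⟨e.1, e.2, Or.inr ⟨congrArg Subtype.val h1, congrArg Subtype.val h2⟩⟩

theorem factor_of {s t : E → V} {S : Finset E} (h : MinR s t S)
    (noloop : ∀ e ∈ S, s e ≠ t e)
    (triv3 : ∀ x : V → Bool, (cut s t S x).card = 3 →
      ∃ v, deg s t S v = 3 ∧ ∀ u, x u = x v → u ≠ v → deg s t S u = 0)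
    (conn : ∀ x : V → Bool, cut s t S x = ∅ → (∀ v, x v = true → deg s t S v = 0) ∨
      (∀ v, x v = false → deg s t S v = 0))
    (nodigon : ∀ {u v : V} {e e' : E}, e ∈ S → e' ∈ S → e ≠ e' → Ends s t u v e →
      Ends s t u v e' → False)
    (hcub : ∀ v, deg s t S v = 0 ∨ deg s t S v = 3) (g N : ℕ)
    (hg : ∀ (u : V) (w : (gr s t S).Walk u u), w.IsCycle → g < w.length)
    (hodd : ∀ k, g < k → Odd k → N < 4 * k)
    (hN : (univ.filter (fun v => deg s t S v ≠ 0)).card ≤ N) : False := by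
  have hc : (G s t S).Cubic := by
    intro v
    rw [G_deg]
    rcases hcub v.1 with h1 | h1
    · exact absurd h1 v.2
    · exact h1
  have hb1 : ∀ X, ((G s t S).cut X).card ≠ 1 := by
    intro X
    rw [card_cut]
    exact h.n1 _
  have h2 : ∀ X : Finset {v : V // deg s t S v ≠ 0}, X.Nonempty → Xᶜ.Nonempty →
      2 ≤ ((G s t S).cut X).card := by
    intro X hX hX'
    have a1 := hb1 X
    have a0 : ((G s t S).cut X).card ≠ 0 := by
      intro h0
      rw [card_cut, Finset.card_eq_zero] at h0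
      rcases conn _ h0 with h3 | h3
      · obtain ⟨v, hv⟩ := hX
        exact v.2 (h3 v.1 ((side_iff v.2).2 hv))
      · obtain ⟨v, hv⟩ := hX'
        refine v.2 (h3 v.1 ?_)
        rw [← Bool.not_eq_true, side_iff v.2]
        exact Finset.mem_compl.1 hv
    omega
  obtain ⟨F, hF⟩ := Pool.Agent.H185C.petersen (G s t S) hc h2
  -- two neighbours in the 2-factor
  have hnb : ∀ v, ∃ u u', u ≠ u' ∧ ((G s t S).sub F).Adj v u ∧ ((G s t S).sub F).Adj v u' := by
    intro v
    obtain ⟨e, e', he, he', hee, ⟨u, hu⟩, ⟨u', hu'⟩⟩ := two_edges noloop hF v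
    obtain ⟨a1, a2⟩ := adj_sub noloop he hu
    obtain ⟨b1, b2⟩ := adj_sub noloop he' hu'
    refine ⟨_, _, ?_, a2, b2⟩
    intro heq
    have h3 : u = u' := congrArg Subtype.val heq
    subst h3
    exact nodigon e.2 e'.2 (fun h4 => hee (Subtype.ext h4)) hu hu'
  have hcomp : ∀ c : ((G s t S).sub F).ConnectedComponent, g < c.supp.ncard := by
    intro c
    obtain ⟨x, w, hw, hlen⟩ := exists_cycle ((G s t S).sub F) hnb c
    have h3 := hg _ (w.map (incl s t S F)) (hw.map (fun a b hab => Subtype.ext hab))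
    rw [SimpleGraph.Walk.length_map] at h3
    omega
  have hcard : Fintype.card {v : V // deg s t S v ≠ 0} ≤ N := by
    rw [Fintype.card_subtype]
    exact hN
  have hev : Even (Fintype.card {v : V // deg s t S v ≠ 0}) := by
    have h3 := (G s t S).handshake univ univ
    rw [Finset.sum_congr rfl (fun v _ => hc v), Finset.sum_const, smul_eq_mul,
      Finset.card_univ] at h3
    have h4 : (G s t S).cut univ = ∅ := by
      unfold OrGraph.cut
      simp
    rw [h4, Finset.empty_inter, Finset.card_empty, add_zero] at h3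
    rw [Nat.even_iff]
    omega
  have hoc : (G s t S).oddCount F ≤ 2 :=
    odd_le_two ((G s t S).sub F) hev N hcard (fun c hodd' => hodd _ (hcomp c) hodd')
  obtain ⟨φ₂, φ₄, hp, _⟩ := (G s t S).exists_pair hc hb1 F hF hoc (by
    intro X hX
    have hX' := hX
    rw [card_cut] at hX'
    obtain ⟨v, hv3, hv⟩ := triv3 _ hX'
    have hv0 : deg s t S v ≠ 0 := by omega
    obtain ⟨e, e', he, he', hee, ⟨u, hu⟩, -⟩ := two_edges noloop hF ⟨v, hv0⟩
    refine ⟨e, Finset.mem_inter.2 ⟨?_, he⟩⟩
    rw [mem_cut_iff]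
    unfold cut
    rw [Finset.mem_filter]
    refine ⟨e.2, ?_⟩
    intro heq
    have hl := noloop e.1 e.2
    rcases hu with ⟨h3, h4⟩ | ⟨h3, h4⟩
    · simp only at h3 h4
      refine deg_t e.2 (hv (t e.1) ?_ ?_)
      · rw [← heq, h3]
      · rw [← h3]
        exact hl.symm
    · simp only at h3 h4
      refine deg_s e.2 (hv (s e.1) ?_ ?_)
      · rw [heq, h4]
      · rw [← h4]
        exact hl)
  obtain ⟨φ, hφ, hφ'⟩ := Pool.Agent.H185C.five_flow (G s t S) φ₂ φ₄ hp
  exact h.nz (nz5_of_flow φ hφ hφ')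

end Fac

end Pool.Agent.TH362.FF
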