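import Pool.Agent.TH362.FF.FinN

/-! Graphs without many disjoint vertex sets with three boundary edges. -/

set_option autoImplicit false

namespace Pool.Agent.TH362.FF

open Finset Pool.Agent.TH362.TF

set_option linter.unusedSectionVars false

variable {V E : Type} [Fintype V] [DecidableEq V] [Fintype E] [DecidableEq E]

/-- There are `k` pairwise disjoint vertex sets with pairwise different boundaries of size three. -/
def Fam (s t : E → V) (S : Finset E) (k : ℕ) : Prop :=
  ∃ X : Fin k → V → Bool, (∀ i j, i ≠ j → ∀ v, ¬ (X i v = true ∧ X j v = true)) ∧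
    (∀ i j, i ≠ j → cut s t S (X i) ≠ cut s t S (X j)) ∧ ∀ i, (cut s t S (X i)).card = 3

theorem fam_quot {s t : E → V} {S S' : Finset E} {f : V → V} (hS : S' ⊆ S)
    (hf : ∀ e ∈ S, e ∉ S' → f (s e) = f (t e)) {k : ℕ}
    (h : Fam (fun e => f (s e)) (fun e => f (t e)) S' k) : Fam s t S k := by
  obtain ⟨X, h1, h2, h3⟩ := h
  refine ⟨fun i v => X i (f v), fun i j hij v => h1 i j hij (f v), fun i j hij => ?_, fun i => ?_⟩
  · have := h2 i j hij
    rw [quot_cut hS hf, quot_cut hS hf] at this
    exact this
  · have := h3 i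
    rw [quot_cut hS hf] at this
    exact this

theorem fam_deg {s t : E → V} {S : Finset E} (h : MinR s t S) {k : ℕ}
    (hk : k ≤ (univ.filter (fun v => deg s t S v = 3)).card) : Fam s t S k := by
  obtain ⟨T, hT, hTk⟩ := Finset.exists_subset_card_eq hk
  let em := T.equivFinOfCardEq hTk
  have hd : ∀ i, deg s t S (em.symm i).1 = 3 := fun i =>
    (Finset.mem_filter.1 (hT (em.symm i).2)).2
  have hinj : ∀ i j, i ≠ j → (em.symm i).1 ≠ (em.symm j).1 := fun i j hij heq =>
    hij (em.symm.injective (Subtype.ext heq))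
  refine ⟨fun i v => decide (v = (em.symm i).1), ?_, ?_, ?_⟩
  · intro i j hij v hv
    have h1 := of_decide_eq_true hv.1
    have h2 := of_decide_eq_true hv.2
    exact hinj i j hij (h1.symm.trans h2)
  · intro i j hij heq
    have hc : (cut s t S (fun w => decide (w = (em.symm i).1))).card = 3 := by
      rw [FinN.cut_single h.noloop]; exact hd i
    obtain ⟨e, he, e', he', hee⟩ := Finset.one_lt_card.1
      (by omega : 1 < (cut s t S (fun w => decide (w = (em.symm i).1))).card)
    have k1 := FinN.ends_of (hinj i j hij) he (heq ▸ he)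
    have k2 := FinN.ends_of (hinj i j hij) he' (heq ▸ he')
    exact h.nodigon (Finset.mem_filter.1 he).1 (Finset.mem_filter.1 he').1 hee k1 k2
  · intro i
    rw [FinN.cut_single h.noloop]
    exact hd i

theorem famN (g K N : ℕ) (lin : ∀ n, 3 ≤ n → n ≤ g → Lin n)
    (hK : ∀ k, g < k → Odd k → K < 4 * k)
    (hN : ∀ a b, a ≤ N → 5 * b + 12 ≤ a → Even (a + b) → a + b ≤ K)
    (s t : E → V) (S : Finset E) (h1 : N1 s t S) (h3 : ¬ Fam s t S (N + 1)) :
    NZ5 s t S := by
  obtain ⟨n, hn⟩ : ∃ n, S.card = n := ⟨_, rfl⟩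
  induction n using Nat.strong_induction_on generalizing s t S with
  | _ n IH =>
    by_contra hnz
    have hR : MinR s t S := by
      refine ⟨h1, hnz, ?_⟩
      intro f S' hS hf hlt
      exact IH S'.card (by omega) (fun e => f (s e)) (fun e => f (t e)) S'
        (quot_n1 hS hf h1) (fun hfam => h3 (fam_quot hS hf hfam)) rfl
    have k1 := FinN.five_le hR
    have k2 : (univ.filter (fun v => deg s t S v = 3)).card ≤ N := by
      by_contra hlt
      exact h3 (fam_deg hR (by omega))
    have k3 := FinN.odd_eq hR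
    have k4 := FinN.odd_even s t S
    rw [k3] at k4
    have k5 := hN _ _ k2 k1 k4
    rw [← k3] at k5
    exact hnz (mainK g K lin hK s t S h1 k5)

end Pool.Agent.TH362.FF
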