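import Pool.Agent.TH362.FF.Circ
import Pool.Agent.TH362.FF.Cut
import Mathlib.Data.Fin.Basic
import Mathlib.Algebra.Order.Ring.Nat

/-!
Short circuits in cubic minimal counterexamples.
-/

set_option autoImplicit false

namespace Pool.Agent.TH362.FF

open Finset Pool.Agent.TH362.TF

variable {V E : Type} [Fintype V] [DecidableEq V] [Fintype E] [DecidableEq E]

namespace Girth

/-- A closed sequence of `n` different vertices in which consecutive vertices are adjacent. -/
structure Seq (s t : E → V) (S : Finset E) (n : ℕ) (v : ℕ → V) : Prop where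
  inj : ∀ i j, i < n → j < n → v i = v j → i = j
  adj : ∀ i, i + 1 < n → Adj s t S (v i) (v (i + 1))
  last : Adj s t S (v 0) (v (n - 1))

omit [Fintype V] [DecidableEq V] [Fintype E] [DecidableEq E] in
theorem ends_symm {s t : E → V} {u v : V} {e : E} (h : Ends s t u v e) : Ends s t v u e := by
  rcases h with h | h
  · exact Or.inr h
  · exact Or.inl h

omit [Fintype V] [DecidableEq V] [Fintype E] [DecidableEq E] in
theorem adj_symm {s t : E → V} {S : Finset E} {u v : V} (h : Adj s t S u v) : Adj s t S v u := by
  obtain ⟨e, he, h1⟩ := h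
  exact ⟨e, he, ends_symm h1⟩

omit [Fintype V] [Fintype E] [DecidableEq E] in
theorem deg_card {s t : E → V} {S : Finset E} (hl : ∀ e ∈ S, s e ≠ t e) (x : V) :
    deg s t S x = (S.filter (fun e => s e = x ∨ t e = x)).card := by
  unfold deg
  rw [Finset.card_filter]
  refine Finset.sum_congr rfl fun e he => ?_
  have := hl e he
  by_cases h1 : s e = x
  · have h2 : t e ≠ x := fun h2 => this (h1.trans h2.symm)
    simp [h1, h2]
  · by_cases h2 : t e = x
    · simp [h1, h2]
    · simp [h1, h2]

omit [Fintype E] in
theorem third {A : Finset E} (h : A.card = 3) (a b : E) : ∃ e ∈ A, e ≠ a ∧ e ≠ b := by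
  by_contra hcon
  push Not at hcon
  have h1 : A ⊆ {a, b} := by
    intro e he
    rw [Finset.mem_insert, Finset.mem_singleton]
    by_cases h2 : e = a
    · exact Or.inl h2
    · exact Or.inr (hcon e he h2)
  have h2 := Finset.card_le_card h1
  have h3 := Finset.card_le_two (a := a) (b := b)
  omega

theorem no_seq {s t : E → V} {S : Finset E} (h : MinR s t S)
    (hcub : ∀ v, deg s t S v = 0 ∨ deg s t S v = 3) (g : ℕ)
    (lin : ∀ n, 3 ≤ n → n ≤ g → Lin n) (n : ℕ) : 3 ≤ n → n ≤ g → ∀ v : ℕ → V,
    Seq s t S n v → False := by
  induction n using Nat.strong_induction_on with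
  | _ n ih =>
    intro hn hng v hv
    have hloop := h.noloop
    -- no chords
    have chord : ∀ i j : ℕ, i < j → j < n → Adj s t S (v i) (v j) →
        j = i + 1 ∨ (i = 0 ∧ j = n - 1) := by
      intro i j hij hj hadj
      by_contra hcon
      push Not at hcon
      obtain ⟨h1, h2⟩ := hcon
      refine ih (j - i + 1) (by omega) (by omega) (by omega) (fun k => v (i + k)) ⟨?_, ?_, ?_⟩
      · intro a b ha hb hab
        have := hv.inj (i + a) (i + b) (by omega) (by omega) hab
        omega
      · intro a ha
        exact hv.adj (i + a) (by omega)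
      · have e1 : i + (j - i + 1 - 1) = j := by omega
        simp only [add_zero]
        rw [e1]
        exact hadj
    have hnz : NeZero n := ⟨by omega⟩
    let w : Fin n → V := fun i => v i.val
    have winj : Function.Injective w := by
      intro i j hij
      exact Fin.ext (hv.inj _ _ i.isLt j.isLt hij)
    have h1n : ((1 : Fin n) : ℕ) = 1 := by
      rw [Fin.val_one', Nat.mod_eq_of_lt (by omega)]
    have hsucc : ∀ i : Fin n, (i + 1).val = if i.val + 1 < n then i.val + 1 else 0 := by
      intro i
      rw [Fin.val_add, h1n]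
      have := i.isLt
      split_ifs with h2
      · exact Nat.mod_eq_of_lt h2
      · have : i.val + 1 = n := by omega
        rw [this, Nat.mod_self]
    have wadj : ∀ i : Fin n, Adj s t S (w i) (w (i + 1)) := by
      intro i
      change Adj s t S (v i.val) (v (i + 1).val)
      rw [hsucc i]
      have := i.isLt
      split_ifs with h2
      · exact hv.adj _ h2
      · have e1 : i.val = n - 1 := by omega
        rw [e1]
        exact adj_symm hv.last
    have wchord : ∀ i j : Fin n, i ≠ j → Adj s t S (w i) (w j) → j = i + 1 ∨ i = j + 1 := by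
      have key : ∀ i j : Fin n, i.val < j.val → Adj s t S (w i) (w j) →
          j = i + 1 ∨ i = j + 1 := by
        intro i j hij hadj
        have hj := j.isLt
        rcases chord i.val j.val hij j.isLt hadj with h2 | ⟨h2, h3⟩
        · left
          apply Fin.ext
          rw [hsucc, if_pos (by omega)]
          exact h2
        · right
          apply Fin.ext
          rw [hsucc, if_neg (by omega)]
          exact h2
      intro i j hij hadj
      rcases lt_trichotomy i.val j.val with h2 | h2 | h2
      · exact key i j h2 hadj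
      · exact absurd (Fin.ext h2) hij
      · exact (key j i h2 (adj_symm hadj)).symm
    have htwo : ∀ i : Fin n, i + 1 + 1 ≠ i := by
      intro i hi
      have h2 := congrArg Fin.val hi
      rw [hsucc, hsucc] at h2
      have := i.isLt
      split_ifs at h2 <;> omega
    choose c hcS hce using wadj
    have cinj : Function.Injective c := by
      intro i j hij
      have h2 := hce i
      have h3 := hce j
      rw [← hij] at h3
      rcases h2 with ⟨h2, h2'⟩ | ⟨h2, h2'⟩ <;> rcases h3 with ⟨h3, h3'⟩ | ⟨h3, h3'⟩
      · exact winj (h2.symm.trans h3)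
      · have e1 := winj (h2.symm.trans h3)
        have e2 := winj (h2'.symm.trans h3')
        exfalso
        apply htwo j
        rw [← e1, e2]
      · have e1 := winj (h2.symm.trans h3)
        have e2 := winj (h2'.symm.trans h3')
        exfalso
        apply htwo i
        rw [e1, ← e2]
      · exact winj (h2'.symm.trans h3')
    have hdeg : ∀ i, deg s t S (w i) = 3 := by
      intro i
      rcases hcub (w i) with h2 | h2
      · exfalso
        rw [deg_card hloop, Finset.card_eq_zero] at h2
        have h3 : c i ∈ S.filter (fun e => s e = w i ∨ t e = w i) := by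
          rw [Finset.mem_filter]
          refine ⟨hcS i, ?_⟩
          rcases hce i with ⟨h4, _⟩ | ⟨_, h4⟩
          · exact Or.inl h4
          · exact Or.inr h4
        rw [h2] at h3
        exact absurd h3 (Finset.notMem_empty _)
      · exact h2
    have hd : ∀ i, ∃ e ∈ S, ∃ u, Ends s t (w i) u e ∧ e ≠ c i ∧ e ≠ c (i - 1) := by
      intro i
      have h2 := hdeg i
      rw [deg_card hloop] at h2
      obtain ⟨e, he, h3, h4⟩ := third h2 (c i) (c (i - 1))
      rw [Finset.mem_filter] at he
      rcases he.2 with h5 | h5
      · exact ⟨e, he.1, t e, Or.inl ⟨h5, rfl⟩, h3, h4⟩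
      · exact ⟨e, he.1, s e, Or.inr ⟨rfl, h5⟩, h3, h4⟩
    choose d hdS u hde hdc hdc' using hd
    have hu : ∀ i j, u i ≠ w j := by
      intro i j hij
      have hE : Ends s t (w i) (w j) (d i) := by rw [← hij]; exact hde i
      by_cases hne : i = j
      · subst hne
        rcases hE with ⟨h2, h3⟩ | ⟨h2, h3⟩
        · exact hloop _ (hdS i) (h2.trans h3.symm)
        · exact hloop _ (hdS i) (h2.trans h3.symm)
      · rcases wchord i j hne ⟨d i, hdS i, hE⟩ with h2 | h2
        · subst h2
          exact h.nodigon (hdS i) (hcS i) (hdc i) hE (hce i)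
        · have h3 : i - 1 = j := by rw [h2, add_sub_cancel_right]
          have h4 := hce j
          rw [← h2] at h4
          have h5 := hdc' i
          rw [h3] at h5
          exact h.nodigon (hdS i) (hcS j) h5 hE (ends_symm h4)
    refine h.circ n hn (lin n hn hng) w c d ⟨winj, cinj, ?_, hcS, hdS, ?_, hce,
      fun i => ⟨u i, hde i, hu i⟩, hdeg⟩
    · intro i j hij
      have h2 := hde i
      have h3 := hde j
      rw [← hij] at h3
      rcases h2 with ⟨h2, h2'⟩ | ⟨h2, h2'⟩ <;> rcases h3 with ⟨h3, h3'⟩ | ⟨h3, h3'⟩
      · exact winj (h2.symm.trans h3)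
      · exact absurd (h2'.symm.trans h3') (hu i j)
      · exact absurd (h2.symm.trans h3) (hu i j)
      · exact winj (h2'.symm.trans h3')
    · intro i j hij
      have h2 := hce i
      have h3 := hde j
      rw [← hij] at h3
      rcases h2 with ⟨h2, h2'⟩ | ⟨h2, h2'⟩ <;> rcases h3 with ⟨h3, h3'⟩ | ⟨h3, h3'⟩
      · exact hu j (i + 1) (h3'.symm.trans h2')
      · exact hu j i (h3.symm.trans h2)
      · exact hu j i (h3'.symm.trans h2')
      · exact hu j (i + 1) (h3.symm.trans h2)

end Girth

theorem MinR.girth {s t : E → V} {S : Finset E} (h : MinR s t S)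
    (hcub : ∀ v, deg s t S v = 0 ∨ deg s t S v = 3) (g : ℕ)
    (lin : ∀ n, 3 ≤ n → n ≤ g → Lin n) (u : V) (w : (gr s t S).Walk u u) (hw : w.IsCycle) :
    g < w.length := by
  by_contra hcon
  push Not at hcon
  have h3 := hw.three_le_length
  refine Girth.no_seq h hcub g lin w.length h3 hcon w.getVert ⟨?_, ?_, ?_⟩
  · intro i j hi hj hij
    exact hw.getVert_injOn' (by simp only [Set.mem_ofPred_eq]; omega)
      (by simp only [Set.mem_ofPred_eq]; omega) hij
  · intro i hi
    exact (w.adj_getVert_succ (by omega)).2
  · have h4 := (w.adj_getVert_succ (i := w.length - 1) (by omega)).2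
    have e1 : w.length - 1 + 1 = w.length := by omega
    rw [e1, w.getVert_length] at h4
    rw [w.getVert_zero]
    exact Girth.adj_symm h4

end Pool.Agent.TH362.FF
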