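import Pool.Agent.TH362.FF.Cut

/-!
Minimal counterexamples (with a bound for the number of vertices of odd degree) to the statement on
flows with values in the group of order five are cubic.
-/

set_option autoImplicit false
set_option linter.unusedSectionVars false

namespace Pool.Agent.TH362.FF

open Finset Pool.Agent.TH362.TF

variable {V E : Type} [Fintype V] [DecidableEq V] [Fintype E] [DecidableEq E]

private theorem ends_sym {M : Type} {s t : E → V} {e : E} {u v : V} (h : Ends s t u v e)
    (G : V → V → M) (hG : ∀ u v, G u v = G v u) : G (s e) (t e) = G u v := by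
  rcases h with ⟨h1, h2⟩ | ⟨h1, h2⟩
  · rw [h1, h2]
  · rw [h1, h2]; exact hG v u

private theorem sumG {M : Type} [AddCommMonoid M] {s t : E → V} {S : Finset E} {e f : E} {w a b : V}
    (eS : e ∈ S) (fS : f ∈ S) (ef : e ≠ f) (he : Ends s t w a e) (hf : Ends s t w b f)
    (G : V → V → M) (hG : ∀ u v, G u v = G v u) :
    ∑ g ∈ S, G (s g) (t g) = G w b + (G w a + ∑ g ∈ (S.erase f).erase e, G (s g) (t g)) := by
  rw [← Finset.add_sum_erase S _ fS, ← Finset.add_sum_erase (S.erase f) _
    (Finset.mem_erase.2 ⟨ef, eS⟩), ends_sym he G hG, ends_sym hf G hG]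

private theorem sumG' {M : Type} [AddCommMonoid M] {s t : E → V} {S : Finset E} {e f : E} {a b : V}
    (eS : e ∈ S) (ef : e ≠ f) (G : V → V → M) :
    ∑ g ∈ S.erase f, G (Function.update s e a g) (Function.update t e b g)
      = G a b + ∑ g ∈ (S.erase f).erase e, G (s g) (t g) := by
  rw [← Finset.add_sum_erase (S.erase f) _ (Finset.mem_erase.2 ⟨ef, eS⟩), Function.update_self,
    Function.update_self]
  congr 1
  refine Finset.sum_congr rfl fun g hg => ?_
  have h1 : g ≠ e := (Finset.mem_erase.1 hg).1
  rw [Function.update_of_ne h1, Function.update_of_ne h1]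

private theorem cut_rel {s t : E → V} {S : Finset E} {e f : E} {w a b : V}
    (eS : e ∈ S) (fS : f ∈ S) (ef : e ≠ f) (he : Ends s t w a e) (hf : Ends s t w b f)
    (x : V → Bool) :
    (cut s t S x).card = (cut (Function.update s e a) (Function.update t e b) (S.erase f) x).card
      + if x a = x b ∧ x w ≠ x a then 2 else 0 := by
  unfold cut
  rw [Finset.card_filter, Finset.card_filter,
    sumG eS fS ef he hf (fun u v => if x u ≠ x v then 1 else 0) (fun u v => by
      by_cases h : x u = x v
      · simp [h]
      · simp [h, Ne.symm h]),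
    sumG' (a := a) (b := b) eS ef (fun u v => if x u ≠ x v then 1 else 0)]
  cases hw : x w <;> cases ha : x a <;> cases hb : x b <;> simp <;> omega

private theorem deg_rel {s t : E → V} {S : Finset E} {e f : E} {w a b : V}
    (eS : e ∈ S) (fS : f ∈ S) (ef : e ≠ f) (he : Ends s t w a e) (hf : Ends s t w b f) (v : V) :
    deg s t S v = deg (Function.update s e a) (Function.update t e b) (S.erase f) v
      + if w = v then 2 else 0 := by
  unfold deg
  rw [sumG eS fS ef he hf (fun p q => (if p = v then 1 else 0) + (if q = v then 1 else 0))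
      (fun p q => by rw [add_comm]),
    sumG' (a := a) (b := b) eS ef (fun p q => (if p = v then 1 else 0) + (if q = v then 1 else 0))]
  split_ifs <;> omega

private theorem odd_rel {s t : E → V} {S : Finset E} {e f : E} {w a b : V}
    (eS : e ∈ S) (fS : f ∈ S) (ef : e ≠ f) (he : Ends s t w a e) (hf : Ends s t w b f) :
    odd (Function.update s e a) (Function.update t e b) (S.erase f) = odd s t S := by
  ext v
  unfold odd
  simp only [Finset.mem_filter, Finset.mem_univ, true_and]
  rw [deg_rel eS fS ef he hf v, Nat.odd_iff, Nat.odd_iff]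
  split_ifs <;> omega

/-- a value which carries the amount `c` along the edge `g` from `q` to `p` -/
private theorem carry {s t : E → V} {g : E} {p q : V} (h : Ends s t p q g) {c : ZMod 5}
    (hc : c ≠ 0) : ∃ α : ZMod 5, α ≠ 0 ∧ ∀ v, (if s g = v then α else 0) -
      (if t g = v then α else 0) = (if q = v then c else 0) - (if p = v then c else 0) := by
  rcases h with ⟨h1, h2⟩ | ⟨h1, h2⟩
  · refine ⟨-c, neg_ne_zero.2 hc, fun v => ?_⟩
    rw [h1, h2]
    by_cases hp : p = v <;> by_cases hq : q = v <;> simp [hp, hq]
  · exact ⟨c, hc, fun v => by rw [h1, h2]⟩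

private theorem nz_rel {s t : E → V} {S : Finset E} {e f : E} {w a b : V}
    (eS : e ∈ S) (fS : f ∈ S) (ef : e ≠ f) (he : Ends s t w a e) (hf : Ends s t w b f)
    (h : NZ5 (Function.update s e a) (Function.update t e b) (S.erase f)) : NZ5 s t S := by
  obtain ⟨φ, h1, h2⟩ := h
  have he0 : φ e ≠ 0 := h1 e (Finset.mem_erase.2 ⟨ef, eS⟩)
  have hf' : Ends s t b w f := hf.symm
  obtain ⟨α, hα0, hα⟩ := carry he he0
  obtain ⟨β, hβ0, hβ⟩ := carry hf' he0
  refine ⟨Function.update (Function.update φ e α) f β, fun g hg => ?_, fun v => ?_⟩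
  · by_cases hgf : g = f
    · rw [hgf, Function.update_self]
      exact hβ0
    · rw [Function.update_of_ne hgf]
      by_cases hge : g = e
      · rw [hge, Function.update_self]
        exact hα0
      · rw [Function.update_of_ne hge]
        exact h1 g (Finset.mem_erase.2 ⟨hgf, hg⟩)
  · have h3 := h2 v
    unfold bd at h3 ⊢
    rw [← Finset.add_sum_erase (S.erase f) _ (Finset.mem_erase.2 ⟨ef, eS⟩), Function.update_self,
      Function.update_self] at h3
    rw [← Finset.add_sum_erase S _ fS, ← Finset.add_sum_erase (S.erase f) _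
      (Finset.mem_erase.2 ⟨ef, eS⟩), Function.update_self, Function.update_of_ne ef,
      Function.update_self, hα, hβ]
    have h4 : ∑ g ∈ (S.erase f).erase e, ((if Function.update s e a g = v then φ g else 0) -
        (if Function.update t e b g = v then φ g else 0))
        = ∑ g ∈ (S.erase f).erase e,
          ((if s g = v then Function.update (Function.update φ e α) f β g else 0) -
          (if t g = v then Function.update (Function.update φ e α) f β g else 0)) := by
      refine Finset.sum_congr rfl fun g hg => ?_
      have h5 := Finset.mem_erase.1 hg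
      have h6 := Finset.mem_erase.1 h5.2
      rw [Function.update_of_ne h5.1, Function.update_of_ne h5.1, Function.update_of_ne h6.1,
        Function.update_of_ne h5.1]
    rw [h4] at h3
    have e4 : ∀ W A B R : ZMod 5, A - B + R = 0 → (W - B) + ((A - W) + R) = 0 := by
      intro W A B R h
      have e5 : (W - B) + ((A - W) + R) = A - B + R := by ring
      rw [e5, h]
    exact e4 _ _ _ _ h3

/-- the edges at a vertex -/
private theorem deg_card {s t : E → V} {S : Finset E} (hl : ∀ e ∈ S, s e ≠ t e) (v : V) :
    deg s t S v = (S.filter (fun e => s e = v ∨ t e = v)).card := by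
  unfold deg
  rw [Finset.card_filter]
  refine Finset.sum_congr rfl fun e he => ?_
  have h1 := hl e he
  by_cases hs : s e = v
  · have ht : t e ≠ v := fun h => h1 (hs.trans h.symm)
    simp [hs, ht]
  · by_cases ht : t e = v <;> simp [hs, ht]

private theorem other {s t : E → V} {v : V} {e : E} (h : s e = v ∨ t e = v) :
    Ends s t v (if s e = v then t e else s e) e := by
  unfold Ends
  by_cases hs : s e = v
  · rw [if_pos hs]; exact Or.inl ⟨hs, rfl⟩
  · rw [if_neg hs]; exact Or.inr ⟨rfl, h.resolve_left hs⟩

private theorem deg_pos_of {s t : E → V} {S : Finset E} {e : E} (he : e ∈ S) {v : V}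
    (h : s e = v ∨ t e = v) : deg s t S v ≠ 0 := by
  unfold deg
  intro h0
  rw [Finset.sum_eq_zero_iff] at h0
  have h1 := h0 e he
  rcases h with h | h <;> simp [h] at h1

theorem MinK.toMinR {K : ℕ} {s t : E → V} {S : Finset E} (h : MinK K s t S) : MinR s t S :=
  ⟨h.n1, h.nz, fun _ _ hS hf hc => h.ih _ _ _ hc (quot_n1 hS hf h.n1)
    ((Finset.card_le_card (quot_odd hS hf)).trans (Finset.card_image_le.trans h.odd))⟩

/-- lifting with given edges -/
private theorem lift_main {K : ℕ} {s t : E → V} {S : Finset E} (h : MinK K s t S) {w : V}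
    (hw : 4 ≤ deg s t S w) {e f : E} {a b : V} (eS : e ∈ S) (fS : f ∈ S) (ef : e ≠ f)
    (he : Ends s t w a e) (hf : Ends s t w b f) (hab : a = b → 4 ≤ deg s t S a) : False := by
  have hn1 : N1 (Function.update s e a) (Function.update t e b) (S.erase f) := by
    intro x hx
    have h1 := cut_rel eS fS ef he hf x
    rw [hx] at h1
    have h2 := h.n1 x
    by_cases hc : x a = x b ∧ x w ≠ x a
    · rw [if_pos hc] at h1
      obtain ⟨v, hv3, hv⟩ := h.toMinR.triv3 x h1
      by_cases hxv : x v = x w
      · by_cases hwv : w = v
        · rw [hwv] at hw; omega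
        · have := hv w hxv.symm hwv
          omega
      · have hxa : x a = x v := by
          have := hc.2
          cases h5 : x v <;> cases h6 : x w <;> cases h7 : x a <;> simp_all
        have hxb : x b = x v := hc.1 ▸ hxa
        have ha : a = v := by
          by_contra hav
          refine deg_pos_of eS ?_ (hv a hxa hav)
          rcases he with ⟨_, h5⟩ | ⟨h5, _⟩
          · exact Or.inr h5
          · exact Or.inl h5
        have hb : b = v := by
          by_contra hbv
          refine deg_pos_of fS ?_ (hv b hxb hbv)
          rcases hf with ⟨_, h5⟩ | ⟨h5, _⟩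
          · exact Or.inr h5
          · exact Or.inl h5
        have h8 := hab (ha.trans hb.symm)
        rw [ha] at h8
        omega
    · rw [if_neg hc, add_zero] at h1
      exact h2 h1
  have hcard : (S.erase f).card < S.card := Finset.card_erase_lt_of_mem fS
  exact h.nz (nz_rel eS fS ef he hf (h.ih _ _ _ hcard hn1
    (by rw [odd_rel eS fS ef he hf]; exact h.odd)))

theorem MinK.cubic {K : ℕ} {s t : E → V} {S : Finset E} (h : MinK K s t S) (v : V) :
    deg s t S v = 0 ∨ deg s t S v = 3 := by
  by_contra hcon
  rw [not_or] at hcon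
  have hw : 4 ≤ deg s t S v := by
    rcases h.toMinR.deg_ge v with h1 | h1
    · exact absurd h1 hcon.1
    · have := hcon.2
      omega
  have hl := h.toMinR.noloop
  set I := S.filter (fun e => s e = v ∨ t e = v) with hI
  have hcI : 4 ≤ I.card := by rw [hI, ← deg_card hl]; exact hw
  obtain ⟨e, he⟩ : I.Nonempty := Finset.card_pos.1 (by omega)
  obtain ⟨eS, hew⟩ := Finset.mem_filter.1 he
  set o : E → V := fun g => if s g = v then t g else s g with ho
  by_cases hex : ∃ f ∈ I, o f ≠ o e
  · obtain ⟨f, hf, hne⟩ := hex
    obtain ⟨fS, hfw⟩ := Finset.mem_filter.1 hf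
    refine lift_main h hw eS fS ?_ (other hew) (other hfw) fun h1 => absurd h1.symm hne
    rintro rfl
    exact hne rfl
  · push Not at hex
    obtain ⟨f, hf, hfe⟩ := Finset.exists_mem_ne (by omega : 1 < I.card) e
    obtain ⟨fS, hfw⟩ := Finset.mem_filter.1 hf
    refine lift_main h hw eS fS hfe.symm (other hew) (other hfw) fun _ => ?_
    have h1 : I ⊆ S.filter (fun g => s g = o e ∨ t g = o e) := by
      intro g hg
      obtain ⟨gS, hgw⟩ := Finset.mem_filter.1 hg
      refine Finset.mem_filter.2 ⟨gS, ?_⟩
      have h2 := hex g hg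
      simp only [ho] at h2
      by_cases hs : s g = v
      · rw [if_pos hs] at h2
        right; exact h2
      · rw [if_neg hs] at h2
        left; exact h2
    change 4 ≤ deg s t S (o e)
    rw [deg_card hl]
    exact hcI.trans (Finset.card_le_card h1)

end Pool.Agent.TH362.FF
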