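import Pool.Agent.TH362.FF.Cut
import Pool.Agent.TH362.FF.Girth
import Pool.Agent.TH362.FF.Fac
import Pool.Agent.TH362.FF.Lift

/-!
Nowhere-zero flows with values in the group of order five in graphs with few vertices of odd
degree.
-/

set_option autoImplicit false

namespace Pool.Agent.TH362.FF

open Finset Pool.Agent.TH362.TF

variable {V E : Type} [Fintype V] [DecidableEq V] [Fintype E] [DecidableEq E]

theorem mainK (g K : ℕ) (lin : ∀ n, 3 ≤ n → n ≤ g → Lin n) (hK : ∀ k, g < k → Odd k → K < 4 * k)
    (s t : E → V) (S : Finset E) (h1 : N1 s t S) (ho : (odd s t S).card ≤ K) : NZ5 s t S := by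
  obtain ⟨n, hn⟩ : ∃ n, S.card = n := ⟨_, rfl⟩
  induction n using Nat.strong_induction_on generalizing s t S with
  | _ n ih =>
    by_contra hnz
    have hmin : MinK K s t S := ⟨h1, ho, hnz, fun s' t' S' hlt hn1 hod =>
      ih S'.card (by rw [← hn]; exact hlt) s' t' S' hn1 hod rfl⟩
    have hcub := fun v => hmin.cubic v
    refine hmin.toMinR.factor hcub g K (fun u w hw => hmin.toMinR.girth hcub g lin u w hw) hK ?_
    refine (card_le_card fun v hv => ?_).trans ho
    unfold TF.odd
    rw [mem_filter] at hv ⊢
    refine ⟨mem_univ _, ?_⟩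
    rcases hcub v with h | h
    · exact absurd h hv.2
    · rw [h]; decide

end Pool.Agent.TH362.FF
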