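import Pool.Agent.TH362.FF.Str
import Pool.Agent.TH362.FF.Cut
import Mathlib.Algebra.BigOperators.Ring.Finset

/-!
Sparsity of minimal counterexamples to the statement on flows with values in the group of order
five.
-/

set_option autoImplicit false
set_option linter.unusedSectionVars false

namespace Pool.Agent.TH362.FF

open Finset Pool.Agent.TH362.TF

variable {V E : Type} [Fintype V] [DecidableEq V] [Fintype E] [DecidableEq E]

private theorem spa_main {s t : E → V} {S : Finset E} (h : MinR s t S) (N : ℕ) :
    ∀ X : Finset V, X.Nonempty → X.card ≤ N → 3 * (TP.ins s t S X).card + 5 ≤ 5 * X.card ∧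
      (2 ≤ X.card → 3 * (TP.ins s t S X).card + 6 ≤ 5 * X.card) := by
  induction N with
  | zero =>
    intro X hX hN
    have := Finset.card_pos.2 hX
    omega
  | succ N ih =>
    intro X hX hN
    by_cases h2 : 2 ≤ X.card
    · have key : 3 * (TP.ins s t S X).card + 6 ≤ 5 * X.card := by
        by_contra hc
        refine h.nostrong X h2 fun c π hπ => ?_
        by_contra hcon
        apply hc
        have hc2 : 2 ≤ c := by omega
        -- the classes
        have hlt : ∀ j : Fin c, (X.filter (fun v => π v = j)).card < X.card := by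
          intro j
          have hex : ∃ j' : Fin c, j' ≠ j := by
            by_cases hj : j = ⟨0, by omega⟩
            · exact ⟨⟨1, by omega⟩, by rw [hj]; intro h5; have := Fin.val_eq_of_eq h5; simp at this⟩
            · exact ⟨⟨0, by omega⟩, Ne.symm hj⟩
          obtain ⟨j', hj'⟩ := hex
          obtain ⟨v, hv, hvj⟩ := hπ j'
          apply Finset.card_lt_card
          rw [Finset.filter_ssubset]
          exact ⟨v, hv, fun h5 => hj' (hvj.symm.trans h5)⟩
        have hne : ∀ j : Fin c, (X.filter (fun v => π v = j)).Nonempty := by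
          intro j
          obtain ⟨v, hv, hvj⟩ := hπ j
          exact ⟨v, Finset.mem_filter.2 ⟨hv, hvj⟩⟩
        have hih : ∀ j : Fin c, 3 * (TP.ins s t S (X.filter (fun v => π v = j))).card + 5 ≤
            5 * (X.filter (fun v => π v = j)).card := by
          intro j
          have := hlt j
          exact (ih _ (hne j) (by omega)).1
        have hsum := Finset.sum_le_sum fun (j : Fin c) (_ : j ∈ univ) => hih j
        rw [Finset.sum_add_distrib, ← Finset.mul_sum, ← Finset.mul_sum, Finset.sum_const,
          Finset.card_univ, Fintype.card_fin, smul_eq_mul] at hsum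
        have hXsum : X.card = ∑ j : Fin c, (X.filter (fun v => π v = j)).card :=
          Finset.card_eq_sum_card_fiberwise (fun _ _ => Finset.mem_coe.2 (Finset.mem_univ _))
        have hin : ((TP.ins s t S X).filter (fun e => π (s e) = π (t e))).card =
            ∑ j : Fin c, (TP.ins s t S (X.filter (fun v => π v = j))).card := by
          rw [Finset.card_eq_sum_card_fiberwise (f := fun e => π (s e)) (t := univ)
            (fun _ _ => Finset.mem_coe.2 (Finset.mem_univ _))]
          apply Finset.sum_congr rfl
          intro j _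
          congr 1
          ext e
          simp only [TP.ins, Finset.mem_filter]
          constructor
          · rintro ⟨⟨⟨h5, h6, h7⟩, h8⟩, h9⟩
            exact ⟨h5, ⟨h6, h9⟩, ⟨h7, h8 ▸ h9⟩⟩
          · rintro ⟨h5, ⟨h6, h9⟩, ⟨h7, h8⟩⟩
            exact ⟨⟨⟨h5, h6, h7⟩, h9.trans h8.symm⟩, h9⟩
        have hsplit := Finset.card_filter_add_card_filter_not (s := TP.ins s t S X)
          (fun e => π (s e) = π (t e))
        rw [← hXsum, ← hin] at hsum
        have hcon' : 3 * ((TP.ins s t S X).filter (fun e => ¬ π (s e) = π (t e))).card + 5 <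
            5 * c := not_le.1 hcon
        omega
      exact ⟨by omega, fun _ => key⟩
    · have h1 : X.card = 1 := by
        have := Finset.card_pos.2 hX
        omega
      obtain ⟨v, rfl⟩ := Finset.card_eq_one.1 h1
      have h3 : TP.ins s t S {v} = ∅ := by
        rw [Finset.eq_empty_iff_forall_notMem]
        intro e he
        simp only [TP.ins, Finset.mem_filter, Finset.mem_singleton] at he
        exact h.noloop e he.1 (he.2.1.trans he.2.2.symm)
      rw [h3]
      refine ⟨by simp, fun h5 => absurd h5 h2⟩

private theorem spa_deg {s t : E → V} {S : Finset E} {e : E} (he : e ∈ S) {v : V}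
    (h : s e = v ∨ t e = v) : deg s t S v ≠ 0 := by
  unfold deg
  intro h0
  rw [Finset.sum_eq_zero_iff] at h0
  have h1 := h0 e he
  rcases h with h | h <;> simp [h] at h1

theorem MinR.sparse5 {s t : E → V} {S : Finset E} (h : MinR s t S) :
    3 * S.card + 6 ≤ 5 * (univ.filter (fun v => deg s t S v ≠ 0)).card := by
  have hne : S.Nonempty := by
    by_contra hc
    rw [Finset.not_nonempty_iff_eq_empty] at hc
    subst hc
    exact h.nz ⟨fun _ => 0, fun e he => absurd he (Finset.notMem_empty e), fun v => by simp [bd]⟩
  obtain ⟨e, he⟩ := hne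
  have hm : ∀ e ∈ S, s e ∈ univ.filter (fun v => deg s t S v ≠ 0) ∧
      t e ∈ univ.filter (fun v => deg s t S v ≠ 0) := by
    intro e he
    exact ⟨Finset.mem_filter.2 ⟨Finset.mem_univ _, spa_deg he (Or.inl rfl)⟩,
      Finset.mem_filter.2 ⟨Finset.mem_univ _, spa_deg he (Or.inr rfl)⟩⟩
  have hins : TP.ins s t S (univ.filter (fun v => deg s t S v ≠ 0)) = S := by
    unfold TP.ins
    exact Finset.filter_true_of_mem hm
  have h2 : 2 ≤ (univ.filter (fun v => deg s t S v ≠ 0)).card :=
    Finset.one_lt_card.2 ⟨s e, (hm e he).1, t e, (hm e he).2, h.noloop e he⟩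
  have h3 := (spa_main h _ _ ⟨s e, (hm e he).1⟩ le_rfl).2 h2
  rw [hins] at h3
  exact h3

end Pool.Agent.TH362.FF
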