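import Pool.Agent.TH362.FF.Cut
import Pool.Agent.TH362.FF.Spa
import Pool.Agent.TH362.FF.MainK
import Mathlib.Algebra.BigOperators.Ring.Finset

/-! The theorem on graphs with few edge cuts of size three. -/

set_option autoImplicit false

namespace Pool.Agent.TH362.FF

open Finset Pool.Agent.TH362.TF

set_option linter.unusedSectionVars false

variable {V E : Type} [Fintype V] [DecidableEq V] [Fintype E] [DecidableEq E]

namespace FinN

theorem cuts3_quot {s t : E → V} {S S' : Finset E} {f : V → V} (hS : S' ⊆ S)
    (hf : ∀ e ∈ S, e ∉ S' → f (s e) = f (t e)) :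
    TP.cuts3 (fun e => f (s e)) (fun e => f (t e)) S' ⊆ TP.cuts3 s t S := by
  intro C hC
  simp only [TP.cuts3, Finset.mem_filter, Finset.mem_image, Finset.mem_univ, true_and] at hC ⊢
  obtain ⟨⟨x, hx⟩, h3⟩ := hC
  refine ⟨⟨fun v => x (f v), ?_⟩, h3⟩
  rw [← quot_cut hS hf, hx]

theorem sum_deg (s t : E → V) (S : Finset E) : ∑ v : V, deg s t S v = 2 * S.card := by
  rw [deg_sum]
  simp only [Finset.mem_univ, if_true]
  rw [Finset.sum_const, smul_eq_mul]
  ring

theorem cut_single {s t : E → V} {S : Finset E} (hl : ∀ e ∈ S, s e ≠ t e) (v : V) :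
    (cut s t S (fun u => decide (u = v))).card = deg s t S v := by
  unfold cut deg
  rw [Finset.card_filter]
  refine Finset.sum_congr rfl fun e he => ?_
  have h := hl e he
  by_cases h1 : s e = v
  · have h2 : ¬ t e = v := fun h2 => h (h1.trans h2.symm)
    simp [h1, h2]
  · by_cases h2 : t e = v
    · simp [h1, h2]
    · simp [h1, h2]

/-- the ends of an edge which is in the cuts of `u` and of `v` -/
theorem ends_of {s t : E → V} {S : Finset E} {u v : V} (huv : u ≠ v) {e : E}
    (h1 : e ∈ cut s t S (fun w => decide (w = u))) (h2 : e ∈ cut s t S (fun w => decide (w = v))) :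
    Ends s t u v e := by
  simp only [cut, Finset.mem_filter] at h1 h2
  have h3 := h1.2
  have h4 := h2.2
  by_cases a1 : s e = u
  · have a2 : ¬ s e = v := fun h => huv (a1.symm.trans h)
    have a3 : t e = v := by
      by_contra a3
      simp [a2, a3] at h4
    exact Or.inl ⟨a1, a3⟩
  · have a2 : t e = u := by
      by_contra a2
      simp [a1, a2] at h3
    have a3 : ¬ t e = v := fun h => huv (a2.symm.trans h)
    have a4 : s e = v := by
      by_contra a4
      simp [a3, a4] at h4
    exact Or.inr ⟨a4, a2⟩

theorem d3_le {s t : E → V} {S : Finset E} (h : MinR s t S) :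
    (univ.filter (fun v => deg s t S v = 3)).card ≤ (TP.cuts3 s t S).card := by
  apply Finset.card_le_card_of_injOn (fun v => cut s t S (fun u => decide (u = v)))
  · intro v hv
    simp only [Finset.coe_filter, Finset.mem_univ, true_and, Set.mem_ofPred_eq] at hv
    simp only [TP.cuts3, Finset.coe_filter, Finset.mem_image, Finset.mem_univ, true_and,
      Set.mem_ofPred_eq]
    exact ⟨⟨_, rfl⟩, by rw [cut_single h.noloop]; exact hv⟩
  · intro u hu v hv huv
    simp only [Finset.coe_filter, Finset.mem_univ, true_and, Set.mem_ofPred_eq] at hu hv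
    by_contra hne
    have huv' : cut s t S (fun w => decide (w = u)) = cut s t S (fun w => decide (w = v)) := huv
    have hc : (cut s t S (fun w => decide (w = u))).card = 3 := by
      rw [cut_single h.noloop]; exact hu
    obtain ⟨e, he, e', he', hee⟩ := Finset.one_lt_card.1
      (by omega : 1 < (cut s t S (fun w => decide (w = u))).card)
    have k1 := ends_of hne he (huv' ▸ he)
    have k2 := ends_of hne he' (huv' ▸ he')
    have m1 : e ∈ S := (Finset.mem_filter.1 he).1
    have m2 : e' ∈ S := (Finset.mem_filter.1 he').1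
    exact h.nodigon m1 m2 hee k1 k2

theorem odd_eq {s t : E → V} {S : Finset E} (h : MinR s t S) :
    (odd s t S).card = (univ.filter (fun v => deg s t S v = 3)).card +
      (univ.filter (fun v => Odd (deg s t S v) ∧ 5 ≤ deg s t S v)).card := by
  rw [← Finset.card_union_of_disjoint]
  · congr 1
    ext v
    simp only [odd, Finset.mem_filter, Finset.mem_univ, true_and, Finset.mem_union]
    constructor
    · intro hv
      rcases h.deg_ge v with h0 | h0
      · rw [h0] at hv
        exact absurd hv (by decide)
      · by_cases h3 : deg s t S v = 3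
        · exact Or.inl h3
        · refine Or.inr ⟨hv, ?_⟩
          obtain ⟨k, hk⟩ := hv
          omega
    · rintro (h3 | h3)
      · rw [h3]
        decide
      · exact h3.1
  · rw [Finset.disjoint_left]
    intro v hv hv'
    simp only [Finset.mem_filter, Finset.mem_univ, true_and] at hv hv'
    omega

theorem odd_even (s t : E → V) (S : Finset E) : Even (odd s t S).card := by
  have h1 := parity s t S (fun _ => true)
  have h2 : (odd s t S).filter (fun _ => true = true) = odd s t S := by
    simp
  have h3 : (cut s t S (fun _ => true)) = ∅ := by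
    unfold cut
    simp
  rw [h2, h3, Finset.card_empty] at h1
  rw [Nat.even_iff, h1]

theorem five_le {s t : E → V} {S : Finset E} (h : MinR s t S) :
    5 * (univ.filter (fun v => Odd (deg s t S v) ∧ 5 ≤ deg s t S v)).card + 12 ≤
      (univ.filter (fun v => deg s t S v = 3)).card := by
  have hs := h.sparse5
  have hp : ∀ v ∈ univ.filter (fun v => deg s t S v ≠ 0),
      10 + 5 * (if Odd (deg s t S v) ∧ 5 ≤ deg s t S v then 1 else 0) ≤
        3 * deg s t S v + (if deg s t S v = 3 then 1 else 0) := by
    intro v hv
    simp only [Finset.mem_filter, Finset.mem_univ, true_and] at hv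
    have h3 : 3 ≤ deg s t S v := by
      rcases h.deg_ge v with h0 | h0
      · exact absurd h0 hv
      · exact h0
    by_cases h4 : deg s t S v = 3
    · rw [h4]
      decide
    · rw [if_neg h4]
      split_ifs with h5
      · omega
      · omega
  have hsum := Finset.sum_le_sum hp
  rw [Finset.sum_add_distrib, Finset.sum_add_distrib, ← Finset.mul_sum, ← Finset.mul_sum,
    Finset.sum_const, smul_eq_mul] at hsum
  have e1 : ∑ v ∈ univ.filter (fun v => deg s t S v ≠ 0), deg s t S v = 2 * S.card := by
    rw [← sum_deg s t S]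
    exact Finset.sum_filter_ne_zero _
  have e2 : ∑ v ∈ univ.filter (fun v => deg s t S v ≠ 0),
      (if Odd (deg s t S v) ∧ 5 ≤ deg s t S v then 1 else 0) =
      (univ.filter (fun v => Odd (deg s t S v) ∧ 5 ≤ deg s t S v)).card := by
    rw [← Finset.card_filter, Finset.filter_filter]
    congr 1
    apply Finset.filter_congr
    intro v _
    constructor
    · rintro ⟨_, h⟩
      exact h
    · intro h
      refine ⟨?_, h⟩
      omega
  have e3 : ∑ v ∈ univ.filter (fun v => deg s t S v ≠ 0),
      (if deg s t S v = 3 then 1 else 0) = (univ.filter (fun v => deg s t S v = 3)).card := by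
    rw [← Finset.card_filter, Finset.filter_filter]
    congr 1
    apply Finset.filter_congr
    intro v _
    constructor
    · rintro ⟨_, h⟩
      exact h
    · intro h
      exact ⟨by omega, h⟩
  rw [e1, e2, e3] at hsum
  omega

theorem aux (g K N : ℕ) (lin : ∀ n, 3 ≤ n → n ≤ g → Lin n)
    (hK : ∀ k, g < k → Odd k → K < 4 * k)
    (hN : ∀ a b, a ≤ N → 5 * b + 12 ≤ a → Even (a + b) → a + b ≤ K) :
    ∀ (n : ℕ) (s t : E → V) (S : Finset E), S.card = n → N1 s t S →
      (TP.cuts3 s t S).card ≤ N → NZ5 s t S := by
  intro n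
  induction n using Nat.strong_induction_on with
  | _ n IH =>
    intro s t S hn h1 h3
    by_contra hnz
    have hR : MinR s t S := by
      refine ⟨h1, hnz, ?_⟩
      intro f S' hS hf hlt
      exact IH S'.card (by omega) (fun e => f (s e)) (fun e => f (t e)) S' rfl
        (quot_n1 hS hf h1) ((Finset.card_le_card (cuts3_quot hS hf)).trans h3)
    have k1 := five_le hR
    have k2 := d3_le hR
    have k3 := odd_eq hR
    have k4 := odd_even s t S
    rw [k3] at k4
    have k5 := hN _ _ (k2.trans h3) k1 k4
    rw [← k3] at k5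
    exact hnz (mainK g K lin hK s t S h1 k5)

end FinN

theorem cutsN (g K N : ℕ) (lin : ∀ n, 3 ≤ n → n ≤ g → Lin n)
    (hK : ∀ k, g < k → Odd k → K < 4 * k)
    (hN : ∀ a b, a ≤ N → 5 * b + 12 ≤ a → Even (a + b) → a + b ≤ K)
    (s t : E → V) (S : Finset E) (h1 : N1 s t S) (h3 : (TP.cuts3 s t S).card ≤ N) :
    NZ5 s t S :=
  FinN.aux g K N lin hK hN S.card s t S rfl h1 h3

end Pool.Agent.TH362.FF
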