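import Pool.Agent.TH362.FF.Defs
import Mathlib.Data.Fintype.BigOperators
import Mathlib.Algebra.BigOperators.Ring.Finset
import Mathlib.Tactic.Abel
import Mathlib.Tactic.LinearCombination
import Mathlib.Logic.Function.Basic

/-!
The number of the nowhere-zero flows of a network with prescribed divergences at the roots is an
integral combination of the indicator functions of partitions of the roots
(deletion and contraction).
-/

set_option autoImplicit false
set_option linter.unusedSectionVars false

namespace Pool.Agent.TH362.FF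

open Finset Pool.Agent.TH362.TF

namespace Net

section
variable {V E : Type} [Fintype V] [DecidableEq V] [Fintype E] [DecidableEq E]

omit [Fintype V] [Fintype E] in
theorem bd_insert (s t : E → V) {S : Finset E} {e : E} (he : e ∉ S) (φ : E → ZMod 5) (v : V) :
    bd s t (insert e S) φ v =
      ((if s e = v then φ e else 0) - (if t e = v then φ e else 0)) + bd s t S φ v := by
  unfold bd
  rw [Finset.sum_insert he]

omit [Fintype V] [Fintype E] in
theorem bd_update (s t : E → V) {S : Finset E} {e : E} (he : e ∉ S) (φ : E → ZMod 5)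
    (a : ZMod 5) (v : V) :
    bd s t S (Function.update φ e a) v = bd s t S φ v := by
  unfold bd
  refine Finset.sum_congr rfl fun e' he' => ?_
  have : e' ≠ e := fun h => he (h ▸ he')
  rw [Function.update_of_ne this]

omit [Fintype E] in
theorem bd_quot (s t : E → V) (S : Finset E) (f : V → V) (φ : E → ZMod 5) (w : V) :
    bd (fun e => f (s e)) (fun e => f (t e)) S φ w =
      ∑ v ∈ univ.filter (fun v => f v = w), bd s t S φ v := by
  unfold bd
  rw [Finset.sum_comm]
  refine Finset.sum_congr rfl fun e _ => ?_
  rw [Finset.sum_sub_distrib, Finset.sum_ite_eq, Finset.sum_ite_eq]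
  simp

/-- Membership in the set counted by `cnt`. -/
def Cd (s t : E → V) (S : Finset E) (b : V → ZMod 5) (φ : E → ZMod 5) : Prop :=
  (∀ e ∈ S, φ e ≠ 0) ∧ (∀ e, e ∉ S → φ e = 0) ∧ ∀ v, bd s t S φ v = b v

instance (s t : E → V) (S : Finset E) (b : V → ZMod 5) (φ : E → ZMod 5) :
    Decidable (Cd s t S b φ) := by unfold Cd; infer_instance

theorem cnt_eq (s t : E → V) (S : Finset E) (b : V → ZMod 5) :
    cnt s t S b = ((univ : Finset (E → ZMod 5)).filter (fun φ => Cd s t S b φ)).card := by
  unfold cnt
  congr 1

theorem cnt_empty (s t : E → V) (b : V → ZMod 5) :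
    cnt s t ∅ b = if ∀ v, b v = 0 then 1 else 0 := by
  rw [cnt_eq]
  split_ifs with h
  · rw [Finset.card_eq_one]
    refine ⟨0, ?_⟩
    ext φ
    simp only [Finset.mem_filter, Finset.mem_univ, true_and, Finset.mem_singleton]
    constructor
    · rintro ⟨_, h2, _⟩
      funext e
      exact h2 e (by simp)
    · rintro rfl
      refine ⟨by simp, by simp, fun v => ?_⟩
      rw [h v]; simp [bd]
  · rw [Finset.card_eq_zero]
    ext φ
    simp only [Finset.mem_filter, Finset.mem_univ, true_and, Finset.notMem_empty, iff_false]
    rintro ⟨_, _, h3⟩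
    exact h fun v => by rw [← h3 v]; simp [bd]

theorem cnt_loop (s t : E → V) {S : Finset E} {e : E} (he : e ∉ S) (hl : s e = t e)
    (b : V → ZMod 5) : cnt s t (insert e S) b = 4 * cnt s t S b := by
  rw [cnt_eq, cnt_eq]
  have h4 : ((univ : Finset (ZMod 5)).filter (fun a => a ≠ 0)).card = 4 := by decide
  have h5 : 4 * ((univ : Finset (E → ZMod 5)).filter (fun φ => Cd s t S b φ)).card =
      (((univ : Finset (ZMod 5)).filter (fun a => a ≠ 0)) ×ˢ
        ((univ : Finset (E → ZMod 5)).filter (fun φ => Cd s t S b φ))).card := by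
    rw [Finset.card_product, h4]
  rw [h5]
  refine Finset.card_nbij' (fun φ => (φ e, Function.update φ e 0))
    (fun p => Function.update p.2 e p.1) ?_ ?_ ?_ ?_
  · intro φ hφ
    simp only [Finset.coe_filter, Finset.mem_univ, true_and, Set.mem_ofPred_eq] at hφ
    obtain ⟨h1, h2, h3⟩ := hφ
    simp only [Finset.coe_product, Set.mem_prod, Finset.coe_filter, Finset.mem_univ, true_and,
      Set.mem_ofPred_eq]
    refine ⟨h1 e (Finset.mem_insert_self _ _), ?_, ?_, ?_⟩
    · intro e' he'
      have : e' ≠ e := fun h => he (h ▸ he')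
      rw [Function.update_of_ne this]
      exact h1 e' (Finset.mem_insert_of_mem he')
    · intro e' he'
      by_cases h : e' = e
      · subst h; simp
      · rw [Function.update_of_ne h]
        exact h2 e' (by simp [h, he'])
    · intro v
      rw [bd_update s t he, ← h3 v, bd_insert s t he, hl]
      ring
  · rintro ⟨a, φ⟩ hp
    simp only [Finset.coe_product, Set.mem_prod, Finset.coe_filter, Finset.mem_univ, true_and,
      Set.mem_ofPred_eq] at hp
    obtain ⟨ha, h1, h2, h3⟩ := hp
    simp only [Finset.coe_filter, Finset.mem_univ, true_and, Set.mem_ofPred_eq]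
    refine ⟨?_, ?_, ?_⟩
    · intro e' he'
      by_cases h : e' = e
      · subst h; simpa using ha
      · rw [Function.update_of_ne h]
        exact h1 e' ((Finset.mem_insert.1 he').resolve_left h)
    · intro e' he'
      have h : e' ≠ e := fun h => he' (by simp [h])
      rw [Function.update_of_ne h]
      exact h2 e' (fun h' => he' (Finset.mem_insert_of_mem h'))
    · intro v
      rw [bd_insert s t he, bd_update s t he, h3 v, hl]
      ring
  · intro φ _
    simp
  · rintro ⟨a, φ⟩ hp
    simp only [Finset.coe_product, Set.mem_prod, Finset.coe_filter, Finset.mem_univ, true_and,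
      Set.mem_ofPred_eq] at hp
    obtain ⟨ha, h1, h2, h3⟩ := hp
    have := h2 e he
    simp [← this]

/-- The contraction of the edge `e`. -/
def con (s t : E → V) (e : E) (v : V) : V := if v = t e then s e else v

theorem cnt_edge (s t : E → V) {S : Finset E} {e : E} (he : e ∉ S) (hl : s e ≠ t e)
    (b : V → ZMod 5) :
    cnt s t (insert e S) b + cnt s t S b =
      cnt (fun e' => con s t e (s e')) (fun e' => con s t e (t e')) S
        (fun w => ∑ v ∈ univ.filter (fun v => con s t e v = w), b v) := by
  have hcs : con s t e (s e) = s e := by unfold con; rw [if_neg hl]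
  have hct : con s t e (t e) = s e := by unfold con; rw [if_pos rfl]
  have hcv : ∀ v, v ≠ s e → v ≠ t e →
      univ.filter (fun v' => con s t e v' = v) = {v} := by
    intro v h1 h2
    ext v'
    simp only [Finset.mem_filter, Finset.mem_univ, true_and, Finset.mem_singleton]
    unfold con
    split_ifs with h
    · subst h
      exact ⟨fun h' => absurd h'.symm h1, fun h' => absurd h'.symm h2⟩
    · rfl
  have hcse : univ.filter (fun v' => con s t e v' = s e) = {s e, t e} := by
    ext v'
    simp only [Finset.mem_filter, Finset.mem_univ, true_and, Finset.mem_singleton,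
      Finset.mem_insert]
    unfold con
    split_ifs with h
    · simp [h]
    · simp [h]
  -- the set of the functions whose value at `e` is arbitrary
  let A : Finset (E → ZMod 5) := univ.filter (fun φ =>
    (∀ e' ∈ S, φ e' ≠ 0) ∧ (∀ e', e' ∉ insert e S → φ e' = 0) ∧
      ∀ v, bd s t (insert e S) φ v = b v)
  have hA1 : A.card = cnt s t (insert e S) b + cnt s t S b := by
    rw [← Finset.card_filter_add_card_filter_not (s := A) (fun φ => φ e ≠ 0)]
    rw [cnt_eq, cnt_eq]
    congr 2
    · ext φ
      simp only [A, Finset.mem_filter, Finset.mem_univ, true_and]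
      constructor
      · rintro ⟨⟨h1, h2, h3⟩, h4⟩
        refine ⟨?_, h2, h3⟩
        intro e' he'
        rcases Finset.mem_insert.1 he' with h | h
        · rw [h]; exact h4
        · exact h1 e' h
      · rintro ⟨h1, h2, h3⟩
        exact ⟨⟨fun e' he' => h1 e' (Finset.mem_insert_of_mem he'), h2, h3⟩,
          h1 e (Finset.mem_insert_self _ _)⟩
    · ext φ
      simp only [A, Finset.mem_filter, Finset.mem_univ, true_and, not_not]
      constructor
      · rintro ⟨⟨h1, h2, h3⟩, h4⟩
        refine ⟨h1, ?_, ?_⟩
        · intro e' he'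
          by_cases h : e' = e
          · rw [h]; exact h4
          · exact h2 e' (by simp [h, he'])
        · intro v
          rw [← h3 v, bd_insert s t he, h4]
          simp
      · rintro ⟨h1, h2, h3⟩
        refine ⟨⟨h1, fun e' he' => h2 e' (fun h => he' (Finset.mem_insert_of_mem h)), ?_⟩,
          h2 e he⟩
        intro v
        rw [← h3 v, bd_insert s t he, h2 e he]
        simp
  rw [← hA1, cnt_eq]
  refine Finset.card_nbij' (fun φ => Function.update φ e 0)
    (fun ψ => Function.update ψ e (b (s e) - bd s t S ψ (s e))) ?_ ?_ ?_ ?_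
  · intro φ hφ
    simp only [A, Finset.coe_filter, Finset.mem_univ, true_and, Set.mem_ofPred_eq] at hφ
    obtain ⟨h1, h2, h3⟩ := hφ
    simp only [Finset.coe_filter, Finset.mem_univ, true_and, Set.mem_ofPred_eq]
    refine ⟨?_, ?_, ?_⟩
    · intro e' he'
      have : e' ≠ e := fun h => he (h ▸ he')
      rw [Function.update_of_ne this]
      exact h1 e' he'
    · intro e' he'
      by_cases h : e' = e
      · subst h; simp
      · rw [Function.update_of_ne h]
        exact h2 e' (by simp [h, he'])
    · intro w
      rw [bd_quot s t S (con s t e)]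
      have h5 : ∀ v, bd s t S (Function.update φ e 0) v =
          b v - ((if s e = v then φ e else 0) - (if t e = v then φ e else 0)) := by
        intro v
        rw [bd_update s t he, ← h3 v, bd_insert s t he]
        ring
      rw [Finset.sum_congr rfl fun v _ => h5 v, Finset.sum_sub_distrib, Finset.sum_sub_distrib,
        Finset.sum_ite_eq, Finset.sum_ite_eq]
      simp only [Finset.mem_filter, Finset.mem_univ, true_and, hcs, hct]
      ring
  · intro ψ hψ
    simp only [Finset.coe_filter, Finset.mem_univ, true_and, Set.mem_ofPred_eq] at hψ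
    obtain ⟨h1, h2, h3⟩ := hψ
    simp only [A, Finset.coe_filter, Finset.mem_univ, true_and, Set.mem_ofPred_eq]
    refine ⟨?_, ?_, ?_⟩
    · intro e' he'
      have : e' ≠ e := fun h => he (h ▸ he')
      rw [Function.update_of_ne this]
      exact h1 e' he'
    · intro e' he'
      have h : e' ≠ e := fun h => he' (by simp [h])
      rw [Function.update_of_ne h]
      exact h2 e' (fun h' => he' (Finset.mem_insert_of_mem h'))
    · intro v
      rw [bd_insert s t he, bd_update s t he, Function.update_self]
      by_cases hv1 : v = s e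
      · subst hv1
        rw [if_pos rfl, if_neg (Ne.symm hl)]
        ring
      · by_cases hv2 : v = t e
        · subst hv2
          rw [if_neg hl, if_pos rfl]
          have h4 : bd (fun e' => con s t e (s e')) (fun e' => con s t e (t e')) S ψ (s e) =
            ∑ v ∈ univ.filter (fun v => con s t e v = s e), b v := h3 (s e)
          rw [bd_quot s t S (con s t e), hcse, Finset.sum_pair hl, Finset.sum_pair hl] at h4
          linear_combination h4
        · rw [if_neg (Ne.symm hv1), if_neg (Ne.symm hv2)]
          have h4 : bd (fun e' => con s t e (s e')) (fun e' => con s t e (t e')) S ψ v =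
            ∑ v' ∈ univ.filter (fun v' => con s t e v' = v), b v' := h3 v
          rw [bd_quot s t S (con s t e), hcv v hv1 hv2, Finset.sum_singleton,
            Finset.sum_singleton] at h4
          rw [h4]; ring
  · intro φ hφ
    simp only [A, Finset.coe_filter, Finset.mem_univ, true_and, Set.mem_ofPred_eq] at hφ
    obtain ⟨h1, h2, h3⟩ := hφ
    have h4 := h3 (s e)
    rw [bd_insert s t he, if_pos rfl, if_neg (Ne.symm hl)] at h4
    have h5 : b (s e) - bd s t S (Function.update φ e 0) (s e) = φ e := by
      rw [bd_update s t he, ← h4]; ring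
    simp only [h5, Function.update_idem, Function.update_eq_self]
  · intro ψ hψ
    simp only [Finset.coe_filter, Finset.mem_univ, true_and, Set.mem_ofPred_eq] at hψ
    have h := hψ.2.1 e he
    simp only [Function.update_idem]
    rw [← h, Function.update_eq_self]

theorem push {n : ℕ} (r : Fin n → V) (x : Fin n → ZMod 5) (f : V → V) :
    (fun w => ∑ v ∈ univ.filter (fun v => f v = w),
      ∑ i ∈ univ.filter (fun i => r i = v), x i) =
    fun w => ∑ i ∈ univ.filter (fun i => f (r i) = w), x i := by
  funext w
  simp only [Finset.sum_filter]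
  have : ∀ v, (if f v = w then ∑ i, (if r i = v then x i else 0) else 0) =
      ∑ i, (if r i = v then (if f v = w then x i else 0) else 0) := by
    intro v
    split_ifs with h
    · rfl
    · simp
  rw [Finset.sum_congr rfl fun v _ => this v, Finset.sum_comm]
  refine Finset.sum_congr rfl fun i _ => ?_
  rw [Finset.sum_ite_eq]
  simp

theorem base {n : ℕ} (r : Fin n → V) :
    ∃ g : Fin n → Fin n, ∀ x : Fin n → ZMod 5,
      (∀ v, ∑ i ∈ univ.filter (fun i => r i = v), x i = 0) ↔
        ∀ j, ∑ i ∈ univ.filter (fun i => g i = j), x i = 0 := by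
  classical
  have hex : ∃ g : Fin n → Fin n, ∀ i j, g i = g j ↔ r i = r j := by
    refine ⟨fun i => @Function.invFun _ _ ⟨i⟩ r (r i), fun i j => ⟨fun h => ?_, fun h => ?_⟩⟩
    · have h1 : r (@Function.invFun _ _ ⟨i⟩ r (r i)) = r i :=
        @Function.invFun_eq _ _ ⟨i⟩ r (r i) ⟨i, rfl⟩
      have h2 : r (@Function.invFun _ _ ⟨j⟩ r (r j)) = r j :=
        @Function.invFun_eq _ _ ⟨j⟩ r (r j) ⟨j, rfl⟩
      have h' : @Function.invFun _ _ ⟨i⟩ r (r i) = @Function.invFun _ _ ⟨j⟩ r (r j) := h
      rw [← h1, h', h2]
    · show @Function.invFun _ _ ⟨i⟩ r (r i) = @Function.invFun _ _ ⟨j⟩ r (r j)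
      rw [h]
  obtain ⟨g, hg⟩ := hex
  refine ⟨g, fun x => ⟨fun h j => ?_, fun h v => ?_⟩⟩
  · by_cases hj : ∃ i0, g i0 = j
    · obtain ⟨i0, rfl⟩ := hj
      rw [← h (r i0)]
      congr 1
      ext i
      simp [hg]
    · rw [Finset.filter_eq_empty_iff.2, Finset.sum_empty]
      intro i _ hi
      exact hj ⟨i, hi⟩
  · by_cases hv : ∃ i0, r i0 = v
    · obtain ⟨i0, rfl⟩ := hv
      rw [← h (g i0)]
      congr 1
      ext i
      simp [hg]
    · rw [Finset.filter_eq_empty_iff.2, Finset.sum_empty]
      intro i _ hi
      exact hv ⟨i, hi⟩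

end

end Net

variable {V E : Type} [Fintype V] [DecidableEq V] [Fintype E] [DecidableEq E]

theorem net (s t : E → V) (S : Finset E) {n : ℕ} (r : Fin n → V) :
    ∃ c : (Fin n → Fin n) → ℤ, ∀ x : Fin n → ZMod 5,
      (cnt s t S (fun v => ∑ i ∈ univ.filter (fun i => r i = v), x i) : ℤ) =
        ∑ g, c g * chi g x := by
  induction S using Finset.induction_on generalizing s t r with
  | empty =>
    obtain ⟨g, hg⟩ := Net.base r
    refine ⟨Pi.single g 1, fun x => ?_⟩
    rw [Net.cnt_empty, Finset.sum_eq_single g]
    · rw [Pi.single_eq_same, one_mul]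
      unfold chi
      by_cases h : ∀ v, ∑ i ∈ univ.filter (fun i => r i = v), x i = 0
      · rw [if_pos h, if_pos ((hg x).1 h)]; rfl
      · rw [if_neg h, if_neg fun h' => h ((hg x).2 h')]; rfl
    · intro g' _ hne
      rw [Pi.single_eq_of_ne hne, zero_mul]
    · intro h
      exact absurd (Finset.mem_univ g) h
  | insert e S he ih =>
    by_cases hl : s e = t e
    · obtain ⟨c, hc⟩ := ih s t r
      refine ⟨fun g => 4 * c g, fun x => ?_⟩
      rw [Net.cnt_loop s t he hl]
      push_cast
      rw [hc x, Finset.mul_sum]
      refine Finset.sum_congr rfl fun g _ => ?_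
      ring
    · obtain ⟨c, hc⟩ := ih s t r
      obtain ⟨c', hc'⟩ := ih (fun e' => Net.con s t e (s e')) (fun e' => Net.con s t e (t e'))
        (fun i => Net.con s t e (r i))
      refine ⟨fun g => c' g - c g, fun x => ?_⟩
      have h := Net.cnt_edge s t he hl (fun v => ∑ i ∈ univ.filter (fun i => r i = v), x i)
      rw [Net.push r x (Net.con s t e)] at h
      have h' : (cnt s t (insert e S) (fun v => ∑ i ∈ univ.filter (fun i => r i = v), x i) : ℤ) =
          (cnt (fun e' => Net.con s t e (s e')) (fun e' => Net.con s t e (t e')) S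
            (fun w => ∑ i ∈ univ.filter (fun i => Net.con s t e (r i) = w), x i) : ℤ) -
          (cnt s t S (fun v => ∑ i ∈ univ.filter (fun i => r i = v), x i) : ℤ) := by
        rw [← h]; push_cast; ring
      rw [h', hc x, hc' x, ← Finset.sum_sub_distrib]
      refine Finset.sum_congr rfl fun g _ => ?_
      ring

end Pool.Agent.TH362.FF
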