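import Pool.Agent.TH362.FF.Defs
import Pool.Agent.H170.Reg.Good

/-!
Subgraphs of strength `5 / 3` are contractible (part Str of the project FF).
-/

set_option autoImplicit false
set_option linter.unusedSectionVars false

namespace Pool.Agent.TH362.FF

open Finset Pool.Agent.TH362.TF

namespace Str

open Pool.Agent.H170.Reg (ic Good)

section conn

variable {W E : Type} [Fintype W] [DecidableEq W] [Fintype E] [DecidableEq E]

/-- the divergence as a linear map -/
def dv (src dst : E → W) : (E → ZMod 5) →ₗ[ZMod 5] (W → ZMod 5) where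
  toFun g v := ∑ e, g e * ic 5 src dst e v
  map_add' g g' := by
    funext v
    simp only [Pi.add_apply, add_mul, sum_add_distrib]
  map_smul' c g := by
    funext v
    simp only [Pi.smul_apply, smul_eq_mul, RingHom.id_apply, mul_sum, mul_assoc]

theorem dv_single (src dst : E → W) (e : E) :
    dv src dst (Pi.single e 1) = Pi.single (src e) 1 - Pi.single (dst e) 1 := by
  funext v
  show ∑ e', (Pi.single e (1 : ZMod 5) : E → ZMod 5) e' * ic 5 src dst e' v = _
  rw [Finset.sum_eq_single e]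
  · rw [Pi.single_eq_same, one_mul, Pi.sub_apply, Pi.single_apply, Pi.single_apply]
    unfold ic
    simp only [eq_comm]
  · intro e' _ he
    rw [Pi.single_eq_of_ne he, zero_mul]
  · intro h
    exact absurd (Finset.mem_univ e) h

open Classical in
theorem conn (src dst : E → W) (x0 : W)
    (hc : ∀ Y : Finset W, x0 ∈ Y → Y ≠ univ →
      ∃ e, (src e ∈ Y ∧ dst e ∉ Y) ∨ (src e ∉ Y ∧ dst e ∈ Y))
    (b : W → ZMod 5) (hb : ∑ v, b v = 0) :
    ∃ g : E → ZMod 5, ∀ v, ∑ e, g e * ic 5 src dst e v = b v := by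
  set R := LinearMap.range (dv src dst) with hR
  have hone : ∀ e, (Pi.single (src e) 1 - Pi.single (dst e) 1 : W → ZMod 5) ∈ R := fun e =>
    ⟨Pi.single e 1, dv_single src dst e⟩
  set Y : Finset W := univ.filter (fun u =>
    (Pi.single u 1 - Pi.single x0 1 : W → ZMod 5) ∈ R) with hY
  have hx0 : x0 ∈ Y := by
    rw [hY, mem_filter]
    refine ⟨mem_univ _, ?_⟩
    rw [sub_self]
    exact R.zero_mem
  have hYu : Y = univ := by
    by_contra hne
    obtain ⟨e, he | he⟩ := hc Y hx0 hne
    · apply he.2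
      have h1 := (mem_filter.1 he.1).2
      rw [hY, mem_filter]
      refine ⟨mem_univ _, ?_⟩
      have h2 := R.sub_mem h1 (hone e)
      have e1 : (Pi.single (src e) 1 - Pi.single x0 1 : W → ZMod 5) -
        (Pi.single (src e) 1 - Pi.single (dst e) 1) = Pi.single (dst e) 1 - Pi.single x0 1 := by
        abel
      rwa [e1] at h2
    · apply he.1
      have h1 := (mem_filter.1 he.2).2
      rw [hY, mem_filter]
      refine ⟨mem_univ _, ?_⟩
      have h2 := R.add_mem h1 (hone e)
      have e1 : (Pi.single (dst e) 1 - Pi.single x0 1 : W → ZMod 5) +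
        (Pi.single (src e) 1 - Pi.single (dst e) 1) = Pi.single (src e) 1 - Pi.single x0 1 := by
        abel
      rwa [e1] at h2
  have hbR : b ∈ R := by
    have h1 : b = ∑ u, b u • (Pi.single u 1 - Pi.single x0 1 : W → ZMod 5) := by
      funext v
      rw [Finset.sum_apply]
      have h2 : ∀ u, (b u • (Pi.single u 1 - Pi.single x0 1 : W → ZMod 5)) v =
          (if u = v then b u else 0) - b u * (Pi.single x0 1 : W → ZMod 5) v := by
        intro u
        rw [Pi.smul_apply, Pi.sub_apply, smul_eq_mul, mul_sub, Pi.single_apply]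
        congr 1
        by_cases h : u = v
        · rw [if_pos h, if_pos h.symm, mul_one]
        · rw [if_neg h, if_neg (Ne.symm h), mul_zero]
      simp only [h2]
      rw [sum_sub_distrib, ← sum_mul, hb, zero_mul, sub_zero, sum_ite_eq' univ v,
        if_pos (mem_univ v)]
    rw [h1]
    apply R.sum_mem
    intro u _
    apply R.smul_mem
    have : u ∈ Y := by rw [hYu]; exact mem_univ u
    exact (mem_filter.1 this).2
  obtain ⟨g, hg⟩ := hbR
  exact ⟨g, fun v => congrFun hg v⟩

end conn

section sub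

variable {V E : Type} [Fintype V] [DecidableEq V] [Fintype E] [DecidableEq E]

theorem card_sub (A : Finset E) (P : E → Prop) [DecidablePred P] :
    ((univ : Finset {e // e ∈ A}).filter (fun e => P e.1)).card = (A.filter P).card := by
  have h : A.filter P = ((univ : Finset {e // e ∈ A}).filter (fun e => P e.1)).map
      (Function.Embedding.subtype _) := by
    ext e
    simp only [mem_filter, mem_map, mem_univ, true_and, Function.Embedding.coe_subtype,
      Subtype.exists, exists_and_left, exists_prop]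
    constructor
    · rintro ⟨h1, h2⟩
      exact ⟨e, h2, h1, rfl⟩
    · rintro ⟨e', h2, h1, rfl⟩
      exact ⟨h1, h2⟩
  rw [h, card_map]

theorem bd_split (s t : E → V) (S A : Finset E) (hA : A ⊆ S) (φ : E → ZMod 5) (v : V) :
    bd s t S φ v = bd s t (S \ A) φ v + bd s t A φ v := by
  unfold bd
  rw [Finset.sum_sdiff hA]

theorem bd_congr {s t : E → V} {A : Finset E} {φ ψ : E → ZMod 5} (h : ∀ e ∈ A, φ e = ψ e)
    (v : V) : bd s t A φ v = bd s t A ψ v := by
  unfold bd
  exact sum_congr rfl fun e he => by rw [h e he]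

end sub

end Str

variable {V E : Type} [Fintype V] [DecidableEq V] [Fintype E] [DecidableEq E]

open Pool.Agent.H170.Reg (ic Good) in
open Str in
theorem MinR.nostrong {s t : E → V} {S : Finset E} (h : MinR s t S) (X : Finset V)
    (hX : 2 ≤ X.card)
    (hst : ∀ (c : ℕ) (π : V → Fin c), (∀ j, ∃ v ∈ X, π v = j) →
      5 * c ≤ 3 * ((TP.ins s t S X).filter (fun e => π (s e) ≠ π (t e))).card + 5) : False := by
  classical
  set A := TP.ins s t S X with hA
  have hAm : ∀ e, e ∈ A ↔ e ∈ S ∧ s e ∈ X ∧ t e ∈ X := fun e => by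
    rw [hA]
    unfold TP.ins
    rw [mem_filter]
  have hAS : A ⊆ S := fun e he => ((hAm e).1 he).1
  obtain ⟨x0, hx0, x1, hx1, hne⟩ := Finset.one_lt_card.1 (by omega : 1 < X.card)
  -- every set of vertices is left by an edge
  have hcross : ∀ Y : Finset V, (∃ v ∈ X, v ∈ Y) → (∃ v ∈ X, v ∉ Y) →
      ∃ e ∈ A, (s e ∈ Y ∧ t e ∉ Y) ∨ (s e ∉ Y ∧ t e ∈ Y) := by
    rintro Y ⟨a, haX, haY⟩ ⟨b, hbX, hbY⟩
    have h1 := hst 2 (fun v => if v ∈ Y then 0 else 1) (by
      intro j
      fin_cases j
      · exact ⟨a, haX, if_pos haY⟩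
      · exact ⟨b, hbX, if_neg hbY⟩)
    obtain ⟨e, he⟩ := Finset.card_pos.1 (by omega :
      0 < (A.filter (fun e => (if s e ∈ Y then (0 : Fin 2) else 1) ≠
        (if t e ∈ Y then (0 : Fin 2) else 1))).card)
    rw [mem_filter] at he
    refine ⟨e, he.1, ?_⟩
    by_cases h2 : s e ∈ Y
    · by_cases h3 : t e ∈ Y
      · exact absurd (by rw [if_pos h2, if_pos h3]) he.2
      · exact Or.inl ⟨h2, h3⟩
    · by_cases h3 : t e ∈ Y
      · exact Or.inr ⟨h2, h3⟩
      · exact absurd (by rw [if_neg h2, if_neg h3]) he.2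
  obtain ⟨e0, he0, -⟩ := hcross {x0} ⟨x0, hx0, mem_singleton_self _⟩
    ⟨x1, hx1, fun hh => hne (mem_singleton.1 hh).symm⟩
  -- the flow of the quotient
  set f : V → V := fun v => if v ∈ X then x0 else v with hf
  have hfX : ∀ v, v ∈ X → f v = x0 := fun v hv => if_pos hv
  have hfN : ∀ v, v ∉ X → f v = v := fun v hv => if_neg hv
  obtain ⟨φ, hφ0, hφ⟩ := h.ih f (S \ A) sdiff_subset (by
    intro e he he'
    have h1 : e ∈ A := by
      by_contra hcon
      exact he' (mem_sdiff.2 ⟨he, hcon⟩)
    rw [hAm] at h1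
    rw [hfX _ h1.2.1, hfX _ h1.2.2]) (by
    apply card_lt_card
    rw [ssubset_iff_of_subset sdiff_subset]
    exact ⟨e0, hAS he0, fun hh => (mem_sdiff.1 hh).2 he0⟩)
  have hout : ∀ v, v ∉ X → bd s t (S \ A) φ v = 0 := by
    intro v hv
    rw [← hφ v]
    unfold bd
    have hkey : ∀ u, f u = v ↔ u = v := by
      intro u
      by_cases hu : u ∈ X
      · rw [hfX u hu]
        constructor
        · intro h1
          exact absurd (h1 ▸ hx0) hv
        · intro h1
          exact absurd (h1 ▸ hu) hv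
      · rw [hfN u hu]
    exact sum_congr rfl fun e _ => by simp only [hkey]
  have hin : ∑ v ∈ X, bd s t (S \ A) φ v = 0 := by
    rw [← hφ x0]
    unfold bd
    rw [sum_comm]
    apply sum_congr rfl
    intro e _
    rw [sum_sub_distrib, sum_ite_eq, sum_ite_eq]
    have hkey : ∀ u, f u = x0 ↔ u ∈ X := by
      intro u
      by_cases hu : u ∈ X
      · rw [hfX u hu]
        exact ⟨fun _ => hu, fun _ => rfl⟩
      · rw [hfN u hu]
        exact ⟨fun h1 => h1 ▸ hx0, fun h1 => absurd h1 hu⟩
    simp only [hkey]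
  -- the subgraph
  let src : {e // e ∈ A} → {v // v ∈ X} := fun e => ⟨s e.1, ((hAm e.1).1 e.2).2.1⟩
  let dst : {e // e ∈ A} → {v // v ∈ X} := fun e => ⟨t e.1, ((hAm e.1).1 e.2).2.2⟩
  have hgood : Good 5 src dst univ := by
    apply Pool.Agent.H170.Reg.good_strength 5 (by norm_num) src dst ∅
      (Pool.Agent.H170.Reg.good_empty 5 src dst)
    intro c π hπ _
    have hc : 0 < c := Fin.pos_iff_nonempty.2 ⟨π ⟨x0, hx0⟩⟩
    set π' : V → Fin c := fun v => if hv : v ∈ X then π ⟨v, hv⟩ else ⟨0, hc⟩ with hπ'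
    have h1 := hst c π' (by
      intro j
      obtain ⟨v, hv⟩ := hπ j
      exact ⟨v.1, v.2, by rw [hπ']; simp only [v.2, dif_pos]; exact hv⟩)
    have h2 : (A.filter (fun e => π' (s e) ≠ π' (t e))).card =
        ((univ : Finset {e // e ∈ A}).filter (fun e => π (src e) ≠ π (dst e))).card := by
      rw [← card_sub]
      congr 1
      ext e
      rw [mem_filter, mem_filter]
      have h3 : π' (s e.1) = π (src e) := by
        rw [hπ']
        exact dif_pos ((hAm e.1).1 e.2).2.1
      have h4 : π' (t e.1) = π (dst e) := by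
        rw [hπ']
        exact dif_pos ((hAm e.1).1 e.2).2.2
      rw [h3, h4]
    rw [h2] at h1
    convert h1 using 2
  obtain ⟨g, hg⟩ := conn src dst ⟨x0, hx0⟩ (by
    intro Y hY hYu
    obtain ⟨w, hw⟩ : ∃ w, w ∉ Y := by
      by_contra hcon
      push Not at hcon
      exact hYu (eq_univ_iff_forall.2 hcon)
    obtain ⟨e, he, he'⟩ := hcross (Y.map (Function.Embedding.subtype _))
      ⟨x0, hx0, mem_map.2 ⟨⟨x0, hx0⟩, hY, rfl⟩⟩
      ⟨w.1, w.2, fun hh => by
        obtain ⟨w', hw', hw2⟩ := mem_map.1 hh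
        exact hw ((Subtype.ext hw2 : w' = w) ▸ hw')⟩
    have hm : ∀ u : {v // v ∈ X}, u.1 ∈ Y.map (Function.Embedding.subtype _) ↔ u ∈ Y := by
      intro u
      rw [mem_map]
      constructor
      · rintro ⟨u', hu', h1⟩
        exact (Subtype.ext h1 : u' = u) ▸ hu'
      · intro hu
        exact ⟨u, hu, rfl⟩
    refine ⟨⟨e, he⟩, ?_⟩
    rw [← hm, ← hm]
    exact he') (fun v => - bd s t (S \ A) φ v.1) (by
    rw [sum_neg_distrib, neg_eq_zero, ← hin]
    exact sum_coe_sort X (fun v => bd s t (S \ A) φ v))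
  obtain ⟨k, hk0, hk⟩ := hgood (fun _ => 0) g
  have hkd : ∀ v : {v // v ∈ X}, ∑ e, k e * ic 5 src dst e v = - bd s t (S \ A) φ v.1 := by
    intro v
    have h1 := hk v
    simp only [sub_mul, sum_sub_distrib] at h1
    rw [← hg v]
    exact sub_eq_zero.1 h1
  -- the flow
  apply h.nz
  set Φ : E → ZMod 5 := fun e => if he : e ∈ A then k ⟨e, he⟩ else φ e with hΦ
  refine ⟨Φ, ?_, ?_⟩
  · intro e he
    by_cases heA : e ∈ A
    · have h1 : Φ e = k ⟨e, heA⟩ := dif_pos heA
      rw [h1]
      exact hk0 _ (mem_univ _)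
    · have h1 : Φ e = φ e := dif_neg heA
      rw [h1]
      exact hφ0 e (mem_sdiff.2 ⟨he, heA⟩)
  · intro v
    rw [bd_split s t S A hAS, bd_congr (ψ := φ) (fun e he => dif_neg (mem_sdiff.1 he).2) v]
    by_cases hv : v ∈ X
    · have h1 : bd s t A Φ v = ∑ e, k e * ic 5 src dst e ⟨v, hv⟩ := by
        unfold bd
        rw [← sum_coe_sort A]
        apply sum_congr rfl
        intro e _
        have h2 : Φ e.1 = k e := dif_pos e.2
        rw [h2]
        unfold ic
        have h3 : (src e = ⟨v, hv⟩) ↔ s e.1 = v := Subtype.ext_iff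
        have h4 : (dst e = ⟨v, hv⟩) ↔ t e.1 = v := Subtype.ext_iff
        simp only [h3, h4]
        split_ifs <;> ring
      rw [h1, hkd]
      ring
    · rw [hout v hv, zero_add]
      unfold bd
      apply sum_eq_zero
      intro e he
      have h1 := (hAm e).1 he
      have h2 : s e ≠ v := fun hh => hv (hh ▸ h1.2.1)
      have h3 : t e ≠ v := fun hh => hv (hh ▸ h1.2.2)
      rw [if_neg h2, if_neg h3, sub_zero]

end Pool.Agent.TH362.FF
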