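import Pool.Agent.TH362.FF.Defs
import Pool.Agent.TH362.FF.Net

/-!
Transfer of boundary values at edge cuts of size three.
-/

set_option autoImplicit false
set_option linter.unusedSectionVars false

namespace Pool.Agent.TH362.FF

open Finset Pool.Agent.TH362.TF

variable {V E : Type} [Fintype V] [DecidableEq V] [Fintype E] [DecidableEq E]

namespace Tra

/-- the edges with both ends on the true side -/
def Sin (s t : E → V) (S : Finset E) (x : V → Bool) : Finset E :=
  S.filter (fun e => x (s e) = true ∧ x (t e) = true)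

/-- the true end of a cut edge -/
def R (s t : E → V) (x : V → Bool) (e : E) : V := if x (s e) = true then s e else t e

/-- the value leaving the true side -/
def sg (s : E → V) (x : V → Bool) (θ : E → ZMod 5) (e : E) : ZMod 5 :=
  if x (s e) = true then θ e else -θ e

lemma bd_split (s t : E → V) (S : Finset E) (x : V → Bool) (θ : E → ZMod 5) (v : V)
    (hv : x v = true) : bd s t S θ v = bd s t (Sin s t S x) θ v +
      ∑ e ∈ cut s t S x, (if R s t x e = v then sg s x θ e else 0) := by
  unfold bd Sin cut
  rw [sum_filter, sum_filter, ← sum_add_distrib]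
  refine sum_congr rfl fun e _ => ?_
  unfold R sg
  cases hs : x (s e) <;> cases ht : x (t e)
  · have h1 : s e ≠ v := fun h => by rw [h, hv] at hs; exact absurd hs (by decide)
    have h2 : t e ≠ v := fun h => by rw [h, hv] at ht; exact absurd ht (by decide)
    simp [h1, h2]
  · have h1 : s e ≠ v := fun h => by rw [h, hv] at hs; exact absurd hs (by decide)
    by_cases h2 : t e = v <;> simp [h1, h2]
  · have h2 : t e ≠ v := fun h => by rw [h, hv] at ht; exact absurd ht (by decide)
    by_cases h1 : s e = v <;> simp [h1, h2]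
  · simp

lemma bd_false (s t : E → V) (S : Finset E) (x : V → Bool) (θ : E → ZMod 5) (v : V)
    (hv : x v = false) : bd s t (Sin s t S x) θ v = 0 := by
  unfold bd
  refine sum_eq_zero fun e he => ?_
  rw [Sin, mem_filter] at he
  have h1 : s e ≠ v := fun h => by
    have := he.2.1
    rw [h, hv] at this
    exact absurd this (by decide)
  have h2 : t e ≠ v := fun h => by
    have := he.2.2
    rw [h, hv] at this
    exact absurd this (by decide)
  rw [if_neg h1, if_neg h2, sub_zero]

lemma bd_sum (s t : E → V) (A : Finset E) (θ : E → ZMod 5) : ∑ v, bd s t A θ v = 0 := by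
  unfold bd
  rw [sum_comm]
  refine sum_eq_zero fun e _ => ?_
  rw [sum_sub_distrib, sum_ite_eq, sum_ite_eq, if_pos (mem_univ _), if_pos (mem_univ _), sub_self]

lemma R_true {s t : E → V} {S : Finset E} {x : V → Bool} {e : E} (he : e ∈ cut s t S x) :
    x (R s t x e) = true := by
  rw [cut, mem_filter] at he
  unfold R
  split_ifs with h
  · exact h
  · cases h1 : x (t e)
    · exfalso
      apply he.2
      rw [h1]
      simpa using h
    · rfl

lemma cut_sum (s t : E → V) (S : Finset E) (x : V → Bool) (θ : E → ZMod 5)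
    (h2 : ∀ v, x v = true → bd s t S θ v = 0) : ∑ e ∈ cut s t S x, sg s x θ e = 0 := by
  have h3 : ∀ v, bd s t (Sin s t S x) θ v +
      ∑ e ∈ cut s t S x, (if R s t x e = v then sg s x θ e else 0) = 0 := by
    intro v
    cases hv : x v
    · rw [bd_false s t S x θ v hv, zero_add]
      refine sum_eq_zero fun e he => ?_
      rw [if_neg]
      intro h
      have := R_true he
      rw [h, hv] at this
      exact absurd this (by decide)
    · rw [← bd_split s t S x θ v hv, h2 v hv]
  have h4 : ∑ v, (bd s t (Sin s t S x) θ v +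
      ∑ e ∈ cut s t S x, (if R s t x e = v then sg s x θ e else 0)) = 0 :=
    sum_eq_zero fun v _ => h3 v
  rw [sum_add_distrib, bd_sum, zero_add, sum_comm] at h4
  rw [← h4]
  refine sum_congr rfl fun e _ => ?_
  rw [sum_ite_eq, if_pos (mem_univ _)]

lemma single : ∀ g : Fin 3 → Fin 3, (∀ i, g i = g 0) ∨ ∃ i0, ∀ i, g i = g i0 → i = i0 := by
  decide

lemma chi_adm (g : Fin 3 → Fin 3) (y : Fin 3 → ZMod 5) (h : Adm y) :
    chi g y = if (∀ i, g i = g 0) then 1 else 0 := by
  unfold chi
  by_cases hg : ∀ i, g i = g 0
  · rw [if_pos hg, if_pos]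
    intro j
    by_cases hj : g 0 = j
    · rw [filter_true_of_mem, h.2]
      intro i _
      rw [hg i, hj]
    · rw [filter_false_of_mem, sum_empty]
      intro i _
      rw [hg i]
      exact hj
  · rw [if_neg hg, if_neg]
    intro hall
    rcases single g with h1 | ⟨i0, h1⟩
    · exact hg h1
    · have h2 := hall (g i0)
      have h3 : univ.filter (fun i => g i = g i0) = {i0} := by
        ext i
        rw [mem_filter, mem_singleton]
        constructor
        · intro hi
          exact h1 i hi.2
        · rintro rfl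
          exact ⟨mem_univ _, rfl⟩
      rw [h3, sum_singleton] at h2
      exact h.1 i0 h2

end Tra

open Tra in
theorem transfer3 (s t : E → V) (S : Finset E) (x : V → Bool) (hC : (cut s t S x).card = 3)
    (φ ψ : E → ZMod 5) (h1 : ∀ e ∈ S, (x (s e) = true ∨ x (t e) = true) → φ e ≠ 0)
    (h2 : ∀ v, x v = true → bd s t S φ v = 0) (h3 : ∀ e ∈ cut s t S x, ψ e ≠ 0)
    (h4 : ∑ e ∈ cut s t S x, (if x (s e) = true then ψ e else -ψ e) = 0) :
    ∃ φ' : E → ZMod 5, (∀ e ∈ S, (x (s e) = true ∨ x (t e) = true) → φ' e ≠ 0) ∧
      (∀ v, x v = true → bd s t S φ' v = 0) ∧ ∀ e ∈ cut s t S x, φ' e = ψ e := by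
  -- enumeration of the cut
  obtain ⟨ε⟩ : Nonempty (Fin 3 ≃ {e // e ∈ cut s t S x}) := ⟨(Finset.equivFinOfCardEq hC).symm⟩
  have esum : ∀ F : E → ZMod 5, ∑ i, F (ε i) = ∑ e ∈ cut s t S x, F e := by
    intro F
    rw [Equiv.sum_comp ε (fun e : {e // e ∈ cut s t S x} => F e), sum_coe_sort _ F]
  have fsum : ∀ (θ : E → ZMod 5) (v : V),
      ∑ i ∈ univ.filter (fun i => R s t x (ε i) = v), -sg s x θ (ε i) =
        -∑ e ∈ cut s t S x, (if R s t x e = v then sg s x θ e else 0) := by
    intro θ v
    rw [← esum, sum_filter, ← sum_neg_distrib]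
    refine sum_congr rfl fun i _ => ?_
    split_ifs
    · rfl
    · rw [neg_zero]
  -- admissible boundary values
  have adm : ∀ θ : E → ZMod 5, (∀ e ∈ cut s t S x, θ e ≠ 0) →
      ∑ e ∈ cut s t S x, sg s x θ e = 0 → Adm (fun i => -sg s x θ (ε i)) := by
    intro θ hθ hs
    constructor
    · intro i
      rw [neg_ne_zero]
      unfold sg
      split_ifs
      · exact hθ _ (ε i).2
      · rw [neg_ne_zero]
        exact hθ _ (ε i).2
    · rw [sum_neg_distrib, esum, hs, neg_zero]
  have hcut : ∀ e ∈ cut s t S x, e ∈ S ∧ (x (s e) = true ∨ x (t e) = true) := by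
    intro e he
    rw [cut, mem_filter] at he
    refine ⟨he.1, ?_⟩
    cases hs : x (s e)
    · right
      cases ht : x (t e)
      · exfalso
        exact he.2 (hs.trans ht.symm)
      · rfl
    · left
      rfl
  have a1 := adm φ (fun e he => h1 e (hcut e he).1 (hcut e he).2) (cut_sum s t S x φ h2)
  have a2 := adm ψ h3 h4
  obtain ⟨c, hc⟩ := net s t (Sin s t S x) (fun i => R s t x (ε i))
  have hc1 := hc (fun i => -sg s x φ (ε i))
  have hc2 := hc (fun i => -sg s x ψ (ε i))
  have heq : cnt s t (Sin s t S x) (fun v => ∑ i ∈ univ.filter (fun i => R s t x (ε i) = v),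
      -sg s x φ (ε i)) = cnt s t (Sin s t S x)
        (fun v => ∑ i ∈ univ.filter (fun i => R s t x (ε i) = v), -sg s x ψ (ε i)) := by
    have : (cnt s t (Sin s t S x) (fun v => ∑ i ∈ univ.filter (fun i => R s t x (ε i) = v),
      -sg s x φ (ε i)) : ℤ) = cnt s t (Sin s t S x)
        (fun v => ∑ i ∈ univ.filter (fun i => R s t x (ε i) = v), -sg s x ψ (ε i)) := by
      rw [hc1, hc2]
      refine sum_congr rfl fun g _ => ?_
      rw [chi_adm g _ a1, chi_adm g _ a2]
    exact_mod_cast this
  -- the given function is counted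
  have hpos : 0 < cnt s t (Sin s t S x) (fun v => ∑ i ∈ univ.filter
      (fun i => R s t x (ε i) = v), -sg s x φ (ε i)) := by
    unfold cnt
    apply card_pos.2
    refine ⟨fun e => if e ∈ Sin s t S x then φ e else 0, ?_⟩
    rw [mem_filter]
    refine ⟨mem_univ _, fun e he => ?_, fun e he => if_neg he, fun v => ?_⟩
    · dsimp only
      rw [if_pos he]
      rw [Sin, mem_filter] at he
      exact h1 e he.1 (Or.inl he.2.1)
    · have e1 : bd s t (Sin s t S x) (fun e => if e ∈ Sin s t S x then φ e else 0) v =
          bd s t (Sin s t S x) φ v := by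
        unfold bd
        refine sum_congr rfl fun e he => ?_
        simp only [if_pos he]
      rw [e1]
      dsimp only
      rw [fsum]
      cases hv : x v
      · rw [bd_false s t S x φ v hv, eq_comm, neg_eq_zero]
        refine sum_eq_zero fun e he => ?_
        rw [if_neg]
        intro h
        have := R_true he
        rw [h, hv] at this
        exact absurd this (by decide)
      · have := bd_split s t S x φ v hv
        rw [h2 v hv] at this
        exact eq_neg_of_add_eq_zero_left this.symm
  rw [heq] at hpos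
  unfold cnt at hpos
  obtain ⟨χ, hχ⟩ := card_pos.1 hpos
  rw [mem_filter] at hχ
  obtain ⟨-, n1, -, n3⟩ := hχ
  have hdis : ∀ e ∈ cut s t S x, e ∉ Sin s t S x := by
    intro e he he'
    rw [cut, mem_filter] at he
    rw [Sin, mem_filter] at he'
    exact he.2 (he'.2.1.trans he'.2.2.symm)
  refine ⟨fun e => if e ∈ Sin s t S x then χ e else if e ∈ cut s t S x then ψ e else 1,
    ?_, ?_, ?_⟩
  · intro e he hx
    dsimp only
    split_ifs with c1 c2
    · exact n1 e c1
    · exact h3 e c2
    · decide
  · intro v hv
    rw [bd_split s t S x _ v hv]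
    have e1 : bd s t (Sin s t S x)
        (fun e => if e ∈ Sin s t S x then χ e else if e ∈ cut s t S x then ψ e else 1) v =
        bd s t (Sin s t S x) χ v := by
      unfold bd
      refine sum_congr rfl fun e he => ?_
      simp only [if_pos he]
    have e2 : ∑ e ∈ cut s t S x, (if R s t x e = v then sg s x
        (fun e => if e ∈ Sin s t S x then χ e else if e ∈ cut s t S x then ψ e else 1) e else 0) =
        ∑ e ∈ cut s t S x, (if R s t x e = v then sg s x ψ e else 0) := by
      refine sum_congr rfl fun e he => ?_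
      unfold sg
      simp only [if_neg (hdis e he), if_pos he]
    have n3v := n3 v
    dsimp only at n3v
    rw [e1, e2, n3v, fsum, neg_add_cancel]
  · intro e he
    dsimp only
    rw [if_neg (hdis e he), if_pos he]

end Pool.Agent.TH362.FF
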